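import Pool.Agent.H16.RM.Defs

/-!
# The growth of roots of polynomials

PROOF of `T_horner` (induction on `k`, for all `b`): `∑_{i < k+2} b_i x^i = b_0 + x ∑_{i < k+1} b_{i+1} x^i`
(`Finset.sum_range_succ'`), so by `T_add`, `T_mul` and the induction hypothesis for `i ↦ b_{i+1}`,
`T(∑) ≤ T(b_0) + T(x) + ∑_{i<k+1} T(b_{i+1}) + k T(x) + k log 2 + log 2`.

PROOF of `algF`: let `c i ∈ BB M S m` for `i ≤ e`, `c e ≠ 0`, `∑_{i ≤ e} c_i x^i = 0`. If `e = 0` then
`c 0 = 0`: contradiction. Let `e = k + 1` and `b_i = c_i / c_e ∈ BB M S (2 * m)` (`Filt.div` for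
`filt hG`, level `m + m`). Dividing by `c_e`: `x^(k+1) = -∑_{i < k+1} b_i x^i`. By `T_pow`
(`T (x^(k+1)) = (k+1) T x`), `T_neg` and `T_horner`:
`(k+1) T x ≤ ∑_{i<k+1} T b_i + k T x + k log 2`, so `T x ≤ ∑_{i<k+1} T b_i + k log 2` for all `r ≥ 1`.
With `T b_i ≤ 2 m M + C_i S` (eventually in `ff`; finitely many `i`: `eventually_all_finset`) and
`S ≥ 1`, `C_i ≥ 0`: `T x ≤ (k+1) * (2 m) * M + (∑ C_i + k log 2) * S`, and
`(k+1) * 2m = 2 * (k+1) * m`. (`x ∈ BB M S (2 * e * m)` by definition; casts `ℕ → ℝ`.)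
-/

namespace Pool.Agent.H16.RM

open Pool.Agent.H13.Nev Real

theorem T_horner (k : ℕ) (b : ℕ → KN) (x : KN) {r : ℝ} (hr : 1 ≤ r) :
    T (∑ i ∈ Finset.range (k + 1), b i * x ^ i) r
      ≤ ∑ i ∈ Finset.range (k + 1), T (b i) r + k * T x r + k * log 2 := by
  induction k generalizing b with
  | zero => simp
  | succ k ih =>
    have h1 : ∑ i ∈ Finset.range (k + 1 + 1), b i * x ^ i =
        x * ∑ i ∈ Finset.range (k + 1), b (i + 1) * x ^ i + b 0 := by
      rw [Finset.sum_range_succ', Finset.mul_sum, pow_zero, mul_one]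
      congr 1
      exact Finset.sum_congr rfl fun i _ => by ring
    rw [h1, Finset.sum_range_succ' (fun i => T (b i) r)]
    have h2 := T_add (x * ∑ i ∈ Finset.range (k + 1), b (i + 1) * x ^ i) (b 0) hr
    have h3 := T_mul x (∑ i ∈ Finset.range (k + 1), b (i + 1) * x ^ i) hr
    have h4 := ih (fun i => b (i + 1))
    push_cast
    linarith

theorem algF {M S : ℝ → ℝ} (hG : Gauge M S) : AlgF KN (BB M S) := by
  intro e m c x hc hce h0
  rcases e with _ | k
  · exfalso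
    apply hce
    simpa using h0
  have hF := filt hG
  have hb : ∀ i ≤ k, c i / c (k + 1) ∈ BB M S (m + m) := fun i hi =>
    hF.div (hc i (by omega)) (hc (k + 1) le_rfl)
  have hx : x ^ (k + 1) = -∑ i ∈ Finset.range (k + 1), c i / c (k + 1) * x ^ i := by
    rw [Finset.sum_range_succ] at h0
    have h1 : ∑ i ∈ Finset.range (k + 1), c i / c (k + 1) * x ^ i =
        (∑ i ∈ Finset.range (k + 1), c i * x ^ i) / c (k + 1) := by
      rw [Finset.sum_div]
      exact Finset.sum_congr rfl fun i _ => by ring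
    rw [h1, eq_neg_of_add_eq_zero_left h0, neg_div, neg_neg, mul_div_cancel_left₀ _ hce]
  have hT : ∀ r : ℝ, 1 ≤ r → T x r ≤
      ∑ i ∈ Finset.range (k + 1), T (c i / c (k + 1)) r + k * log 2 := by
    intro r hr
    have h1 := T_pow x (k + 1) hr
    rw [hx] at h1
    have h2 := T_neg (∑ i ∈ Finset.range (k + 1), c i / c (k + 1) * x ^ i) hr
    have h3 := T_horner k (fun i => c i / c (k + 1)) x hr
    push_cast at h1
    linarith
  have hex : ∀ i, ∃ C : ℝ, i ≤ k → 0 ≤ C ∧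
      ∀ᶠ r in ff, T (c i / c (k + 1)) r ≤ ((m + m : ℕ) : ℝ) * M r + C * S r := by
    intro i
    by_cases hi : i ≤ k
    · obtain ⟨C, hC, h⟩ := hb i hi
      exact ⟨C, fun _ => ⟨hC, h⟩⟩
    · exact ⟨0, fun h => absurd h hi⟩
  choose C hC using hex
  have hlog : 0 ≤ log 2 := Real.log_nonneg (by norm_num)
  have hmem : ∀ i ∈ Finset.range (k + 1), i ≤ k := fun i hi => by
    rw [Finset.mem_range] at hi
    omega
  have hCs : 0 ≤ ∑ i ∈ Finset.range (k + 1), C i :=
    Finset.sum_nonneg fun i hi => (hC i (hmem i hi)).1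
  refine ⟨∑ i ∈ Finset.range (k + 1), C i + k * log 2, by positivity, ?_⟩
  have hall : ∀ᶠ r in ff, ∀ i ∈ Finset.range (k + 1),
      T (c i / c (k + 1)) r ≤ ((m + m : ℕ) : ℝ) * M r + C i * S r :=
    (Filter.eventually_all_finset _).2 fun i hi => (hC i (hmem i hi)).2
  filter_upwards [hall, hG.hS, eventually_one_le_ff] with r h1 h2 hr
  have h3 := hT r hr
  have h4 : ∑ i ∈ Finset.range (k + 1), T (c i / c (k + 1)) r ≤
      ∑ i ∈ Finset.range (k + 1), (((m + m : ℕ) : ℝ) * M r + C i * S r) :=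
    Finset.sum_le_sum h1
  rw [Finset.sum_add_distrib, Finset.sum_const, Finset.card_range, nsmul_eq_mul,
    ← Finset.sum_mul] at h4
  have h5 : (k : ℝ) * log 2 ≤ k * log 2 * S r := by
    have : 0 ≤ (k : ℝ) * log 2 := by positivity
    nlinarith
  push_cast at h4 ⊢
  nlinarith

end Pool.Agent.H16.RM
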