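import Pool.Agent.H16.RM.SmtW

/-!
# The ramification theorem for the Wronskian of an entire curve

PROOF of `TC_comb`. As in the proof of `orbifold` in `H13/Nev/Orb.lean` (steps 'comparison of the
characteristic functions' and 'lower bound', copy them): with `s = ∑_j ∑_i ‖H j i‖ + 1`,
`‖vec y z‖ ≤ s ‖vec g z‖`, so `TC y r ≤ TC g r + log s`; and `TC_ge y j₀` with `logCounting_nonneg` gives
`TC y r ≥ -|log ‖trailing coefficient of y j₀ at 0‖|`.

PROOF of `smtB`. Let `C k` be the constant of `smtW N k d` and `C = ∑_{k ≤ N} C k`. Given the data,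
`M ≤ N` by `card_le`, so `smtW N M d` applies with `q j i = algebraMap ℂ EN (v j i)` (restrict `he` to
`k ≤ M`; `M ≤ N ≤ e`), and its constant is `≤ C`. As in `smt_hyper` (`H13/Nev/Final.lean`, the model):
`vec (q j)` is the constant function `v j`, so `∑_j characteristic (vec (q j)) ⊤ r = ∑_j log⁺ ‖v j‖ =: cq`
and `MMW y q r = logCounting (logDeriv (Wr y).1) ⊤ r + cq` (the counting function is `≥ 0` for
`r ≥ 1`). Some `y j₀ ≠ 0` (otherwise `g = 0`). `TC_comb` and `posLog_add_le_max`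
(`H13/Nev/Orb.lean`) give `log⁺ (TC y r) ≤ log⁺ (TC g r) + D` with `D = log 2 + log⁺ cH + log⁺ L`.
Hence `TC g r ≤ C (logCounting + cq) + K (1 + log r + log⁺ (TC g r) + D)
≤ C logCounting + (C cq + K (1 + D)) (1 + log r + log⁺ (TC g r))`.
-/

namespace Pool.Agent.H16.RM

open Pool.Agent.H13.Kob Pool.Agent.H13.Nev Real Pool.Agent.H13.CEV ValueDistribution

private theorem BOne_posLog {t c L : ℝ} {s : ℝ} (h1 : s ≤ t + c) (h2 : -L ≤ s) :
    log⁺ s ≤ log⁺ (max t 0 + c) + log⁺ L := by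
  have h5 : 0 ≤ log⁺ L := posLog_nonneg
  have h6 : 0 ≤ log⁺ (max t 0 + c) := posLog_nonneg
  rcases le_total 0 s with hs | hs
  · have h3 : s ≤ max t 0 + c := h1.trans (by have := le_max_left t 0; linarith)
    have h4 := posLog_le_posLog hs h3
    linarith
  · have h3 : log⁺ s = log⁺ (-s) := (posLog_neg s).symm
    rw [h3]
    have h4 : log⁺ (-s) ≤ log⁺ L := posLog_le_posLog (by linarith) (by linarith)
    linarith

theorem TC_comb {M N : ℕ} (y : Fin M → EN) (H : Fin M → Fin N → ℂ) (g : Fin N → EN)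
    (hy : ∀ j, y j = ∑ i, algebraMap ℂ EN (H j i) * g i) (hg0 : ∀ z, vec g z ≠ 0)
    (j₀ : Fin M) (hj₀ : y j₀ ≠ 0) :
    (∃ c : ℝ, 0 ≤ c ∧ ∀ r, 1 ≤ r → TC y r ≤ TC g r + c) ∧
      ∃ L : ℝ, 0 ≤ L ∧ ∀ r, 1 ≤ r → -L ≤ TC y r := by
  classical
  have hyv : ∀ j z, (y j).1 z = ∑ i, H j i * (g i).1 z := by
    intro j z
    have h1 : (y j).1 z = ev z (y j) := rfl
    rw [h1, hy j, map_sum]
    apply Finset.sum_congr rfl
    intro i _
    rw [map_mul]
    rfl
  constructor
  · set s : ℝ := ∑ j, ∑ i, ‖H j i‖ + 1 with hs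
    have hs1 : 1 ≤ s := by
      have : 0 ≤ ∑ j, ∑ i, ‖H j i‖ :=
        Finset.sum_nonneg fun j _ => Finset.sum_nonneg fun i _ => norm_nonneg _
      linarith
    refine ⟨log s, Real.log_nonneg hs1, fun r hr => ?_⟩
    have h1 : circleAverage (fun z => log ‖vec g z‖ + log s) 0 r = TC g r + log s := by
      rw [circleAverage_fun_add (vec_int g r) (circleIntegrable_const _ _ _), circleAverage_const]
      rfl
    rw [← h1, TC]
    apply circleAverage_mono_codiscrete (by linarith) (vec_int y r)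
      ((vec_int g r).add (circleIntegrable_const _ _ _))
    filter_upwards [eventually_sphere (EN.eventually_ne hj₀) r] with z hz
    have h2 : 0 < ‖vec y z‖ := lt_of_lt_of_le (norm_pos_iff.mpr hz) (norm_le_pi_norm (vec y z) j₀)
    have h3 : 0 < ‖vec g z‖ := norm_pos_iff.mpr (hg0 _)
    show log ‖vec y z‖ ≤ log ‖vec g z‖ + log s
    rw [← Real.log_mul h3.ne' (by linarith)]
    apply Real.log_le_log h2
    rw [pi_norm_le_iff_of_nonneg (by positivity)]
    intro j
    show ‖(y j).1 z‖ ≤ _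
    rw [hyv]
    calc ‖∑ i, H j i * (g i).1 z‖ ≤ ∑ i, ‖H j i‖ * ‖vec g z‖ := by
          refine (norm_sum_le _ _).trans (Finset.sum_le_sum fun i _ => ?_)
          rw [norm_mul]
          exact mul_le_mul_of_nonneg_left (norm_le_pi_norm (vec g z) i) (norm_nonneg _)
      _ = (∑ i, ‖H j i‖) * ‖vec g z‖ := by rw [Finset.sum_mul]
      _ ≤ s * ‖vec g z‖ := by
          apply mul_le_mul_of_nonneg_right _ (norm_nonneg _)
          have := Finset.single_le_sum (f := fun j => ∑ i, ‖H j i‖)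
            (fun j _ => Finset.sum_nonneg fun i _ => norm_nonneg (H j i)) (Finset.mem_univ j)
          linarith
      _ = ‖vec g z‖ * s := mul_comm _ _
  · refine ⟨|log ‖meromorphicTrailingCoeffAt (y j₀).1 0‖|, abs_nonneg _, ?_⟩
    intro r hr
    have h1 := TC_ge y j₀ hj₀ hr
    have h2 := logCounting_nonneg (f := (y j₀).1) (e := 0) hr
    have h3 := neg_abs_le (log ‖meromorphicTrailingCoeffAt (y j₀).1 0‖)
    linarith

theorem smtB (N d : ℕ) : ∃ C : ℝ, 0 ≤ C ∧ ∀ (e : ℕ) (x : mons N d → ℂ), Good e x →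
    (∀ k ≤ N, ∀ a : Fin k → ℕ, ∃ b : Fin k → ℕ, SameType d a b ∧ ∀ j, b j ≤ e) → N ≤ e →
    ∀ (M : ℕ) (y : Fin M → EN) (v H : Fin M → Fin N → ℂ) (g : Fin N → EN), Wr y ≠ 0 →
    (∀ i, g i = ∑ j, y j * algebraMap ℂ EN (v j i)) →
    (∀ j, y j = ∑ i, algebraMap ℂ EN (H j i) * g i) → (∀ z, vec g z ≠ 0) →
    (∀ z, MvPolynomial.eval (vec g z) (Fm x) = 0) →
    ∃ K : ℝ, 0 ≤ K ∧ ∀ᶠ r in ff, TC g r ≤ C * logCounting (logDeriv (Wr y).1) ⊤ r
      + K * (1 + log r + log⁺ (TC g r)) := by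
  classical
  choose Cf hCf0 hCf using fun k => smtW N k d
  set C : ℝ := ∑ k ∈ Finset.range (N + 1), Cf k with hCdef
  have hC : 0 ≤ C := Finset.sum_nonneg fun k _ => hCf0 k
  refine ⟨C, hC, ?_⟩
  intro e x hx he hNe M y v H g hW hgy hy hg0 hgF
  have hMN : M ≤ N := card_le y hW H g hy
  have hCM : Cf M ≤ C := Finset.single_le_sum (f := Cf) (fun k _ => hCf0 k)
    (Finset.mem_range.mpr (by omega))
  obtain ⟨K, hK, hmain⟩ := hCf M e x hx (fun k hk => he k (hk.trans hMN)) (hMN.trans hNe) y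
    (fun j i => algebraMap ℂ EN (v j i)) g hW hgy hg0 hgF
  obtain ⟨j₀, hj₀⟩ : ∃ j, y j ≠ 0 := by
    by_contra hcon
    push Not at hcon
    apply hg0 0
    funext i
    show (g i).1 0 = 0
    rw [hgy i]
    simp only [hcon, zero_mul, Finset.sum_const_zero]
    rfl
  obtain ⟨⟨cH, hcH, hTf⟩, L, hL0, hlow⟩ := TC_comb y H g hy hg0 j₀ hj₀
  set cq : ℝ := ∑ j, log⁺ ‖v j‖ with hcq
  have hcq0 : 0 ≤ cq := Finset.sum_nonneg fun j _ => posLog_nonneg
  have hLp : 0 ≤ log⁺ L := posLog_nonneg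
  have hcHp : 0 ≤ log⁺ cH := posLog_nonneg
  have hl2 : 0 ≤ log 2 := Real.log_nonneg (by norm_num)
  refine ⟨C * cq + K * (2 + log 2 + log⁺ cH + log⁺ L), by positivity, ?_⟩
  filter_upwards [hmain, eventually_one_le_ff] with r h1 hr
  have hMM : MMW y (fun j i => algebraMap ℂ EN (v j i)) r =
      logCounting (logDeriv (Wr y).1) ⊤ r + cq := by
    rw [MMW]
    congr 1
    apply Finset.sum_congr rfl
    intro j _
    have h2 : vec (fun i => algebraMap ℂ EN (v j i)) = fun _ => v j := rfl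
    rw [h2, characteristic]
    simp
  rw [hMM] at h1
  have hcount : 0 ≤ logCounting (logDeriv (Wr y).1) ⊤ r :=
    logCounting_nonneg (f := logDeriv (Wr y).1) (e := ⊤) hr
  have h2 := BOne_posLog (t := TC g r) (c := cH) (L := L) (s := TC y r) (hTf r hr)
    (hlow r hr)
  have h3 := posLog_add (x := max (TC g r) 0) (y := cH)
  have h4 : log⁺ (max (TC g r) 0) ≤ log⁺ (TC g r) := by
    rcases le_total 0 (TC g r) with h | h
    · rw [max_eq_left h]
    · rw [max_eq_right h, posLog_zero]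
      exact posLog_nonneg
  have h5 : 0 ≤ log⁺ (TC g r) := posLog_nonneg
  have h6 : 0 ≤ log r := Real.log_nonneg hr
  set D := log 2 + log⁺ cH + log⁺ L with hD
  have hD0 : 0 ≤ D := by linarith
  have h7 : K * (1 + log r + log⁺ (TC y r)) ≤ K * (1 + log r + (log⁺ (TC g r) + D)) :=
    mul_le_mul_of_nonneg_left (by linarith) hK
  have h8 : K * (1 + log r + (log⁺ (TC g r) + D))
      ≤ K * (2 + D) * (1 + log r + log⁺ (TC g r)) := by
    rw [mul_assoc]
    apply mul_le_mul_of_nonneg_left _ hK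
    nlinarith
  have h9 : C * cq ≤ C * cq * (1 + log r + log⁺ (TC g r)) := by
    have := mul_nonneg hC hcq0
    nlinarith
  have h11 : Cf M * (logCounting (logDeriv (Wr y).1) ⊤ r + cq) ≤
      C * (logCounting (logDeriv (Wr y).1) ⊤ r + cq) :=
    mul_le_mul_of_nonneg_right hCM (by linarith)
  have h10 : (C * cq + K * (2 + log 2 + log⁺ cH + log⁺ L)) * (1 + log r + log⁺ (TC g r))
      = C * cq * (1 + log r + log⁺ (TC g r)) + K * (2 + D) * (1 + log r + log⁺ (TC g r)) := by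
    rw [hD]; ring
  rw [h10]
  linarith

end Pool.Agent.H16.RM
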