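import Pool.Agent.H16.RM.WDel

/-!
# The number of zeros of the Wronskian

PROOF. Let `Δ` be as in `exists_Del` (WDel), so `io (Wr y) = (∏ j, io (y j)) * Δ`; `Wr y ≠ 0`, so
`Δ ≠ 0` and all `y j ≠ 0`. Almost everywhere (`codiscrete ℂ`)
`‖(Wr y).1 z‖ = (∏ j, ‖(y j).1 z‖) * ‖rep Δ z‖` (`rep_io`, `rep_mul`, and
`io (∏ j, y j) = ∏ j, io (y j)`, `(∏ j, y j).1 z = ∏ j, (y j).1 z` through `ev z`), and, almost
everywhere on the circle of radius `r` (`eventually_sphere`), where nothing vanishes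
(`EN.eventually_ne`, `rep_ne`): `log ‖Wr y z‖ = ∑_j log ‖y j z‖ + log ‖rep Δ z‖
≤ ∑_j log ‖y j z‖ + log⁺ ‖rep Δ z‖` (`Real.log_prod`). Average over the circle
(`circleAverage_mono_codiscrete`, `circleAverage_fun_add`, `circleAverage_fun_sum`, integrability
`EN.int`, `circleIntegrable_posLog_norm` as in `TC_le` of `H13/Nev/Char.lean`, the model): Jensen's
formula `EN.jensen (Wr y)` on the left; `circleAverage (log ‖y j‖) ≤ TC y r ≤ max 0 (TC y r)` (as in
`TC_ge`) and `proximity (rep Δ) ⊤ r ≤ C S r` (`proximity_top`, definition of `Lam`) on the right. So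
`logCounting (Wr y).1 0 r ≤ (M+1) max 0 (TC y r) + C S r + |const|`, and `1 ≤ S r`.
-/

namespace Pool.Agent.H16.RM

open Pool.Agent.H13.Nev ValueDistribution

private lemma prod_apply' {M : ℕ} (y : Fin (M + 1) → EN) (z : ℂ) :
    (∏ j, y j).1 z = ∏ j, (y j).1 z := map_prod (ev z) y Finset.univ

theorem count_Wr {M : ℕ} (y : Fin (M + 1) → EN) (hW : Wr y ≠ 0) {S : ℝ → ℝ}
    (hG : Gauge (fun r => max 0 (TC y r)) S) : ∃ C : ℝ, 0 ≤ C ∧ ∀ᶠ r in ff,
      logCounting (Wr y).1 0 r ≤ ((M : ℝ) + 1) * max 0 (TC y r) + C * S r := by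
  obtain ⟨Δ, hΔ, hprod⟩ := exists_Del y hW hG
  have hne : io (Wr y) ≠ 0 := io_ne hW
  have hΔ0 : Δ ≠ 0 := by
    rintro rfl
    rw [mul_zero] at hprod
    exact hne hprod
  have hy : ∀ j, y j ≠ 0 := by
    intro j hj
    apply hne
    rw [hprod, Finset.prod_eq_zero (Finset.mem_univ j) (by rw [hj, map_zero]), zero_mul]
  obtain ⟨C, hC, hp⟩ := hΔ.2
  refine ⟨C + |Real.log ‖meromorphicTrailingCoeffAt (Wr y).1 0‖|, by positivity, ?_⟩
  filter_upwards [hp, hG.hS, eventually_one_le_ff] with r hr hS hr1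
  have hr0 : r ≠ 0 := by linarith
  have hJ := EN.jensen (Wr y) hr0
  have hae : ∀ᶠ z in Filter.codiscrete ℂ,
      Real.log ‖(Wr y).1 z‖ ≤ ∑ j, Real.log ‖(y j).1 z‖ + Real.posLog ‖rep Δ z‖ := by
    have h0 : io (Wr y) = io (∏ j, y j) * Δ := by rw [hprod, map_prod]
    have hall : ∀ᶠ z in Filter.codiscrete ℂ, ∀ j, (y j).1 z ≠ 0 := by
      rw [Filter.eventually_all]
      exact fun j => EN.eventually_ne (hy j)
    filter_upwards [rep_io (Wr y), rep_io (∏ j, y j), rep_mul (io (∏ j, y j)) Δ, hall,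
      rep_ne hΔ0] with z h1 h2 h3 h4 h5
    have h6 : (Wr y).1 z = (∏ j, (y j).1 z) * rep Δ z := by
      rw [← h1, h0, h3, h2, prod_apply']
    have h7 : ∀ j ∈ (Finset.univ : Finset (Fin (M + 1))), ‖(y j).1 z‖ ≠ 0 := fun j _ =>
      norm_ne_zero_iff.mpr (h4 j)
    rw [h6, norm_mul, norm_prod, Real.log_mul (Finset.prod_ne_zero_iff.mpr h7)
      (norm_ne_zero_iff.mpr h5), Real.log_prod h7]
    have h8 : Real.log ‖rep Δ z‖ ≤ Real.posLog ‖rep Δ z‖ := le_max_right _ _
    linarith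
  have hint : ∀ j ∈ (Finset.univ : Finset (Fin (M + 1))),
      CircleIntegrable (fun z => Real.log ‖(y j).1 z‖) 0 r := fun j _ => EN.int (y j) r
  have hintΔ : CircleIntegrable (fun z => Real.posLog ‖rep Δ z‖) 0 r :=
    (rep_mer Δ).meromorphicOn.circleIntegrable_posLog_norm
  have h1 : Real.circleAverage (fun z => Real.log ‖(Wr y).1 z‖) 0 r
      ≤ ∑ j, Real.circleAverage (fun z => Real.log ‖(y j).1 z‖) 0 r
        + proximity (rep Δ) ⊤ r := by
    rw [proximity_top, ← Real.circleAverage_fun_sum hint,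
      ← Real.circleAverage_fun_add (CircleIntegrable.fun_sum _ hint) hintΔ]
    exact circleAverage_mono_codiscrete hr0 (EN.int (Wr y) r)
      ((CircleIntegrable.fun_sum _ hint).add hintΔ) (eventually_sphere hae r)
  have h2 : ∀ j, Real.circleAverage (fun z => Real.log ‖(y j).1 z‖) 0 r
      ≤ max 0 (TC y r) := by
    intro j
    refine le_trans ?_ (le_max_right _ _)
    rw [TC]
    apply circleAverage_mono_codiscrete hr0 (EN.int (y j) r) (vec_int y r)
    filter_upwards [eventually_sphere (EN.eventually_ne (hy j)) r] with z hz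
    exact Real.log_le_log (norm_pos_iff.mpr hz) (norm_le_pi_norm (vec y z) j)
  have h3 : ∑ j, Real.circleAverage (fun z => Real.log ‖(y j).1 z‖) 0 r
      ≤ ((M : ℝ) + 1) * max 0 (TC y r) := by
    refine le_trans (Finset.sum_le_sum fun j _ => h2 j) ?_
    rw [Finset.sum_const, Finset.card_univ, Fintype.card_fin, nsmul_eq_mul]
    push_cast
    exact le_rfl
  have h4 := neg_abs_le (Real.log ‖meromorphicTrailingCoeffAt (Wr y).1 0‖)
  have h5 : |Real.log ‖meromorphicTrailingCoeffAt (Wr y).1 0‖|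
      ≤ |Real.log ‖meromorphicTrailingCoeffAt (Wr y).1 0‖| * S r :=
    le_mul_of_one_le_right (abs_nonneg _) hS
  rw [add_mul]
  linarith

end Pool.Agent.H16.RM
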