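import Pool.Agent.H16.RM.WNe

/-!
# The Wronskian after composition with the exponential function

PROOF of `Wr_exp`. Let `E₁ : EN` be the exponential function. `expE : EN → EN` is a ring homomorphism
(define `expH : EN →+* EN` with `toFun = expE`), and `dE (expE f) = E₁ * expE (dE f)` (chain rule),
`dE (f * g) = dE f * g + f * dE g`, `dE (f + g) = dE f + dE g` (`deriv_mul`, `deriv_add`). By induction
on `i` there are `c i k : EN` (`k ≤ i`) with `dE^[i] (expE f) = ∑_{k ≤ i} c i k * expE (dE^[k] f)` for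
all `f`, and `c i i = E₁^i`, `c i k = 0` for `k > i`: take `c 0 0 = 1`,
`c (i+1) k = dE (c i k) + E₁ * c i (k-1)` (second term absent for `k = 0`), as in the file Conv. So the
matrix `(dE^[i] (expE (y j)))` is the product of the lower triangular matrix `(c i k)`, with determinant
`u = ∏_i E₁^i` (`Matrix.det_of_lowerTriangular`), which has no zeros, and of
`(expE (dE^[k] (y j)))`, with determinant `expE (Wr y)` (`RingHom.map_det`).

PROOF of `Wr_exp_ne`: `u ≠ 0` and `expE (Wr y) ≠ 0` (if `(Wr y).1 (exp z) = 0` for all `z` then `Wr y`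
vanishes on `{w ≠ 0}`, hence everywhere by continuity, or use `EN.eventually_ne`).
PROOF of `order_exp`: at a zero `z` of `u * expE (Wr y)` the point `exp z` is a zero of `Wr y`;
`analyticOrderAt (u.1 * (expE f).1) z = 0 + analyticOrderAt (f.1 ∘ exp) z` (`analyticOrderAt_mul`,
`AnalyticAt.analyticOrderAt_eq_zero`), and `analyticOrderAt_comp_of_deriv_ne_zero` gives
`analyticOrderAt (f.1 ∘ exp) z = analyticOrderAt f.1 (exp z)` (used in `H13/Nev/Orb.lean`).
-/

namespace Pool.Agent.H16.RM

open Pool.Agent.H13.Nev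

/-- composition with the exponential function as a ring homomorphism -/
private noncomputable def WExp_h : EN →+* EN where
  toFun := expE
  map_one' := EN.ext' fun _ => rfl
  map_mul' _ _ := EN.ext' fun _ => rfl
  map_zero' := EN.ext' fun _ => rfl
  map_add' _ _ := EN.ext' fun _ => rfl

/-- the exponential function -/
private noncomputable def WExp_E : EN := ⟨Complex.exp, Complex.differentiable_exp⟩

/-- its inverse -/
private noncomputable def WExp_E' : EN :=
  ⟨fun z => Complex.exp (-z), Complex.differentiable_exp.comp differentiable_neg⟩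

private theorem WExp_inv : WExp_E * WExp_E' = 1 := by
  refine EN.ext' fun z => ?_
  show Complex.exp z * Complex.exp (-z) = 1
  rw [← Complex.exp_add, add_neg_cancel, Complex.exp_zero]

private theorem WExp_dmul (f g : EN) : dE (f * g) = dE f * g + f * dE g := by
  refine EN.ext' fun z => ?_
  show deriv (f.1 * g.1) z = deriv f.1 z * g.1 z + f.1 z * deriv g.1 z
  exact deriv_mul (f.2 z) (g.2 z)

private theorem WExp_dadd (f g : EN) : dE (f + g) = dE f + dE g := by
  refine EN.ext' fun z => ?_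
  show deriv (f.1 + g.1) z = deriv f.1 z + deriv g.1 z
  exact deriv_add (f.2 z) (g.2 z)

private theorem WExp_dexp (f : EN) : dE (expE f) = WExp_E * expE (dE f) := by
  refine EN.ext' fun z => ?_
  show deriv (fun z => f.1 (Complex.exp z)) z = Complex.exp z * deriv f.1 (Complex.exp z)
  have h1 := (f.2 (Complex.exp z)).hasDerivAt.comp z (Complex.hasDerivAt_exp z)
  rw [mul_comm]
  exact h1.deriv

/-- the derivation as an additive homomorphism -/
private noncomputable def WExp_d : EN →+ EN := AddMonoidHom.mk' dE WExp_dadd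

private theorem WExp_dzero : dE 0 = 0 := WExp_d.map_zero

private theorem WExp_dsum (n : ℕ) (f : ℕ → EN) :
    dE (∑ k ∈ Finset.range n, f k) = ∑ k ∈ Finset.range n, dE (f k) :=
  map_sum WExp_d f (Finset.range n)

/-- the coefficients -/
private noncomputable def WExp_c : ℕ → ℕ → EN
  | 0, 0 => 1
  | 0, _ + 1 => 0
  | i + 1, 0 => dE (WExp_c i 0)
  | i + 1, k + 1 => dE (WExp_c i (k + 1)) + WExp_E * WExp_c i k

private theorem WExp_c_zero : ∀ i k : ℕ, i < k → WExp_c i k = 0 := by
  intro i
  induction i with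
  | zero =>
    intro k hk
    obtain ⟨k, rfl⟩ := Nat.exists_eq_succ_of_ne_zero (by omega : k ≠ 0)
    rw [Nat.succ_eq_add_one, WExp_c]
  | succ i ih =>
    intro k hk
    obtain ⟨k, rfl⟩ := Nat.exists_eq_succ_of_ne_zero (by omega : k ≠ 0)
    rw [Nat.succ_eq_add_one, WExp_c, ih (k + 1) (by omega), ih k (by omega), WExp_dzero, mul_zero,
      add_zero]

private theorem WExp_c_diag : ∀ i : ℕ, WExp_c i i = WExp_E ^ i := by
  intro i
  induction i with
  | zero => rw [WExp_c, pow_zero]
  | succ i ih =>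
    rw [WExp_c, WExp_c_zero i (i + 1) (by omega), ih, WExp_dzero, zero_add, pow_succ, mul_comm]

private theorem WExp_formula (f : EN) : ∀ i : ℕ,
    dE^[i] (expE f) = ∑ k ∈ Finset.range (i + 1), WExp_c i k * expE (dE^[k] f) := by
  intro i
  induction i with
  | zero =>
    rw [Finset.sum_range_one, WExp_c, one_mul]
    rfl
  | succ i ih =>
    rw [Function.iterate_succ_apply', ih, WExp_dsum]
    have h1 : ∀ k ∈ Finset.range (i + 1), dE (WExp_c i k * expE (dE^[k] f)) =
        dE (WExp_c i k) * expE (dE^[k] f) + WExp_E * WExp_c i k * expE (dE^[k + 1] f) := by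
      intro k _
      rw [WExp_dmul, WExp_dexp, Function.iterate_succ_apply']
      ring
    rw [Finset.sum_congr rfl h1, Finset.sum_add_distrib, Finset.sum_range_succ' _ (i + 1)]
    have h2 : ∑ k ∈ Finset.range (i + 1), dE (WExp_c i k) * expE (dE^[k] f) =
        ∑ k ∈ Finset.range (i + 1), dE (WExp_c i (k + 1)) * expE (dE^[k + 1] f) +
          dE (WExp_c i 0) * expE (dE^[0] f) := by
      rw [← Finset.sum_range_succ' (fun k => dE (WExp_c i k) * expE (dE^[k] f)) (i + 1),
        Finset.sum_range_succ _ (i + 1), WExp_c_zero i (i + 1) (by omega), WExp_dzero, zero_mul,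
        add_zero]
    rw [h2]
    have h3 : ∀ k ∈ Finset.range (i + 1), WExp_c (i + 1) (k + 1) * expE (dE^[k + 1] f) =
        dE (WExp_c i (k + 1)) * expE (dE^[k + 1] f) +
          WExp_E * WExp_c i k * expE (dE^[k + 1] f) := by
      intro k _
      rw [WExp_c, add_mul]
    rw [Finset.sum_congr rfl h3, Finset.sum_add_distrib]
    have h4 : WExp_c (i + 1) 0 = dE (WExp_c i 0) := by rw [WExp_c]
    rw [h4]
    ring

private theorem WExp_fin {M : ℕ} (f : EN) (i : Fin M) :
    dE^[i] (expE f) = ∑ k : Fin M, WExp_c i k * expE (dE^[k] f) := by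
  rw [WExp_formula f i, Finset.sum_range]
  have h1 : ∑ k : Fin M, WExp_c i k * expE (dE^[k] f) =
      ∑ k ∈ Finset.range M, WExp_c i k * expE (dE^[k] f) :=
    (Finset.sum_range (fun k => WExp_c i k * expE (dE^[k] f))).symm
  have h2 : ∑ k : Fin ((i : ℕ) + 1), WExp_c i k * expE (dE^[k] f) =
      ∑ k ∈ Finset.range ((i : ℕ) + 1), WExp_c i k * expE (dE^[k] f) :=
    (Finset.sum_range (fun k => WExp_c i k * expE (dE^[k] f))).symm
  rw [h1, h2]
  refine Finset.sum_subset (Finset.range_subset_range.2 (by omega)) fun k _ hk => ?_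
  rw [Finset.mem_range, not_lt] at hk
  rw [WExp_c_zero i k (by omega), zero_mul]

theorem Wr_exp {M : ℕ} (y : Fin M → EN) :
    ∃ u : EN, (∀ z, u.1 z ≠ 0) ∧ Wr (fun j => expE (y j)) = u * expE (Wr y) := by
  refine ⟨∏ i : Fin M, WExp_E ^ (i : ℕ), fun z hz => ?_, ?_⟩
  · have h1 : (∏ i : Fin M, WExp_E ^ (i : ℕ)) * (∏ i : Fin M, WExp_E' ^ (i : ℕ)) = 1 := by
      rw [← Finset.prod_mul_distrib]
      refine Finset.prod_eq_one fun i _ => ?_
      rw [← mul_pow, WExp_inv, one_pow]
    have h2 := congrArg (fun f : EN => f.1 z) h1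
    have h3 : (∏ i : Fin M, WExp_E ^ (i : ℕ)).1 z * (∏ i : Fin M, WExp_E' ^ (i : ℕ)).1 z = 1 := h2
    rw [hz, zero_mul] at h3
    exact zero_ne_one h3
  · have h1 : (Matrix.of fun i j : Fin M => dE^[i] (expE (y j))) =
        (Matrix.of fun i k : Fin M => WExp_c i k) *
          (Matrix.of fun k j : Fin M => expE (dE^[k] (y j))) := by
      ext1 i j
      rw [Matrix.mul_apply, Matrix.of_apply]
      exact WExp_fin (y j) i
    have h2 : (Matrix.of fun k j : Fin M => expE (dE^[k] (y j))).det = expE (Wr y) :=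
      (RingHom.map_det WExp_h (Matrix.of fun i j : Fin M => dE^[i] (y j))).symm
    have h3 : (Matrix.of fun i k : Fin M => WExp_c i k).det = ∏ i : Fin M, WExp_E ^ (i : ℕ) := by
      rw [Matrix.det_of_isLowerTriangular]
      · exact Finset.prod_congr rfl fun i _ => WExp_c_diag i
      · intro i j hij
        exact WExp_c_zero i j hij
    show (Matrix.of fun i j : Fin M => dE^[i] (expE (y j))).det = _
    rw [h1, Matrix.det_mul, h2, h3]

private theorem WExp_ne {f : EN} (hf : f ≠ 0) : expE f ≠ 0 := by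
  intro h
  obtain ⟨w, h1, h2⟩ := ((EN.eventually_nhdsNE hf 0).and self_mem_nhdsWithin).exists
  apply h1
  have h3 := congrArg (fun f : EN => f.1 (Complex.log w)) h
  have h4 : f.1 (Complex.exp (Complex.log w)) = 0 := h3
  rwa [Complex.exp_log h2] at h4

theorem Wr_exp_ne {M : ℕ} (y : Fin M → EN) (hW : Wr y ≠ 0) : Wr (fun j => expE (y j)) ≠ 0 := by
  obtain ⟨u, hu, e⟩ := Wr_exp y
  rw [e]
  refine mul_ne_zero (fun h => hu 0 ?_) (WExp_ne hW)
  rw [h]
  rfl

theorem order_exp {M : ℕ} (y : Fin M → EN) (m : ℕ)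
    (hm : ∀ z, (Wr y).1 z = 0 → (m : ℕ∞) ≤ analyticOrderAt (Wr y).1 z) (z : ℂ)
    (hz : (Wr fun j => expE (y j)).1 z = 0) :
    (m : ℕ∞) ≤ analyticOrderAt (Wr fun j => expE (y j)).1 z := by
  obtain ⟨u, hu, e⟩ := Wr_exp y
  have h0 : (Wr y).1 (Complex.exp z) = 0 := by
    rw [e] at hz
    have h1 : u.1 z * (Wr y).1 (Complex.exp z) = 0 := hz
    exact (mul_eq_zero.1 h1).resolve_left (hu z)
  have h1 : (Wr fun j => expE (y j)).1 = u.1 * ((Wr y).1 ∘ Complex.exp) := by
    rw [e]
    rfl
  have h2 : AnalyticAt ℂ ((Wr y).1 ∘ Complex.exp) z :=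
    ((Wr y).2.comp Complex.differentiable_exp).analyticAt z
  rw [h1, analyticOrderAt_mul (u.2.analyticAt z) h2,
    (u.2.analyticAt z).analyticOrderAt_eq_zero.2 (hu z), zero_add,
    analyticOrderAt_comp_of_deriv_ne_zero (Complex.differentiable_exp.analyticAt z) (by
      rw [Complex.deriv_exp]; exact Complex.exp_ne_zero z)]
  exact hm _ h0

end Pool.Agent.H16.RM
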