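import Pool.Agent.H16.RM.BOne
import Pool.Agent.H16.RM.WExp
import Pool.Agent.H16.RM.WCnt
import Pool.Agent.H13.Nev.Orb

/-!
# Highly ramified curves: the growth after composition with the exponential function

PROOF. Let `C` be the constant of `smtB N d` and `m` a natural number with `m > 2 * C * N`, `m ≥ 1`.
Given the data put `Y j = expE (y j)`, `G i = expE (g i)`. `expE` is a ring homomorphism on `EN` fixing
constants, so `G i = ∑ Y j * algebraMap (v j i)`, `Y j = ∑ algebraMap (H j i) * G i`; `vec G z =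
vec g (exp z)`, so `G` has no zeros and `F(G) = 0`; `Wr Y ≠ 0` (`Wr_exp_ne`). `smtB` for `(Y, G)`:
`TC G ≤ C N₁ + K (1 + log r + log⁺ (TC G))`, `N₁ = logCounting (logDeriv (Wr Y).1) ⊤ r`.
Every zero of `Wr Y` has order `≥ m` (`order_exp`), so `trunc_le` (`H13/Nev/Orb.lean`):
`m N₁ ≤ logCounting (Wr Y).1 0 r`. `M ≥ 1` (otherwise `g = 0`), `M ≤ N` (`card_le`), write
`M = M' + 1`. With `S r = 1 + log r + log⁺ (TC Y r)`, `Gauge (fun r => max 0 (TC Y r)) S` is clear
(`posLog` of `max 0 t` is `≤ log⁺ t`), and `count_Wr`: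
`logCounting (Wr Y).1 0 r ≤ M max 0 (TC Y r) + C₁ S r`. `TC_comb` (some `Y j₀ ≠ 0`):
`TC Y ≤ TC G + cH`, `-L ≤ TC Y`, and `posLog_add_le_max` with `t = TC G`, `c = cH`:
`log⁺ (TC Y) ≤ log⁺ (max (TC G) 0 + cH) + log⁺ L ≤ log 2 + log⁺ t + log⁺ cH + log⁺ L` with
`t = max (TC G) 0` (`posLog_add`). So with `m > 2 C N`:
`C N₁ ≤ (C / m) (N (t + cH) + C₁ S) ≤ t / 2 + E₁ (1 + log r + log⁺ t)` and altogether
`t ≤ t / 2 + E (1 + log r + log⁺ t)` for a constant `E ≥ 0`. `mul_posLog_le (4 * E)`: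
`4 E log⁺ t ≤ t + C'`, so `t / 4 ≤ E (1 + log r) + |C'| / 4`, i.e. `t ≤ (4 E + |C'|) (1 + log r)`.
(The end of the proof of `orbifold` in `H13/Nev/Orb.lean` is the same computation.)
-/

namespace Pool.Agent.H16.RM

open Pool.Agent.H13.Kob Pool.Agent.H13.Nev Real Pool.Agent.H13.CEV Filter ValueDistribution

/-- composition with the exponential function as a ring homomorphism -/
private noncomputable def expH : EN →+* EN where
  toFun := expE
  map_one' := rfl
  map_mul' _ _ := rfl
  map_zero' := rfl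
  map_add' _ _ := rfl

private lemma expE_const (c : ℂ) : expE (algebraMap ℂ EN c) = algebraMap ℂ EN c := rfl

private lemma posLog_max (t : ℝ) : log⁺ (max 0 t) ≤ log⁺ t := by
  rcases le_total 0 t with h | h
  · rw [max_eq_right h]
  · rw [max_eq_left h, posLog_zero]
    exact posLog_nonneg

theorem growth_exp (N d : ℕ) : ∃ m : ℕ, ∀ (e : ℕ) (x : mons N d → ℂ), Good e x →
    (∀ k ≤ N, ∀ a : Fin k → ℕ, ∃ b : Fin k → ℕ, SameType d a b ∧ ∀ j, b j ≤ e) → N ≤ e →
    ∀ (M : ℕ) (y : Fin M → EN) (v H : Fin M → Fin N → ℂ) (g : Fin N → EN), Wr y ≠ 0 →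
    (∀ i, g i = ∑ j, y j * algebraMap ℂ EN (v j i)) →
    (∀ j, y j = ∑ i, algebraMap ℂ EN (H j i) * g i) → (∀ z, vec g z ≠ 0) →
    (∀ z, MvPolynomial.eval (vec g z) (Fm x) = 0) →
    (∀ z, (Wr y).1 z = 0 → (m : ℕ∞) ≤ analyticOrderAt (Wr y).1 z) →
    ∃ K : ℝ, 0 ≤ K ∧ ∀ᶠ r in ff, TC (fun i => expE (g i)) r ≤ K * (1 + log r) := by
  obtain ⟨C, hC, hsmt⟩ := smtB N d
  obtain ⟨m₀, hm₀⟩ := exists_nat_gt (2 * C * N)
  refine ⟨m₀ + 1, fun e x hx he hNe M y v H g hW hg hy hg0 hgF hm => ?_⟩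
  have hMN : M ≤ N := card_le y hW H g hy
  rcases M with _ | M
  · exfalso
    apply hg0 0
    funext i
    show (g i).1 0 = 0
    rw [hg i]
    simp
  set Y : Fin (M + 1) → EN := fun j => expE (y j) with hY
  set G : Fin N → EN := fun i => expE (g i) with hGdef
  have hWY : Wr Y ≠ 0 := Wr_exp_ne y hW
  have hGY : ∀ i, G i = ∑ j, Y j * algebraMap ℂ EN (v j i) := by
    intro i
    have h1 : G i = expH (g i) := rfl
    rw [h1, hg i, map_sum]
    apply Finset.sum_congr rfl
    intro j _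
    rw [map_mul]
    rfl
  have hYG : ∀ j, Y j = ∑ i, algebraMap ℂ EN (H j i) * G i := by
    intro j
    have h1 : Y j = expH (y j) := rfl
    rw [h1, hy j, map_sum]
    apply Finset.sum_congr rfl
    intro i _
    rw [map_mul]
    rfl
  obtain ⟨K, hK, hmain⟩ := hsmt e x hx he hNe (M + 1) Y v H G hWY hGY hYG
    (fun z => hg0 (Complex.exp z)) (fun z => hgF (Complex.exp z))
  -- a coordinate which does not vanish
  obtain ⟨j₀, hj₀⟩ : ∃ j, Y j ≠ 0 := by
    by_contra hcon
    push Not at hcon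
    apply hg0 (Complex.exp 0)
    funext i
    have h1 : vec g (Complex.exp 0) i = (G i).1 0 := rfl
    show vec g (Complex.exp 0) i = 0
    rw [h1, hGY i]
    simp only [hcon, zero_mul, Finset.sum_const_zero]
    rfl
  obtain ⟨⟨cH, hcH, hTY⟩, L, hL0, hlow⟩ := TC_comb Y H G hYG (fun z => hg0 _) j₀ hj₀
  -- the error term of the count
  set S : ℝ → ℝ := fun r => 1 + log r + log⁺ (TC Y r) with hS
  have hG : Gauge (fun r => max 0 (TC Y r)) S := by
    constructor
    · exact Eventually.of_forall fun r => le_max_left _ _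
    · filter_upwards [eventually_one_le_ff] with r hr
      have h1 := Real.log_nonneg hr
      have h2 : 0 ≤ log⁺ (TC Y r) := posLog_nonneg
      simp only [hS]
      linarith
    · filter_upwards [eventually_one_le_ff] with r hr
      have h2 : 0 ≤ log⁺ (TC Y r) := posLog_nonneg
      simp only [hS]
      linarith
    · filter_upwards [eventually_one_le_ff] with r hr
      have h1 := Real.log_nonneg hr
      have h2 := posLog_max (TC Y r)
      simp only [hS]
      linarith
  obtain ⟨C₁, hC₁, hcount⟩ := count_Wr Y hWY hG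
  have hord := order_exp y (m₀ + 1) hm
  have hm1 : (0 : ℝ) < m₀ + 1 := by positivity
  -- constants
  have hLp : 0 ≤ log⁺ L := posLog_nonneg
  have hLp' : 0 ≤ log⁺ (L + cH) := posLog_nonneg
  have hcHp : 0 ≤ log⁺ cH := posLog_nonneg
  have hl2 : 0 ≤ log 2 := Real.log_nonneg (by norm_num)
  have hN0 : (0 : ℝ) ≤ N := Nat.cast_nonneg N
  set D : ℝ := log 2 + log⁺ cH + log⁺ L with hD
  have hD0 : 0 ≤ D := by linarith
  set E : ℝ := C * (N * cH + C₁ * (1 + D)) + K * (1 + log⁺ (L + cH)) with hE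
  have hE0 : 0 ≤ E := by positivity
  obtain ⟨C', hC'⟩ := mul_posLog_le (4 * E) (by linarith)
  refine ⟨4 * E + |C'|, by positivity, ?_⟩
  filter_upwards [hmain, hcount, eventually_one_le_ff] with r h1 h2 hr
  have hlogr : 0 ≤ log r := Real.log_nonneg hr
  set t := max (TC G r) 0 with ht
  have ht0 : 0 ≤ t := le_max_right _ _
  have hlt : 0 ≤ log⁺ t := posLog_nonneg
  have hTG : TC G r ≤ t := le_max_left _ _
  set u := 1 + log r + log⁺ t with hu
  have hu1 : 1 ≤ u := by linarith
  -- the count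
  have h3 := trunc_le (Wr Y) hWY (m₀ + 1) hord hr
  push_cast at h3
  set n₁ := logCounting (logDeriv (Wr Y).1) ⊤ r with hn₁
  have h4 : max 0 (TC Y r) ≤ t + cH := by
    apply max_le (by linarith)
    have := hTY r hr
    linarith
  have h5 : log⁺ (TC Y r) ≤ log⁺ t + D := by
    have h6 := posLog_add_le_max (t := TC G r) (c := cH) (L := L) (s := TC Y r) (hTY r hr)
      (hlow r hr)
    have h7 := posLog_add (x := t) (y := cH)
    rw [hD]
    linarith
  have h6 : log⁺ (TC G r) ≤ log⁺ t + log⁺ (L + cH) := by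
    have h7 := posLog_add_le_max (t := TC G r) (c := 0) (L := L + cH) (s := TC G r)
      (by linarith) (by
        have := hTY r hr
        have := hlow r hr
        linarith)
    rwa [add_zero] at h7
  have hS1 : S r ≤ (1 + D) * u := by
    have h18 : D ≤ D * u := le_mul_of_one_le_right hD0 hu1
    have h19 : (1 + D) * u = u + D * u := by ring
    simp only [hS]
    linarith
  have hMN' : ((M : ℝ) + 1) ≤ N := by exact_mod_cast hMN
  have h8 : (m₀ + 1 : ℝ) * n₁ ≤ N * (t + cH) + C₁ * ((1 + D) * u) := by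
    have h9 : ((M : ℝ) + 1) * max 0 (TC Y r) ≤ N * (t + cH) := by
      apply mul_le_mul hMN' h4 (le_max_left _ _) hN0
    have h10 := mul_le_mul_of_nonneg_left hS1 hC₁
    linarith
  have h9 : C * n₁ ≤ t / 2 + C * (N * cH + C₁ * (1 + D)) * u := by
    have h10 : n₁ ≤ (N * (t + cH) + C₁ * ((1 + D) * u)) / (m₀ + 1) := by
      rw [le_div_iff₀ hm1]; linarith
    have h11 := mul_le_mul_of_nonneg_left h10 hC
    have h12 : C * ((N * (t + cH) + C₁ * ((1 + D) * u)) / (m₀ + 1))
        = (C * N) * t / (m₀ + 1) + C * (N * cH + C₁ * ((1 + D) * u)) / (m₀ + 1) := by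
      field_simp
      ring
    have h13 : (C * N) * t / (m₀ + 1) ≤ t / 2 := by
      rw [div_le_iff₀ hm1]
      have h18 : (C * N) * t ≤ ((m₀ + 1) / 2) * t :=
        mul_le_mul_of_nonneg_right (by linarith) ht0
      linarith
    have h14 : C * (N * cH + C₁ * ((1 + D) * u)) / (m₀ + 1)
        ≤ C * (N * cH + C₁ * ((1 + D) * u)) := by
      apply div_le_self (by positivity)
      have : (0 : ℝ) ≤ m₀ := by positivity
      linarith
    have h15 : C * (N * cH + C₁ * ((1 + D) * u)) ≤ C * (N * cH + C₁ * (1 + D)) * u := by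
      have h16 : N * cH ≤ N * cH * u := le_mul_of_one_le_right (mul_nonneg hN0 hcH) hu1
      have h17 : N * cH + C₁ * ((1 + D) * u) ≤ (N * cH + C₁ * (1 + D)) * u := by
        have h18 : (N * cH + C₁ * (1 + D)) * u = N * cH * u + C₁ * ((1 + D) * u) := by ring
        linarith
      calc C * (N * cH + C₁ * ((1 + D) * u)) ≤ C * ((N * cH + C₁ * (1 + D)) * u) :=
            mul_le_mul_of_nonneg_left h17 hC
        _ = C * (N * cH + C₁ * (1 + D)) * u := by ring
    linarith
  have h10 : K * (1 + log r + log⁺ (TC G r)) ≤ K * (1 + log⁺ (L + cH)) * u := by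
    rw [mul_assoc]
    apply mul_le_mul_of_nonneg_left _ hK
    have h18 : log⁺ (L + cH) ≤ log⁺ (L + cH) * u := le_mul_of_one_le_right hLp' hu1
    have h19 : (1 + log⁺ (L + cH)) * u = u + log⁺ (L + cH) * u := by ring
    linarith
  have h11 : TC G r ≤ t / 2 + E * u := by
    have : E * u = C * (N * cH + C₁ * (1 + D)) * u + K * (1 + log⁺ (L + cH)) * u := by
      rw [hE]; ring
    linarith
  have h12 : t ≤ t / 2 + E * u := by
    rw [ht]
    apply max_le h11
    have : 0 ≤ E * u := mul_nonneg hE0 (by linarith)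
    linarith
  have h13 := hC' t ht0
  have h14 : E * u = E * (1 + log r) + E * log⁺ t := by rw [hu]; ring
  have h15 := le_abs_self C'
  have h16 := abs_nonneg C'
  have h17 : t ≤ 4 * E * (1 + log r) + |C'| := by linarith
  calc TC G r ≤ t := hTG
    _ ≤ 4 * E * (1 + log r) + |C'| := h17
    _ ≤ (4 * E + |C'|) * (1 + log r) := by
        have h18 : (4 * E + |C'|) * (1 + log r) = 4 * E * (1 + log r) + |C'| + |C'| * log r := by
          ring
        have h19 := mul_nonneg h16 hlogr
        linarith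

end Pool.Agent.H16.RM
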