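import Pool.Agent.H16.RM.Defs

/-!
# Basic lemmas on the universal polynomials and on the form
-/

namespace Pool.Agent.H16.RM

open Pool.Agent.H13.Kob Pool.Agent.H13.Nev Pool.Agent.H13.CEV

variable {N M d : ℕ} {R : Type*} [CommRing R]

section

variable [Algebra ℤ R] (x : mons N d → R) (lam : Fin N → Fin M → R) (y : Fin M → R) (B : Fin M → Fin M → R)

lemma aeval_vc (α : mons N d) : MvPolynomial.aeval (pt x lam y B) (vc α : UU N M d) = x α := by
  rw [vc, MvPolynomial.aeval_X]; rfl

lemma aeval_vl (i : Fin N) (j : Fin M) :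
    MvPolynomial.aeval (pt x lam y B) (vl i j : UU N M d) = lam i j := by
  rw [vl, MvPolynomial.aeval_X]; rfl

lemma aeval_vy (j : Fin M) : MvPolynomial.aeval (pt x lam y B) (vy j : UU N M d) = y j := by
  rw [vy, MvPolynomial.aeval_X]; rfl

lemma aeval_vB (l j : Fin M) :
    MvPolynomial.aeval (pt x lam y B) (vB l j : UU N M d) = B l j := by
  rw [vB, MvPolynomial.aeval_X]; rfl

lemma aeval_gp (i : Fin N) : MvPolynomial.aeval (pt x lam y B) (gp i : UU N M d)
    = ∑ j, lam i j * y j := by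
  rw [gp, map_sum]
  simp only [map_mul, aeval_vl, aeval_vy]

lemma aeval_hp (i : Fin N) : MvPolynomial.aeval (pt x lam y B) (hp i : UU N M d)
    = ∑ j, lam i j * ∑ l, y l * B l j := by
  rw [hp, map_sum]
  simp only [map_mul, map_sum, aeval_vl, aeval_vy, aeval_vB]

lemma aeval_GG : MvPolynomial.aeval (pt x lam y B) (GG : UU N M d)
    = form x fun i => ∑ j, lam i j * y j := by
  rw [GG, form, map_sum]
  simp only [map_mul, map_prod, map_pow, aeval_vc, aeval_gp]

lemma aeval_minor (i i' : Fin N) : MvPolynomial.aeval (pt x lam y B) (minor i i' : UU N M d)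
    = (∑ j, lam i j * y j) * (∑ j, lam i' j * ∑ l, y l * B l j)
      - (∑ j, lam i' j * y j) * (∑ j, lam i j * ∑ l, y l * B l j) := by
  rw [minor, map_sub, map_mul, map_mul, aeval_gp, aeval_gp, aeval_hp, aeval_hp]

end

lemma XB_vc (α : mons N d) : XB (vc α : UU N M d) = 0 := by
  rw [XB, vc, MvPolynomial.mkDerivation_X]
lemma XB_vl (i : Fin N) (j : Fin M) : XB (vl i j : UU N M d) = 0 := by
  rw [XB, vl, MvPolynomial.mkDerivation_X]
lemma XB_vy (j : Fin M) : XB (vy j : UU N M d) = ∑ l, vy l * vB l j := by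
  conv_lhs => rw [XB, vy, MvPolynomial.mkDerivation_X]
lemma XB_vB (l j : Fin M) : XB (vB l j : UU N M d) = 0 := by
  rw [XB, vB, MvPolynomial.mkDerivation_X]
lemma EE_vc (α : mons N d) : EE (vc α : UU N M d) = 0 := by
  rw [EE, vc, MvPolynomial.mkDerivation_X]
lemma EE_vl (i : Fin N) (j : Fin M) : EE (vl i j : UU N M d) = 0 := by
  rw [EE, vl, MvPolynomial.mkDerivation_X]
lemma EE_vy (j : Fin M) : EE (vy j : UU N M d) = vy j := by
  conv_lhs => rw [EE, vy, MvPolynomial.mkDerivation_X]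
lemma EE_vB (l j : Fin M) : EE (vB l j : UU N M d) = 0 := by
  rw [EE, vB, MvPolynomial.mkDerivation_X]

/-- every variable is one of the four kinds -/
lemma var_cases (s : Var N M d) : (∃ α, (MvPolynomial.X s : UU N M d) = vc α) ∨
    (∃ i j, (MvPolynomial.X s : UU N M d) = vl i j) ∨ (∃ j, (MvPolynomial.X s : UU N M d) = vy j) ∨
    ∃ l j, (MvPolynomial.X s : UU N M d) = vB l j := by
  rcases s with α | ⟨i, j⟩ | j | ⟨l, j⟩
  · exact Or.inl ⟨α, rfl⟩
  · exact Or.inr (Or.inl ⟨i, j, rfl⟩)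
  · exact Or.inr (Or.inr (Or.inl ⟨j, rfl⟩))
  · exact Or.inr (Or.inr (Or.inr ⟨l, j, rfl⟩))

lemma FF_zero : (FF 0 : UU N M d) = GG := rfl
lemma FF_succ (k : ℕ) : (FF (k + 1) : UU N M d) = XB (FF k) := by
  rw [FF, Function.iterate_succ_apply']; rfl

/-- naturality of evaluation -/
lemma map_aeval_int [Algebra ℤ R] {S : Type*} [CommRing S] [Algebra ℤ S] (φ : R →+* S) {τ : Type*} (p : τ → R)
    (P : MvPolynomial τ ℤ) : φ (MvPolynomial.aeval p P) = MvPolynomial.aeval (fun s => φ (p s)) P := by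
  induction P using MvPolynomial.induction_on with
  | C a =>
    rw [MvPolynomial.aeval_C, MvPolynomial.aeval_C, eq_intCast, eq_intCast, map_intCast]
  | add P Q hP hQ => rw [map_add, map_add, map_add, hP, hQ]
  | mul_X P i hP => rw [map_mul, map_mul, map_mul, hP, MvPolynomial.aeval_X, MvPolynomial.aeval_X]

omit [CommRing R] in
lemma map_pt {S : Type*} (φ : R → S) (x : mons N d → R) (lam : Fin N → Fin M → R) (y : Fin M → R)
    (B : Fin M → Fin M → R) : (fun s => φ (pt x lam y B s))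
      = pt (fun α => φ (x α)) (fun i j => φ (lam i j)) (fun j => φ (y j)) fun l j => φ (B l j) := by
  funext s
  rcases s with α | ⟨i, j⟩ | j | ⟨l, j⟩ <;> rfl

lemma map_form {S : Type*} [CommRing S] (φ : R →+* S) (x : mons N d → R) (g : Fin N → R) :
    φ (form x g) = form (fun α => φ (x α)) fun i => φ (g i) := by
  rw [form, form, map_sum]
  simp only [map_mul, map_prod, map_pow]

lemma form_eval (x : mons N d → ℂ) (g : Fin N → ℂ) : MvPolynomial.eval g (Fm x) = form x g :=
  eval_Fm x g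

lemma nab_zero {K : Type*} [Field K] (D : K → K) : nab D 0 = D := by
  funext x
  rw [nab, zero_mul, add_zero]

end Pool.Agent.H16.RM
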