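import Pool.Agent.H16.RM.Defs

/-!
# Proximity functions which are error terms

PROOFS. `ld_Lam`: let `x ∈ BB M S m`, `x ≠ 0`. `DK x / x ∈ BB M S (3 * m + m)` (`Filt.der`,
`Filt.div` of `filt hG`). `rep (DK x / x) = logDeriv (rep x)` almost everywhere (`rep_logDeriv`), so the
proximity functions agree (`proximity_congr_codiscrete`), and by `lld (rep_mer x) (rep_ord hx)`
it is `≤ K (1 + log⁺ (T x r) + log r)` eventually in `ff` (`T x = characteristic (rep x) ⊤` by
definition); `posLog_T_le hG` gives `log⁺ (T x r) ≤ C S`, `hG.hlog`: `log r ≤ S`, `hG.hS`: `1 ≤ S`, so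
it is `≤ K (2 + C) S`.

`wt_Lam`: `dadd`, `dmul`: `DK_add`, `DK_mul`. Constants `cK t` (`zero`, `one`, `ninv`: `0`, `1` and
`(n : KN)⁻¹` are of the form `cK t`): in `BB M S 0` by `Filt.const` (`DK (cK t) = 0`), and the
proximity function of a function which is almost everywhere constant is `log⁺ ‖t‖` (`rep_const`,
`proximity_congr_codiscrete`, `proximity_const`). `neg`: `-x = cK (-1) * x`. `add`:
`proximity_add_top_le` (with `rep_add`, `rep_mer`), `log 2 ≤ S log 2`. `mul`: `proximity_mul_top_le`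
(`rep_mul`). Levels in `BB`: `Filt.add`, `Filt.mul`. `der`: `DK 0 = 0`; for `x ≠ 0`,
`DK x = x * (DK x / x)`, `ld_Lam` and `mul`.
-/

namespace Pool.Agent.H16.RM

open Pool.Agent.H13.Nev

private theorem Lam_const {M S : ℝ → ℝ} (hG : Gauge M S) (c : ℂ) : cK c ∈ Lam M S := by
  refine ⟨⟨0, (filt hG).const ?_⟩, Real.posLog ‖c‖, Real.posLog_nonneg, ?_⟩
  · have h : cK c = io (algebraMap ℂ EN c) := rfl
    rw [h, DK_io]
    have h2 : dE (algebraMap ℂ EN c) = 0 := by
      refine EN.ext' fun z => ?_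
      rw [EN.zero_apply]
      change deriv (algebraMap ℂ EN c).1 z = 0
      have h3 : (algebraMap ℂ EN c).1 = fun _ => c := rfl
      rw [h3, deriv_const]
    rw [h2, map_zero]
  · filter_upwards [hG.hS, eventually_one_le_ff] with r h1 hr
    have e : ValueDistribution.proximity (rep (cK c)) ⊤ r =
        ValueDistribution.proximity (fun _ => c) ⊤ r :=
      ValueDistribution.proximity_congr_codiscrete (rep_const c) (by linarith)
    rw [e, ValueDistribution.proximity_const]
    have : 0 ≤ Real.posLog ‖c‖ := Real.posLog_nonneg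
    nlinarith

private theorem Lam_add {M S : ℝ → ℝ} (hG : Gauge M S) {x y : KN} (hx : x ∈ Lam M S)
    (hy : y ∈ Lam M S) : x + y ∈ Lam M S := by
  obtain ⟨⟨m, hm⟩, C, hC, h⟩ := hx
  obtain ⟨⟨n, hn⟩, C', hC', h'⟩ := hy
  have h0 : 0 ≤ Real.log 2 := Real.log_nonneg (by norm_num)
  refine ⟨⟨_, (filt hG).add hm hn⟩, C + C' + Real.log 2, by positivity, ?_⟩
  filter_upwards [h, h', hG.hS, eventually_one_le_ff] with r h1 h2 h3 hr
  have e : ValueDistribution.proximity (rep (x + y)) ⊤ r =
      ValueDistribution.proximity (rep x + rep y) ⊤ r :=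
    ValueDistribution.proximity_congr_codiscrete (rep_add x y) (by linarith)
  rw [e]
  have h4 := ValueDistribution.proximity_add_top_le (rep_mer x) (rep_mer y) r
  simp only [Pi.add_apply] at h4
  nlinarith

private theorem Lam_mul {M S : ℝ → ℝ} (hG : Gauge M S) {x y : KN} (hx : x ∈ Lam M S)
    (hy : y ∈ Lam M S) : x * y ∈ Lam M S := by
  obtain ⟨⟨m, hm⟩, C, hC, h⟩ := hx
  obtain ⟨⟨n, hn⟩, C', hC', h'⟩ := hy
  refine ⟨⟨_, (filt hG).mul hm hn⟩, C + C', by positivity, ?_⟩
  filter_upwards [h, h', eventually_one_le_ff] with r h1 h2 hr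
  have e : ValueDistribution.proximity (rep (x * y)) ⊤ r =
      ValueDistribution.proximity (rep x * rep y) ⊤ r :=
    ValueDistribution.proximity_congr_codiscrete (rep_mul x y) (by linarith)
  rw [e]
  have h4 := ValueDistribution.proximity_mul_top_le (rep_mer x) (rep_mer y) r
  simp only [Pi.add_apply] at h4
  nlinarith

private theorem Lam_cK_zero : cK 0 = 0 := by
  simp [cK]

private theorem Lam_cK_one : cK 1 = 1 := by
  simp [cK]

private theorem Lam_cK_inv (n : ℕ) : cK ((n : ℂ)⁻¹) = ((n : KN))⁻¹ := by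
  have h : ∀ c : ℂ, cK c = (io.comp (algebraMap ℂ EN)) c := fun _ => rfl
  rw [h, map_inv₀, map_natCast]

theorem ld_Lam {M S : ℝ → ℝ} (hG : Gauge M S) {x : KN} {m : ℕ} (hx : x ∈ BB M S m)
    (hx0 : x ≠ 0) : DK x / x ∈ Lam M S := by
  obtain ⟨K, hK, h⟩ := lld (rep_mer x) (rep_ord hx0)
  obtain ⟨C, hC, h'⟩ := posLog_T_le hG hx
  refine ⟨⟨_, (filt hG).div ((filt hG).der hx) hx⟩, K * (2 + C), by positivity, ?_⟩
  filter_upwards [h, h', hG.hS, hG.hlog, eventually_one_le_ff] with r h1 h2 h3 h4 hr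
  have e : ValueDistribution.proximity (rep (DK x / x)) ⊤ r =
      ValueDistribution.proximity (logDeriv (rep x)) ⊤ r :=
    ValueDistribution.proximity_congr_codiscrete (rep_logDeriv x) (by linarith)
  rw [e]
  refine h1.trans ?_
  have h5 : Real.posLog (ValueDistribution.characteristic (rep x) ⊤ r) ≤ C * S r := h2
  calc K * (1 + Real.posLog (ValueDistribution.characteristic (rep x) ⊤ r) + Real.log r)
      ≤ K * (S r + C * S r + S r) := mul_le_mul_of_nonneg_left (by linarith) hK
    _ = K * (2 + C) * S r := by ring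

theorem wt_Lam {M S : ℝ → ℝ} (hG : Gauge M S) : Wt KN DK (fun _ => Lam M S) := by
  refine
    { dadd := DK_add
      dmul := DK_mul
      zero := fun _ => ?_
      one := ?_
      add := fun hx hy => Lam_add hG hx hy
      neg := ?_
      mul := fun hx hy => Lam_mul hG hx hy
      der := ?_
      ninv := fun n => ?_ }
  · have := Lam_const hG 0
    rwa [Lam_cK_zero] at this
  · have := Lam_const hG 1
    rwa [Lam_cK_one] at this
  · intro _ x hx
    have h := Lam_mul hG (Lam_const hG (-1)) hx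
    have h1 : cK (-1) * x = -x := by
      have : cK (-1) = -1 := by simp [cK]
      rw [this, neg_one_mul]
    rwa [h1] at h
  · intro _ x hx
    by_cases h0 : x = 0
    · rw [h0, (filt hG).dzero]
      have := Lam_const hG 0
      rwa [Lam_cK_zero] at this
    · have hx1 := hx
      obtain ⟨⟨m, hm⟩, _⟩ := hx1
      have h2 : DK x = x * (DK x / x) := by field_simp
      rw [h2]
      exact Lam_mul hG hx (ld_Lam hG hm h0)
  · have := Lam_const hG ((n : ℂ)⁻¹)
    rwa [Lam_cK_inv] at this

end Pool.Agent.H16.RM
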