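import Pool.Agent.H16.RM.Defs

/-!
# Poles at a point

`Loc z j`: the order of `rep x` at `z` is at least `-j`.

PROOFS. An equation between representatives which holds almost everywhere (`∀ᶠ in codiscrete ℂ`) holds
in a punctured neighbourhood of `z` (`eventually_codiscrete`), so orders agree
(`meromorphicOrderAt_congr`). `add`: `meromorphicOrderAt_add` (minimum) with `rep_add`; `mul`:
`meromorphicOrderAt_mul`, `rep_mul`, `add_le_add`; `neg`: `rep_neg`, `meromorphicOrderAt_neg` (or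
`cK (-1) * x`); constants `cK t` (`zero`, `one`, `ninv`): `rep_const`, the order of a constant function is
`0` or `⊤` (`meromorphicOrderAt_const`, or analytic functions have nonnegative order:
`AnalyticAt.meromorphicOrderAt_nonneg`). `ld_Loc`: `rep_logDeriv`; the order of
`logDeriv (rep x)` at `z` is `≥ 0` if the order of `rep x` is `0`
(`meromorphicOrderAt_logDeriv_nonneg`) and `-1` otherwise
(`meromorphicOrderAt_logDeriv_eq_neg_one`, `rep_ord`).
`der`: for `x = 0`, `DK 0 = 0`. For `x ≠ 0` use `DK x = x * (DK x / x)`. For `wt_Loc`: `ld_Loc` and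
`mul`. For `wt_Reg` (the constant weights `Loc z 0`): if the order of `rep x` is `0` the logarithmic
derivative has order `≥ 0`; if it is `≥ 1` then `1 + (-1) ≥ 0`.
`Loc_mono`: `-j' ≤ -j` for `j ≤ j'`. `frac_Loc`: `rep (io a / io b) = a / b` almost everywhere
(`rep_frac`), which is analytic at `z` when `b z ≠ 0`.

-/

namespace Pool.Agent.H16.RM

open Pool.Agent.H13.Nev ValueDistribution

private lemma Loc_ord {x : KN} {f : ℂ → ℂ} (h : ∀ᶠ w in Filter.codiscrete ℂ, rep x w = f w)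
    (z : ℂ) : meromorphicOrderAt (rep x) z = meromorphicOrderAt f z :=
  meromorphicOrderAt_congr (eventually_codiscrete.1 h z)

private lemma Loc_const (z c : ℂ) : (0 : WithTop ℤ) ≤ meromorphicOrderAt (rep (cK c)) z := by
  have h : meromorphicOrderAt (rep (cK c)) z = meromorphicOrderAt (fun _ => c) z :=
    Loc_ord (f := fun _ => c) (rep_const c) z
  rw [h]
  exact analyticAt_const.meromorphicOrderAt_nonneg

private lemma Loc_zero (z : ℂ) : meromorphicOrderAt (rep (0 : KN)) z = ⊤ := by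
  rw [Loc_ord (f := fun _ => 0) rep_zero z, meromorphicOrderAt_eq_top_iff]
  exact Filter.Eventually.of_forall fun _ => rfl

private lemma Loc_add (z : ℂ) (x y : KN) {a : WithTop ℤ} (hx : a ≤ meromorphicOrderAt (rep x) z)
    (hy : a ≤ meromorphicOrderAt (rep y) z) : a ≤ meromorphicOrderAt (rep (x + y)) z := by
  have h := Loc_ord (f := rep x + rep y) (rep_add x y) z
  rw [h]
  exact (le_min hx hy).trans (meromorphicOrderAt_add (rep_mer x z) (rep_mer y z))

private lemma Loc_mul (z : ℂ) (x y : KN) : meromorphicOrderAt (rep (x * y)) z =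
    meromorphicOrderAt (rep x) z + meromorphicOrderAt (rep y) z := by
  rw [Loc_ord (f := rep x * rep y) (rep_mul x y) z,
    meromorphicOrderAt_mul (rep_mer x z) (rep_mer y z)]

private lemma Loc_cK (c : ℂ) : (cK c) = (io.comp (algebraMap ℂ EN)) c := rfl

private lemma Loc_neg1 (x : KN) : -x = cK (-1) * x := by
  rw [Loc_cK, map_neg, map_one, neg_one_mul]

private lemma Loc_one' : (1 : KN) = cK 1 := by
  rw [Loc_cK, map_one]

private lemma Loc_ninv (n : ℕ) : ((n : KN))⁻¹ = cK ((n : ℂ)⁻¹) := by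
  rw [Loc_cK, map_inv₀, map_natCast]

private lemma Loc_D0 : DK (0 : KN) = 0 := by
  have h := DK_add (0 : KN) 0
  rw [add_zero] at h
  exact left_eq_add.1 h

private lemma Loc_ld (z : ℂ) {x : KN} (hx : x ≠ 0) :
    (meromorphicOrderAt (rep x) z = 0 ∧ 0 ≤ meromorphicOrderAt (rep (DK x / x)) z) ∨
    (meromorphicOrderAt (rep x) z ≠ 0 ∧ meromorphicOrderAt (rep (DK x / x)) z = -1) := by
  have h := Loc_ord (f := logDeriv (rep x)) (rep_logDeriv x) z
  by_cases h0 : meromorphicOrderAt (rep x) z = 0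
  · left
    refine ⟨h0, ?_⟩
    rw [h]
    exact meromorphicOrderAt_logDeriv_nonneg (rep_mer x z) h0
  · right
    refine ⟨h0, ?_⟩
    rw [h]
    exact meromorphicOrderAt_logDeriv_eq_neg_one (rep_mer x z) h0 (rep_ord hx z)

theorem ld_Loc (z : ℂ) {x : KN} (hx : x ≠ 0) : DK x / x ∈ Loc z 1 := by
  show ((-((1 : ℕ) : ℤ) : ℤ) : WithTop ℤ) ≤ meromorphicOrderAt (rep (DK x / x)) z
  have e : ((-((1 : ℕ) : ℤ) : ℤ) : WithTop ℤ) = -1 := rfl
  rw [e]
  rcases Loc_ld z hx with h | h
  · refine le_trans ?_ h.2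
    decide
  · exact h.2.ge

private lemma Loc_coe (i j : ℕ) : ((-((i + j : ℕ) : ℤ) : ℤ) : WithTop ℤ) =
    ((-(i : ℤ) : ℤ) : WithTop ℤ) + ((-(j : ℤ) : ℤ) : WithTop ℤ) := by
  rw [← WithTop.coe_add]
  congr 1
  push_cast
  ring

private lemma Loc_mem {z : ℂ} {j : ℕ} {x : KN} :
    x ∈ Loc z j ↔ ((-(j : ℤ) : ℤ) : WithTop ℤ) ≤ meromorphicOrderAt (rep x) z := Iff.rfl

private lemma Loc_z (j : ℕ) : ((-(j : ℤ) : ℤ) : WithTop ℤ) ≤ 0 := by
  have : (-(j : ℤ) : ℤ) ≤ 0 := by omega
  exact_mod_cast this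

private lemma Loc_z0 : ((-((0 : ℕ) : ℤ) : ℤ) : WithTop ℤ) = 0 := rfl

private lemma Loc_cmem (z c : ℂ) (j : ℕ) : cK c ∈ Loc z j :=
  (Loc_z j).trans (Loc_const z c)

private lemma Loc_mul' {z : ℂ} {i j : ℕ} {x y : KN} (hx : x ∈ Loc z i) (hy : y ∈ Loc z j) :
    x * y ∈ Loc z (i + j) := by
  rw [Loc_mem, Loc_mul, Loc_coe]
  exact add_le_add hx hy

private lemma Loc_neg' {z : ℂ} {j : ℕ} {x : KN} (hx : x ∈ Loc z j) : -x ∈ Loc z j := by
  rw [Loc_neg1]
  have h := Loc_mul' (Loc_cmem z (-1) 0) hx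
  rwa [zero_add] at h

private lemma Loc_zero' (z : ℂ) (j : ℕ) : (0 : KN) ∈ Loc z j := by
  rw [Loc_mem, Loc_zero]
  exact le_top

theorem wt_Loc (z : ℂ) : Wt KN DK (Loc z) where
  dadd := DK_add
  dmul := DK_mul
  zero := Loc_zero' z
  one := by
    rw [Loc_one']
    exact Loc_cmem z 1 0
  add {_ x y} hx hy := Loc_add z x y hx hy
  neg := Loc_neg'
  mul := Loc_mul'
  der {j x} hx := by
    rcases eq_or_ne x 0 with rfl | h
    · rw [Loc_D0]
      exact Loc_zero' z _
    · have e : DK x = x * (DK x / x) := by field_simp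
      rw [e]
      exact Loc_mul' hx (ld_Loc z h)
  ninv n := by
    rw [Loc_ninv]
    exact Loc_cmem z _ 0

theorem wt_Reg (z : ℂ) : Wt KN DK (fun _ => Loc z 0) where
  dadd := DK_add
  dmul := DK_mul
  zero _ := Loc_zero' z 0
  one := by
    rw [Loc_one']
    exact Loc_cmem z 1 0
  add {_ x y} hx hy := Loc_add z x y hx hy
  neg := Loc_neg'
  mul hx hy := Loc_mul' hx hy
  der {_ x} hx := by
    rcases eq_or_ne x 0 with rfl | h
    · rw [Loc_D0]
      exact Loc_zero' z _
    · have e : DK x = x * (DK x / x) := by field_simp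
      rw [e, Loc_mem, Loc_mul, Loc_z0]
      rw [Loc_mem, Loc_z0] at hx
      rcases Loc_ld z h with h1 | h1
      · exact add_nonneg hx h1.2
      · rw [h1.2]
        have h2 := h1.1
        lift meromorphicOrderAt (rep x) z to ℤ using rep_ord h z with n hn
        have h3 : (0 : ℤ) ≤ n := by exact_mod_cast hx
        have h4 : n ≠ 0 := by exact_mod_cast h2
        have h5 : (0 : ℤ) ≤ n + (-1) := by omega
        have h6 : ((n : ℤ) : WithTop ℤ) + (-1) = ((n + (-1) : ℤ) : WithTop ℤ) := rfl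
        rw [h6]
        exact WithTop.coe_le_coe.2 h5
  ninv n := by
    rw [Loc_ninv]
    exact Loc_cmem z _ 0

theorem Loc_mono (z : ℂ) {j j' : ℕ} (h : j ≤ j') : Loc z j ⊆ Loc z j' := by
  intro x hx
  rw [Loc_mem] at hx ⊢
  refine le_trans ?_ hx
  have : (-(j' : ℤ) : ℤ) ≤ -(j : ℤ) := by omega
  exact_mod_cast this

theorem frac_Loc (z : ℂ) (a b : EN) (hb : b.1 z ≠ 0) : io a / io b ∈ Loc z 0 := by
  have hb0 : b ≠ 0 := by
    rintro rfl
    exact hb rfl
  rw [Loc_mem, Loc_z0, Loc_ord (f := fun w => a.1 w / b.1 w) (rep_frac a b hb0) z]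
  exact ((a.2.analyticAt z).div (b.2.analyticAt z) hb).meromorphicOrderAt_nonneg

end Pool.Agent.H16.RM
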