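import Pool.Agent.H16.RM.Defs

/-!
# Poles and the counting function

PROOF. As `trunc_le` in `H13/Nev/Orb.lean` (the model): with `logCounting_top` for both
functions it is enough to show `(divisor (rep a) univ)⁻ ≤ m • (divisor (logDeriv f.1) univ)⁻`. At a
point `z` with `f z ≠ 0` the left side is `0` by `h2`. If `f z = 0` the order of `f` at `z` is not `0`
and not `⊤` (`EN.ord hf`), so the order of `logDeriv f` is `-1` and the right side is `m`; the left
side is at most `m` by `h1` (order `≥ -m`; if the order is `⊤` the divisor is `0`).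
-/

namespace Pool.Agent.H16.RM

open Pool.Agent.H13.Nev ValueDistribution

private lemma LocN_untop {o : WithTop ℤ} {j : ℕ} (h : ((-(j : ℤ) : ℤ) : WithTop ℤ) ≤ o) :
    -(j : ℤ) ≤ o.untop₀ := by
  rcases o with _ | n
  · show -(j : ℤ) ≤ 0
    omega
  · have h1 : -(j : ℤ) ≤ n := WithTop.coe_le_coe.1 h
    exact h1

theorem count_le_of_Loc (f : EN) (hf : f ≠ 0) (a : KN) (m : ℕ) (h1 : ∀ z, a ∈ Loc z m)
    (h2 : ∀ z, f.1 z ≠ 0 → a ∈ Loc z 0) {r : ℝ} (hr : 1 ≤ r) :
    logCounting (rep a) ⊤ r ≤ m * logCounting (logDeriv f.1) ⊤ r := by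
  rw [ValueDistribution.logCounting_top, ValueDistribution.logCounting_top]
  have h0 : (m : ℝ) * Function.locallyFinsuppWithin.logCounting
      (MeromorphicOn.divisor (logDeriv f.1) Set.univ)⁻ r
      = Function.locallyFinsuppWithin.logCounting
        (m • (MeromorphicOn.divisor (logDeriv f.1) Set.univ)⁻) r := by
    rw [map_nsmul, Pi.smul_apply, nsmul_eq_mul]
  rw [h0]
  apply Function.locallyFinsuppWithin.logCounting_le _ hr
  intro z
  have h3 : (m • (MeromorphicOn.divisor (logDeriv f.1) Set.univ)⁻) z =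
      m • ((MeromorphicOn.divisor (logDeriv f.1) Set.univ)⁻ z) := by
    rw [Function.locallyFinsuppWithin.coe_nsmul, Pi.smul_apply]
  rw [h3, Function.locallyFinsuppWithin.negPart_apply, Function.locallyFinsuppWithin.negPart_apply,
    MeromorphicOn.divisor_apply (rep_mer a).meromorphicOn (Set.mem_univ z),
    MeromorphicOn.divisor_apply (EN.mer f).logDeriv.meromorphicOn (Set.mem_univ z)]
  have hord := (f.2.analyticAt z).meromorphicOrderAt_eq
  by_cases hz : f.1 z = 0
  · have h4 : meromorphicOrderAt f.1 z ≠ 0 := by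
      rw [hord]
      have h5 : analyticOrderAt f.1 z ≠ 0 := (f.2.analyticAt z).analyticOrderAt_ne_zero.mpr hz
      intro h6
      apply h5
      rcases h7 : analyticOrderAt f.1 z with _ | n
      · rw [h7] at h6; exact absurd h6 (by exact WithTop.top_ne_zero)
      · rw [h7] at h6
        have : ((n : ℤ) : WithTop ℤ) = 0 := h6
        have h8 : (n : ℤ) = 0 := by exact_mod_cast this
        have h9 : n = 0 := by exact_mod_cast h8
        rw [h9]; rfl
    rw [meromorphicOrderAt_logDeriv_eq_neg_one (EN.mer f z) h4 (EN.ord hf z)]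
    have h8 : (-1 : WithTop ℤ).untop₀ = -1 := rfl
    rw [h8]
    have h9 : ((-1 : ℤ)⁻) = 1 := by decide
    rw [h9]
    have h10 := LocN_untop (h1 z)
    have h11 : ((meromorphicOrderAt (rep a) z).untop₀)⁻ ≤ (m : ℤ) := by
      rw [negPart_def]
      exact sup_le (by omega) (by positivity)
    simpa using h11
  · have h4 := LocN_untop (h2 z hz)
    have h5 : 0 ≤ (meromorphicOrderAt (rep a) z).untop₀ := by
      have : -((0 : ℕ) : ℤ) = 0 := by norm_num
      rw [this] at h4
      exact h4
    rw [negPart_eq_zero.mpr h5]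
    exact nsmul_nonneg (negPart_nonneg _) m

end Pool.Agent.H16.RM
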