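import Pool.Agent.H16.RM.IndD

/-!
# Wronskians of entire functions

PROOFS. `io_Wr`: `DK^[i] (io f) = io (dE^[i] f)` (`DK_io`), `RingHom.map_det`, `nab_zero`.
`Wr_fun`: the determinant at the point `z` (`ev z` is a ring homomorphism, `RingHom.map_det`), and
`(dE^[i] f).1 = iteratedDeriv i f.1` (induction, `iteratedDeriv_succ`, `dE`).
`Wr_ne`: by `io_Wr`, `det_of_ind` it suffices to prove `Ind DK (fun j => io (y j))`: if `DK (a j) = 0`
then `a j = io (algebraMap ℂ EN (t j))` by `DK_const`, and `∑ a_j io (y j) = 0` gives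
`∑ t_j • (y j).1 = 0` (`io_inj`), so `t = 0`.
`card_le`: if `Wr y ≠ 0` then the `y j` are linearly independent over `ℂ` (a relation
`∑ t_j • y_j = 0` gives `∑ io(t_j) io(y_j) = 0`, and `ind_of_det`, `io_Wr` give `t = 0`; `io_inj`, the
constants are embedded injectively); they lie in the span of `N` elements `g i` of `EN`, so `M ≤ N`
(`LinearIndependent.fintype_card_le_finrank` in the span of `Set.range g`, `finrank_range_le_card`).
-/

namespace Pool.Agent.H16.RM

open Pool.Agent.H13.Nev

private lemma WNe_iter (f : EN) (i : ℕ) : DK^[i] (io f) = io (dE^[i] f) := by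
  induction i with
  | zero => rfl
  | succ i ih => rw [Function.iterate_succ_apply', ih, DK_io, Function.iterate_succ_apply']

private lemma WNe_dE (f : EN) (i : ℕ) : (dE^[i] f).1 = iteratedDeriv i f.1 := by
  induction i with
  | zero =>
    rw [iteratedDeriv_zero]
    rfl
  | succ i ih =>
    rw [Function.iterate_succ_apply', iteratedDeriv_succ, ← ih]
    rfl

theorem io_Wr {M : ℕ} (y : Fin M → EN) : io (Wr y) = (Wm DK 0 fun j => io (y j)).det := by
  unfold Wr Wm
  rw [RingHom.map_det]
  congr 1
  ext i j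
  rw [RingHom.mapMatrix_apply, Matrix.map_apply, Matrix.of_apply, Matrix.of_apply, nab_zero, WNe_iter]

theorem Wr_fun {M : ℕ} (y : Fin M → EN) (z : ℂ) :
    (Wr y).1 z = (Matrix.of fun i j : Fin M => iteratedDeriv i (y j).1 z).det := by
  have h : (Wr y).1 z = ev z (Wr y) := rfl
  rw [h]
  unfold Wr
  rw [RingHom.map_det]
  congr 1
  ext i j
  rw [RingHom.mapMatrix_apply, Matrix.map_apply, Matrix.of_apply, Matrix.of_apply, ev_apply, WNe_dE]

private lemma WNe_sum {M : ℕ} (y : Fin M → EN) (t : Fin M → ℂ) :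
    (∑ j, algebraMap ℂ EN (t j) * y j).1 = ∑ j, t j • (y j).1 := by
  funext z
  have h : (∑ j, algebraMap ℂ EN (t j) * y j).1 z = ev z (∑ j, algebraMap ℂ EN (t j) * y j) := rfl
  rw [h, map_sum, Finset.sum_apply]
  rfl

private lemma WNe_dc (c : ℂ) : DK (io (algebraMap ℂ EN c)) = 0 := by
  rw [DK_io]
  have h : dE (algebraMap ℂ EN c) = 0 := by
    apply EN.ext'
    intro z
    exact deriv_const z c
  rw [h, map_zero]

theorem Wr_ne {M : ℕ} (y : Fin M → EN) (hy : LinearIndependent ℂ fun j => (y j).1) :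
    Wr y ≠ 0 := by
  intro h0
  have hind : Ind DK (fun j => io (y j)) := by
    intro a ha hsum
    choose t ht using fun j => DK_const (ha j)
    have h1 : io (∑ j, algebraMap ℂ EN (t j) * y j) = 0 := by
      rw [map_sum, ← hsum]
      refine Finset.sum_congr rfl fun j _ => ?_
      rw [map_mul, ← ht j]
    have h2 : ∑ j, algebraMap ℂ EN (t j) * y j = 0 := io_inj (h1.trans (map_zero _).symm)
    have h3 : ∑ j, t j • (y j).1 = 0 := by
      rw [← WNe_sum, h2]
      rfl
    intro j
    rw [ht j, Fintype.linearIndependent_iff.1 hy t h3 j, map_zero, map_zero]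
  have h := det_of_ind DK_add DK_mul hind
  rw [← io_Wr, h0, map_zero] at h
  exact h rfl

theorem card_le {M N : ℕ} (y : Fin M → EN) (hW : Wr y ≠ 0) (H : Fin M → Fin N → ℂ)
    (g : Fin N → EN) (hy : ∀ j, y j = ∑ i, algebraMap ℂ EN (H j i) * g i) : M ≤ N := by
  have hdet : (Wm DK 0 fun j => io (y j)).det ≠ 0 := by
    rw [← io_Wr]
    exact io_ne hW
  have hind := ind_of_det DK_add DK_mul hdet
  have hli : LinearIndependent ℂ y := by
    rw [Fintype.linearIndependent_iff]
    intro t ht j
    have h1 : ∑ j, io (algebraMap ℂ EN (t j)) * io (y j) = 0 := by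
      rw [← map_zero io, ← ht, map_sum]
      refine Finset.sum_congr rfl fun j _ => ?_
      rw [← map_mul, Algebra.smul_def]
    have h2 := hind (fun j => io (algebraMap ℂ EN (t j))) (fun j => WNe_dc (t j)) h1 j
    have h3 : algebraMap ℂ EN (t j) = 0 := io_inj (h2.trans (map_zero _).symm)
    have h4 := congrArg (fun f : EN => f.1 0) h3
    exact h4
  have hsub : Set.range y ≤ (Submodule.span ℂ (Set.range g) : Set EN) := by
    rintro _ ⟨j, rfl⟩
    rw [hy j]
    refine Submodule.sum_mem _ fun i _ => ?_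
    rw [← Algebra.smul_def]
    exact Submodule.smul_mem _ _ (Submodule.subset_span ⟨i, rfl⟩)
  classical
  have h5 := linearIndependent_le_span' y hli (Set.range g) hsub
  rw [Cardinal.mk_fin] at h5
  have h6 : M ≤ Fintype.card (Set.range g) := by exact_mod_cast h5
  exact h6.trans ((Fintype.card_range_le g).trans (Fintype.card_fin N).le)

end Pool.Agent.H16.RM
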