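import Pool.Agent.H16.RM.Nu
import Pool.Agent.H16.RM.WNe
import Pool.Agent.H16.RM.Lam
import Pool.Agent.H16.RM.Loc
import Pool.Agent.H16.RM.LocN

/-!
# The coefficients of the normal form of the equation of `y_0, …, y_M`

Notation: `Y j = io (y j)`, `w₀ = Wm DK 0 Y`, `det w₀ = io (Wr y) ≠ 0` (`io_Wr`, `io_ne`).

PROOF of `coef`. `ind_of_det` gives `Ind DK Y`. By `red` for `wt_univ` and `C = univ` there is `c` with
`IsA DK 0 Y c`, and by `nf` for `wt_univ` there is `a` with `IsA DK g Y a`, `a (last M) = 0`,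
`g = -(c (last M)) / (M + 1)`. By `det_Wm`, `det (Wm DK g Y) = det w₀ ≠ 0`, so `c` and `a` (for this
`g`) are unique (`unique_a`).

(1) Poles. Let `z : ℂ`. `red (wt_Loc z) univ` (`ld_Loc`) gives `c'` with `c' l ∈ Loc z (M + 1 - l)` and
`IsA DK 0 Y c'`, so `c' = c`; `nf (wt_Loc z)` gives `a'` with `a' l ∈ Loc z (M + 1 - l)`,
`IsA DK g Y a'`, so `a' = a`. Hence `a l ∈ Loc z (M + 1 - l) ⊆ Loc z (M + 1)` (`Loc_mono`).
If `(Wr y).1 z ≠ 0`, then `c l ∈ Loc z 0`: `IsA DK 0 Y c` says `c ᵥ* w₀ = v` with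
`v j = DK^[M+1] (Y j) = io (dE^[M+1] (y j))`, so `det w₀ • c = v ᵥ* adjugate w₀`
(`Matrix.mul_adjugate`), the entries of `adjugate w₀` are in the range of `io`
(`RingHom.map_adjugate`, `w₀ = (of (dE^[i] (y j))).map io`), so `c l = io n / io (Wr y)` for some
`n : EN`, and `frac_Loc` applies. Then `nf (wt_Reg z)` gives `a l ∈ Loc z 0` by uniqueness. So
`count_le_of_Loc (Wr y) hW (a l) (M + 1)` gives
`logCounting (rep (a l)) ⊤ r ≤ (M + 1) * logCounting (logDeriv (Wr y).1) ⊤ r` for `r ≥ 1`.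

(2) Proximity. `y 0 ≠ 0` (otherwise a column of `w₀` vanishes; or from `Ind`). Put
`s = (io (y 0))⁻¹`, `f j = s * Y j = io (y j) / io (y 0)`, `MT r = max 0 (TC y r)`. `f j ∈ BB MT S 1`
by `T_quot_le y j 0` (`T ≤ TC y r + C ≤ 1 * MT r + C * S r`, `hG.hS`). Let
`C = {x | ∃ m, x ∈ BB MT S m}`, closed under quotients and `DK` (`Filt.div`, `Filt.der` for `filt hG`),
`ld_Lam` gives `hld`. `Ind DK f`: `∑ a_j (s Y_j) = s ∑ a_j Y_j`. `red (wt_Lam hG) C` gives `c'` in
`Lam MT S` with `IsA DK 0 f c'`; `nf (wt_Lam hG)` gives `a'` in `Lam MT S` with `IsA DK g' f a'` and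
`a' (last M) = 0`. On the other hand `scale` gives `IsA DK (g - DK s / s) f a` with
`a (last M) = 0`. `det (Wm DK 0 f) = s^(M+1) det w₀ ≠ 0` (`det_scale`), so by `unique_nf` `a = a'` and
`a l ∈ Lam MT S`: `proximity (rep (a l)) ⊤ r ≤ C S r` eventually.

(3) `T (a l) r = characteristic (rep (a l)) ⊤ r = proximity + logCounting` (`characteristic`,
`Pi.add_apply`), add (1) and (2) (cast of `M + 1`).
-/

namespace Pool.Agent.H16.RM

open Pool.Agent.H13.Nev ValueDistribution

private lemma charZero_KN : CharZero KN :=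
  charZero_of_injective_algebraMap (R := ℂ) (algebraMap ℂ KN).injective

private lemma iter_io (f : EN) (k : ℕ) : DK^[k] (io f) = io (dE^[k] f) := by
  induction k with
  | zero => rfl
  | succ k ih => rw [Function.iterate_succ_apply', Function.iterate_succ_apply', ih, DK_io]

/-- the coefficients of the equation are quotients by the Wronskian -/
private lemma coeff_frac {M : ℕ} (y : Fin (M + 1) → EN) (hW : Wr y ≠ 0) (c : Fin (M + 1) → KN)
    (hc : IsA DK 0 (fun j => io (y j)) c) (l : Fin (M + 1)) :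
    ∃ n : EN, c l = io n / io (Wr y) := by
  classical
  let m : Matrix (Fin (M + 1)) (Fin (M + 1)) EN := Matrix.of fun i j => dE^[(i : ℕ)] (y j)
  have hm : m.det = Wr y := rfl
  let v : Fin (M + 1) → EN := fun j => dE^[M + 1] (y j)
  have hv : (fun j => io (v j)) = Matrix.vecMul c (m.map io) := by
    funext j
    have h1 := hc j
    rw [nab_zero, iter_io] at h1
    show io (dE^[M + 1] (y j)) = _
    rw [h1, Matrix.vecMul, dotProduct]
    apply Finset.sum_congr rfl
    intro i _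
    rw [iter_io]
    rfl
  have hadj : (m.map io).adjugate = m.adjugate.map io :=
    (RingHom.map_adjugate io m).symm
  have hdet : (m.map io).det = io (Wr y) := by
    rw [← hm]
    exact (RingHom.map_det io m).symm
  have h2 : Matrix.vecMul (fun j => io (v j)) (m.adjugate.map io) = io (Wr y) • c := by
    rw [hv, Matrix.vecMul_vecMul, ← hadj, Matrix.mul_adjugate, hdet, Matrix.vecMul_smul,
      Matrix.vecMul_one]
  refine ⟨∑ j, v j * m.adjugate j l, ?_⟩
  have h3 := congrFun h2 l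
  rw [Matrix.vecMul, dotProduct, Pi.smul_apply, smul_eq_mul] at h3
  rw [eq_div_iff (io_ne hW), mul_comm, ← h3, map_sum]
  apply Finset.sum_congr rfl
  intro j _
  rw [map_mul]
  rfl

theorem coef {M : ℕ} (y : Fin (M + 1) → EN) (hW : Wr y ≠ 0) {S : ℝ → ℝ}
    (hG : Gauge (fun r => max 0 (TC y r)) S) :
    ∃ (g : KN) (a : Fin (M + 1) → KN), IsA DK g (fun j => io (y j)) a ∧
      ∀ l, ∃ C : ℝ, 0 ≤ C ∧ ∀ᶠ r in ff,
        T (a l) r ≤ ((M : ℝ) + 1) * logCounting (logDeriv (Wr y).1) ⊤ r + C * S r := by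
  have := charZero_KN
  have hfilt := filt hG
  have hdet0 : (Wm DK 0 (fun j => io (y j))).det ≠ 0 := by
    rw [← io_Wr]
    exact io_ne hW
  have hind : Ind DK (fun j => io (y j)) := ind_of_det DK_add DK_mul hdet0
  obtain ⟨c, -, hc⟩ := red (wt_univ DK_add DK_mul) Set.univ (fun _ _ _ => trivial)
    (fun _ _ _ _ => trivial) (fun _ _ => trivial) (M + 1) (fun j => io (y j))
    (fun _ => trivial) hind
  obtain ⟨a, -, hA, hl⟩ := nf (wt_univ DK_add DK_mul) (fun j => io (y j)) c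
    (fun _ => trivial) hc
  have hdetg : (Wm DK (-(c (Fin.last M)) / ((M : KN) + 1)) (fun j => io (y j))).det ≠ 0 := by
    rw [det_Wm DK_add DK_mul]
    exact hdet0
  refine ⟨-(c (Fin.last M)) / ((M : KN) + 1), a, hA, ?_⟩
  -- the poles
  have hpole : ∀ (z : ℂ) (l : Fin (M + 1)), a l ∈ Loc z (M + 1 - l) := by
    intro z l
    obtain ⟨c', hc'1, hc'2⟩ := red (wt_Loc z) Set.univ (fun x _ hx => ld_Loc z hx)
      (fun _ _ _ _ => trivial) (fun _ _ => trivial) (M + 1) (fun j => io (y j))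
      (fun _ => trivial) hind
    have e1 : c' = c := unique_a hdet0 hc'2 hc
    subst e1
    obtain ⟨a', ha'1, ha'2, -⟩ := nf (wt_Loc z) (fun j => io (y j)) c' hc'1 hc'2
    have e2 : a' = a := unique_a hdetg ha'2 hA
    rw [← e2]
    exact ha'1 l
  have hreg : ∀ (z : ℂ), (Wr y).1 z ≠ 0 → ∀ l : Fin (M + 1), a l ∈ Loc z 0 := by
    intro z hz l
    have hc0 : ∀ l : Fin (M + 1), c l ∈ Loc z 0 := by
      intro l
      obtain ⟨n, hn⟩ := coeff_frac y hW c hc l
      rw [hn]
      exact frac_Loc z n (Wr y) hz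
    obtain ⟨a', ha'1, ha'2, -⟩ := nf (wt_Reg z) (fun j => io (y j)) c hc0 hc
    have e2 : a' = a := unique_a hdetg ha'2 hA
    rw [← e2]
    exact ha'1 l
  -- the proximity functions
  have hy0 : y 0 ≠ 0 := by
    intro h0
    have h1 := hind (Pi.single 0 1) (by
      intro j
      by_cases hj : j = 0
      · subst hj
        rw [Pi.single_eq_same]
        exact hfilt.done
      · rw [Pi.single_eq_of_ne hj]
        exact hfilt.dzero) (by
      rw [Finset.sum_eq_single (0 : Fin (M + 1))]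
      · show Pi.single (M := fun _ => KN) (0 : Fin (M + 1)) (1 : KN) 0 * io (y 0) = 0
        rw [h0, map_zero, mul_zero]
      · intro j _ hj
        rw [Pi.single_eq_of_ne hj, zero_mul]
      · intro hh
        exact absurd (Finset.mem_univ _) hh) 0
    rw [Pi.single_eq_same] at h1
    exact one_ne_zero h1
  have hs : (io (y 0))⁻¹ ≠ 0 := inv_ne_zero (io_ne hy0)
  have hf : ∀ j, (io (y 0))⁻¹ * io (y j) ∈ BB (fun r => max 0 (TC y r)) S 1 := by
    intro j
    obtain ⟨C, hC, hT⟩ := T_quot_le y j 0 hy0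
    refine ⟨C, hC, ?_⟩
    filter_upwards [hG.hS, eventually_one_le_ff] with r h1 hr
    have h2 := hT r hr
    rw [div_eq_inv_mul] at h2
    have h3 : TC y r ≤ max 0 (TC y r) := le_max_right _ _
    have h4 : C * 1 ≤ C * S r := mul_le_mul_of_nonneg_left h1 hC
    rw [Nat.cast_one, one_mul]
    linarith
  have hindf : Ind DK (fun j => (io (y 0))⁻¹ * io (y j)) := by
    intro b hb hsum
    apply hind b hb
    have h1 : ∑ j, b j * ((io (y 0))⁻¹ * io (y j)) = (io (y 0))⁻¹ * ∑ j, b j * io (y j) := by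
      rw [Finset.mul_sum]
      exact Finset.sum_congr rfl fun j _ => by ring
    rw [h1] at hsum
    exact (mul_eq_zero.mp hsum).resolve_left hs
  obtain ⟨c', hc'1, hc'2⟩ := red (wt_Lam hG) {x | ∃ m, x ∈ BB (fun r => max 0 (TC y r)) S m}
    (fun x hx hx0 => by
      obtain ⟨m, hm⟩ := hx
      exact ld_Lam hG hm hx0)
    (fun x hx x' hx' => by
      obtain ⟨m, hm⟩ := hx
      obtain ⟨m', hm'⟩ := hx'
      exact ⟨m + m', hfilt.div hm hm'⟩)
    (fun x hx => by
      obtain ⟨m, hm⟩ := hx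
      exact ⟨3 * m, hfilt.der hm⟩)
    (M + 1) (fun j => (io (y 0))⁻¹ * io (y j)) (fun j => ⟨1, hf j⟩) hindf
  obtain ⟨a', ha'1, ha'2, ha'3⟩ := nf (wt_Lam hG) (fun j => (io (y 0))⁻¹ * io (y j)) c' hc'1 hc'2
  have hdetf : (Wm DK 0 fun j => (io (y 0))⁻¹ * io (y j)).det ≠ 0 := by
    rw [det_scale DK_add DK_mul hs]
    exact mul_ne_zero (pow_ne_zero _ hs) hdet0
  have hsc := scale DK_mul hs hA
  obtain ⟨-, haa⟩ := unique_nf DK_add DK_mul hdetf hsc ha'2 hl ha'3
  intro l
  have hLam : a l ∈ Lam (fun r => max 0 (TC y r)) S := by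
    rw [haa]
    exact ha'1 l
  obtain ⟨C, hC, hprox⟩ := hLam.2
  refine ⟨C, hC, ?_⟩
  filter_upwards [hprox, eventually_one_le_ff] with r h1 hr
  have h2 := count_le_of_Loc (Wr y) hW (a l) (M + 1)
    (fun z => Loc_mono z (Nat.sub_le _ _) (hpole z l)) (fun z hz => hreg z hz l) hr
  have h3 : T (a l) r = proximity (rep (a l)) ⊤ r + logCounting (rep (a l)) ⊤ r := rfl
  rw [h3]
  push_cast at h2
  linarith

end Pool.Agent.H16.RM
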