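import Pool.Agent.H16.RM.Defs

/-!
# Changing the connection

PROOF. Define `E` by recursion: `E 0 i = if i = 0 then 1 else 0` and
`E (k + 1) i = D (E k i) + g * E k i + (if i = 0 then 0 else E k (i - 1))` (split `i = 0` / `i + 1`).
* `E k i = 0` for `k < i`: induction (`D 0 = 0`).
* `E k k = 1`: `E (k+1) (k+1) = D (E k (k+1)) + g * E k (k+1) + E k k = 0 + 0 + 1`.
* `E (k+1) k = (k + 1) g`: for `k = 0`, `E 1 0 = D 1 + g * 1 = g` (`D 1 = 0`); for `k + 1`:
  `E (k+2) (k+1) = D (E (k+1) (k+1)) + g * E (k+1) (k+1) + E (k+1) k = 0 + g + (k + 1) g`.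
* `E k i ∈ W (k - i)` for `i ≤ k`: induction on `k`; `D (E k i) ∈ W (k - i + 1)`, `g * E k i ∈
  W (1 + (k - i))`, `E k (i - 1) ∈ W (k - (i - 1))`, and `k + 1 - i` equals all of these for
  `1 ≤ i ≤ k`; for `i = k + 1` the element is `1 ∈ W 0`, for `i = 0` the last term is absent.
* the formula: with `P = nab D (g₀ + g)`, `Q = nab D g₀` we have `P x = Q x + g * x`, `Q` is additive
  and `Q (u * x) = D u * x + u * Q x`. So
  `P (∑_{i ≤ k} E k i * Q^[i] x) = ∑ (D (E k i) + g * E k i) * Q^[i] x + E k i * Q^[i+1] x`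
  (`Function.iterate_succ_apply'`), and collecting terms is the recursion (`Finset.sum_range_succ`,
  `Finset.sum_range_succ'`, `E k (k+1) = 0`).
-/

namespace Pool.Agent.H16.RM

variable {K : Type*} [Field K] {D : K → K} {W : ℕ → Set K}

/-- the coefficients of the change of the connection -/
private def cvE (D : K → K) (g : K) : ℕ → ℕ → K
  | 0, i => if i = 0 then 1 else 0
  | k + 1, 0 => D (cvE D g k 0) + g * cvE D g k 0
  | k + 1, i + 1 => D (cvE D g k (i + 1)) + g * cvE D g k (i + 1) + cvE D g k i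

private theorem cv_zero (h : Wt K D W) : D 0 = 0 := by
  have h1 := h.dadd 0 0
  rw [add_zero] at h1
  exact left_eq_add.1 h1

private theorem cv_one (h : Wt K D W) : D 1 = 0 := by
  have h1 := h.dmul 1 1
  rw [mul_one, one_mul, mul_one] at h1
  exact left_eq_add.1 h1

private theorem cv_sum (h : Wt K D W) (n : ℕ) (u : ℕ → K) :
    D (∑ i ∈ Finset.range n, u i) = ∑ i ∈ Finset.range n, D (u i) := by
  induction n with
  | zero => simpa using cv_zero h
  | succ n ih => rw [Finset.sum_range_succ, Finset.sum_range_succ, h.dadd, ih]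

private theorem cv_van (h : Wt K D W) (g : K) : ∀ k i, k < i → cvE D g k i = 0 := by
  intro k
  induction k with
  | zero =>
    intro i hi
    have h1 : ¬ i = 0 := by omega
    simp [cvE, h1]
  | succ k ih =>
    intro i hi
    obtain ⟨j, rfl⟩ : ∃ j, i = j + 1 := ⟨i - 1, by omega⟩
    simp [cvE, ih (j + 1) (by omega), ih j (by omega), cv_zero h]

private theorem cv_diag (h : Wt K D W) (g : K) : ∀ k, cvE D g k k = 1 := by
  intro k
  induction k with
  | zero => simp [cvE]
  | succ k ih => simp [cvE, cv_van h g k (k + 1) (by omega), ih, cv_zero h]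

private theorem cv_sub (h : Wt K D W) (g : K) : ∀ k : ℕ, cvE D g (k + 1) k = ((k : K) + 1) * g := by
  intro k
  induction k with
  | zero => simp [cvE, cv_one h]
  | succ k ih =>
    have h1 : cvE D g (k + 1 + 1) (k + 1) = D (cvE D g (k + 1) (k + 1)) +
      g * cvE D g (k + 1) (k + 1) + cvE D g (k + 1) k := rfl
    rw [h1, cv_diag h g, ih, cv_one h]
    push_cast
    ring

private theorem cv_wt (h : Wt K D W) (g : K) (hg : g ∈ W 1) :
    ∀ k i, i ≤ k → cvE D g k i ∈ W (k - i) := by
  intro k
  induction k with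
  | zero =>
    intro i hi
    obtain rfl : i = 0 := by omega
    simpa [cvE] using h.one
  | succ k ih =>
    intro i hi
    have hterm : ∀ j, j ≤ k → D (cvE D g k j) + g * cvE D g k j ∈ W (k + 1 - j) := by
      intro j hj
      have h1 := h.der (ih j hj)
      have h2 := h.mul hg (ih j hj)
      rw [show k - j + 1 = k + 1 - j by omega] at h1
      rw [show 1 + (k - j) = k + 1 - j by omega] at h2
      exact h.add h1 h2
    rcases i with _ | i
    · exact hterm 0 (by omega)
    · have h3 : cvE D g (k + 1) (i + 1) = D (cvE D g k (i + 1)) + g * cvE D g k (i + 1) +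
        cvE D g k i := rfl
      rcases Nat.lt_or_ge k (i + 1) with h4 | h4
      · obtain rfl : i = k := by omega
        rw [cv_diag h g]
        simpa using h.one
      · rw [h3]
        have h5 := ih i (by omega)
        rw [show k - i = k + 1 - (i + 1) by omega] at h5
        exact h.add (hterm (i + 1) h4) h5

private theorem cv_form (h : Wt K D W) (g g₀ : K) (k : ℕ) (x : K) : (nab D (g₀ + g))^[k] x
    = ∑ i ∈ Finset.range (k + 1), cvE D g k i * (nab D g₀)^[i] x := by
  induction k with
  | zero => simp [cvE]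
  | succ k ih =>
    rw [Function.iterate_succ_apply', ih]
    have h1 : nab D (g₀ + g) (∑ i ∈ Finset.range (k + 1), cvE D g k i * (nab D g₀)^[i] x)
        = ∑ i ∈ Finset.range (k + 1), (D (cvE D g k i) + g * cvE D g k i) * (nab D g₀)^[i] x
        + ∑ i ∈ Finset.range (k + 1), cvE D g k i * (nab D g₀)^[i + 1] x := by
      unfold nab
      rw [cv_sum h, Finset.mul_sum, ← Finset.sum_add_distrib, ← Finset.sum_add_distrib]
      refine Finset.sum_congr rfl fun i _ => ?_
      rw [h.dmul, Function.iterate_succ_apply']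
      ring
    rw [h1, Finset.sum_range_succ' _ (k + 1)]
    have h2 : ∀ i, cvE D g (k + 1) (i + 1) * (nab D g₀)^[i + 1] x =
        (D (cvE D g k (i + 1)) + g * cvE D g k (i + 1)) * (nab D g₀)^[i + 1] x +
        cvE D g k i * (nab D g₀)^[i + 1] x := by
      intro i
      change (D (cvE D g k (i + 1)) + g * cvE D g k (i + 1) + cvE D g k i) * _ = _
      ring
    rw [Finset.sum_congr rfl fun i _ => h2 i, Finset.sum_add_distrib]
    have h3 : cvE D g (k + 1) 0 = D (cvE D g k 0) + g * cvE D g k 0 := rfl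
    rw [h3, Finset.sum_range_succ' _ k]
    have h4 : ∑ i ∈ Finset.range (k + 1),
        (D (cvE D g k (i + 1)) + g * cvE D g k (i + 1)) * (nab D g₀)^[i + 1] x =
        ∑ i ∈ Finset.range k,
        (D (cvE D g k (i + 1)) + g * cvE D g k (i + 1)) * (nab D g₀)^[i + 1] x := by
      rw [Finset.sum_range_succ, cv_van h g k (k + 1) (by omega), cv_zero h]
      simp
    rw [h4]
    ring

theorem conv (h : Wt K D W) (g : K) (hg : g ∈ W 1) : ∃ E : ℕ → ℕ → K,
    (∀ k i, i ≤ k → E k i ∈ W (k - i)) ∧ (∀ k i, k < i → E k i = 0) ∧ (∀ k, E k k = 1) ∧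
    (∀ k : ℕ, E (k + 1) k = ((k : K) + 1) * g) ∧
    ∀ (g₀ : K) (k : ℕ) (x : K), (nab D (g₀ + g))^[k] x
      = ∑ i ∈ Finset.range (k + 1), E k i * (nab D g₀)^[i] x :=
  ⟨cvE D g, cv_wt h g hg, cv_van h g, cv_diag h g, cv_sub h g, fun g₀ k x => cv_form h g g₀ k x⟩

/-- the trivial weights -/
theorem wt_univ {K : Type*} [Field K] {D : K → K} (hadd : ∀ x y, D (x + y) = D x + D y)
    (hmul : ∀ x y, D (x * y) = x * D y + D x * y) : Wt K D (fun _ => Set.univ) := by
  constructor <;> simp_all

end Pool.Agent.H16.RM
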