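import Pool.Agent.H16.RM.Bas

/-!
# The iterated derivatives of the form along an infinitesimal symmetry vanish

PROOF. (1) `EE_FF`: `EE (FF k) = d • FF k`. For `k = 0`: `FF 0 = GG = ∑ vc α * ∏ i, gp i ^ α i`,
`EE (vc α) = 0`, `EE (gp i) = gp i` (from `EE_vl`, `EE_vy`, Leibniz), so
`EE (∏ i, gp i ^ α i) = (∑ i, α i) • ∏ = d • ∏` (`mem_mons`; the Leibniz rule for products by
induction on the finset: if `EE u = m • u` and `EE v = n • v` then `EE (u v) = (m + n) • u v`). For
the step: `EE` and `XB` commute. The commutator `⁅EE, XB⁆` (Mathlib: bracket on `Derivation`,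
`Derivation.commutator_apply : ⁅D₁, D₂⁆ a = D₁ (D₂ a) - D₂ (D₁ a)`) is a derivation; it vanishes on the
variables (`var_cases`; on `vy j`: `EE (∑ l, vy l * vB l j) = ∑ l, vy l * vB l j = XB (vy j)`), so it
is zero (`MvPolynomial.derivation_ext` or `derivation_eq_zero_of_forall_mem_vars`). Hence
`EE (XB P) = XB (EE P)` and `EE (FF (k+1)) = XB (EE (FF k)) = d • FF (k+1)`.

(2) With `p = pt x lam y B` and `φ = aeval p`: `δ (φ P) = φ (XB P) + s * φ (EE P)` for all
`P : UU N M d`, by `MvPolynomial.induction_on`: for constants `a : ℤ` both sides are `0`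
(`δ 1 = 0`, so `δ` of an integer is `0`); sums are clear; for `P * X i` use the Leibniz rules of `δ`,
`XB`, `EE` and the claim for the variables, which is the hypotheses `hx`, `hlam`, `hB`, `hy` with
`XB_vy`, `EE_vy`, ... (`var_cases`).

(3) Induction on `k`: if `φ (FF k) = 0` then `0 = δ (φ (FF k)) = φ (FF (k+1)) + s * d * φ (FF k)`, so
`φ (FF (k+1)) = 0`.
-/

namespace Pool.Agent.H16.RM

open Pool.Agent.H13.Kob

private lemma coreF_pow {A : Type*} [CommRing A] [Algebra ℤ A] (D : Derivation ℤ A A) (f : A)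
    (h : D f = f)
    (e : ℕ) : D (f ^ e) = (e : A) * f ^ e := by
  induction e with
  | zero => rw [pow_zero, Derivation.map_one_eq_zero, Nat.cast_zero, zero_mul]
  | succ n ih =>
    rw [pow_succ, Derivation.leibniz, ih, h, smul_eq_mul, smul_eq_mul]
    push_cast
    ring

private lemma coreF_prod {A : Type*} [CommRing A] [Algebra ℤ A] (D : Derivation ℤ A A)
    {ι : Type*} (t : Finset ι) (f : ι → A) (e : ι → ℕ) (h : ∀ i, D (f i) = f i) :
    D (∏ i ∈ t, f i ^ e i) = ((∑ i ∈ t, e i : ℕ) : A) * ∏ i ∈ t, f i ^ e i := by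
  classical
  induction t using Finset.induction_on with
  | empty =>
    rw [Finset.prod_empty, Finset.sum_empty, Derivation.map_one_eq_zero, Nat.cast_zero, zero_mul]
  | insert a t ha ih =>
    rw [Finset.prod_insert ha, Finset.sum_insert ha, Derivation.leibniz, ih,
      coreF_pow D (f a) (h a), smul_eq_mul, smul_eq_mul]
    push_cast
    ring

variable {N M d : ℕ}

private lemma coreF_gp (i : Fin N) : EE (gp i : UU N M d) = gp i := by
  rw [gp, map_sum]
  refine Finset.sum_congr rfl fun j _ => ?_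
  rw [Derivation.leibniz, EE_vl, EE_vy, smul_zero, add_zero, smul_eq_mul]

private lemma coreF_GG : EE (GG : UU N M d) = (d : UU N M d) * GG := by
  rw [GG, map_sum, Finset.mul_sum]
  refine Finset.sum_congr rfl fun α _ => ?_
  rw [Derivation.leibniz, EE_vc, smul_zero, add_zero, coreF_prod EE Finset.univ _ _ coreF_gp,
    mem_mons.mp α.2, smul_eq_mul]
  ring

private lemma coreF_comm (P : UU N M d) : EE (XB P) = XB (EE P) := by
  have h : ⁅(EE : Derivation ℤ (UU N M d) (UU N M d)),
      (XB : Derivation ℤ (UU N M d) (UU N M d))⁆ = 0 := by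
    refine MvPolynomial.derivation_ext fun v => ?_
    rw [Derivation.commutator_apply, Derivation.coe_zero, Pi.zero_apply]
    rcases var_cases v with ⟨α, hv⟩ | ⟨i, j, hv⟩ | ⟨j, hv⟩ | ⟨l, j, hv⟩
    · rw [hv, XB_vc, EE_vc, map_zero, map_zero, sub_zero]
    · rw [hv, XB_vl, EE_vl, map_zero, map_zero, sub_zero]
    · rw [hv, EE_vy, XB_vy, map_sum, sub_eq_zero]
      refine Finset.sum_congr rfl fun l _ => ?_
      rw [Derivation.leibniz, EE_vB, EE_vy, smul_zero, zero_add, smul_eq_mul, mul_comm]
    · rw [hv, XB_vB, EE_vB, map_zero, map_zero, sub_zero]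
  have h2 := congrArg (fun D : Derivation ℤ (UU N M d) (UU N M d) => D P) h
  simp only [Derivation.commutator_apply, Derivation.coe_zero, Pi.zero_apply] at h2
  exact sub_eq_zero.mp h2

private lemma coreF_FF (k : ℕ) : EE (FF k : UU N M d) = (d : UU N M d) * FF k := by
  induction k with
  | zero => rw [FF_zero, coreF_GG]
  | succ k ih =>
    rw [FF_succ, coreF_comm, ih, Derivation.leibniz, smul_eq_mul, smul_eq_mul]
    have h1 : XB ((d : ℕ) : UU N M d) = 0 := Derivation.map_natCast _ _
    rw [h1, mul_zero, add_zero]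

theorem killed {N M d : ℕ} {L : Type*} [Field L] (δ : L →+ L)
    (hδ : ∀ a b, δ (a * b) = a * δ b + b * δ a) (x : mons N d → L) (lam : Fin N → Fin M → L)
    (y : Fin M → L) (B : Fin M → Fin M → L) (hx : ∀ α, δ (x α) = 0)
    (hlam : ∀ i j, δ (lam i j) = 0) (hB : ∀ l j, δ (B l j) = 0) (s : L)
    (hy : ∀ j, δ (y j) = ∑ l, y l * B l j + s * y j)
    (h0 : MvPolynomial.aeval (pt x lam y B) (GG : UU N M d) = 0) (k : ℕ) :
    MvPolynomial.aeval (pt x lam y B) (FF k : UU N M d) = 0 := by
  have hone : δ 1 = 0 := by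
    have h := hδ 1 1
    rw [mul_one, one_mul] at h
    exact left_eq_add.mp h
  have hint : ∀ a : ℤ, δ (a : L) = 0 := by
    intro a
    have h : (a : L) = a • (1 : L) := by rw [zsmul_one]
    rw [h, map_zsmul, hone, smul_zero]
  have hvar : ∀ v, δ (MvPolynomial.aeval (pt x lam y B) (MvPolynomial.X v : UU N M d)) =
      MvPolynomial.aeval (pt x lam y B) (XB (MvPolynomial.X v : UU N M d)) +
        s * MvPolynomial.aeval (pt x lam y B) (EE (MvPolynomial.X v : UU N M d)) := by
    intro v
    rcases var_cases v with ⟨α, hv⟩ | ⟨i, j, hv⟩ | ⟨j, hv⟩ | ⟨l, j, hv⟩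
    · rw [hv, XB_vc, EE_vc, map_zero, mul_zero, add_zero, aeval_vc, hx]
    · rw [hv, XB_vl, EE_vl, map_zero, mul_zero, add_zero, aeval_vl, hlam]
    · rw [hv, XB_vy, EE_vy, aeval_vy, hy, map_sum]
      simp only [map_mul, aeval_vy, aeval_vB]
    · rw [hv, XB_vB, EE_vB, map_zero, mul_zero, add_zero, aeval_vB, hB]
  have key : ∀ P : UU N M d, δ (MvPolynomial.aeval (pt x lam y B) P) =
      MvPolynomial.aeval (pt x lam y B) (XB P) +
        s * MvPolynomial.aeval (pt x lam y B) (EE P) := by
    intro P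
    induction P using MvPolynomial.induction_on with
    | C a =>
      rw [MvPolynomial.derivation_C, MvPolynomial.derivation_C, map_zero, mul_zero, add_zero,
        MvPolynomial.aeval_C, eq_intCast, hint]
    | add P Q hP hQ =>
      rw [map_add, map_add, hP, hQ, map_add, map_add, map_add, map_add]
      ring
    | mul_X P v hP =>
      rw [map_mul, hδ, hP, hvar, Derivation.leibniz, Derivation.leibniz]
      simp only [smul_eq_mul, map_add, map_mul]
      ring
  induction k with
  | zero => exact h0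
  | succ k ih =>
    have h := key (FF k)
    rw [ih, map_zero, coreF_FF, map_mul, ih, mul_zero, mul_zero, add_zero, ← FF_succ] at h
    exact h.symm

end Pool.Agent.H16.RM
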