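import Pool.Agent.H16.RM.Defs

/-!
# Infinitesimal symmetries of a linear differential system

`VS K w` (Defs) is the set of the matrices `v` such that `δ w = w v + s w` for some derivation `δ` of
`L` killing `K` and some scalar `s ∈ L`.

PROOFS. `exists_VV`: `0` (with `δ = 0`, `s = 0`); sums: `δ + δ'`, `s + s'`; scalar multiples by `c`:
`c δ` (the additive map `x ↦ c * δ x`, `(AddMonoidHom.mulLeft c).comp δ`), `c s`.

`VS_stable`: let `D w = A w - q w` with `A` over `K` and let `v ∈ VS`, with `δ`, `s`. Take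
`δ' = D ∘ δ - δ ∘ D` and `s' = D s + δ q`. `δ'` is a derivation: the mixed terms `D a * δ b` etc.
cancel. It kills `K`: for `c ∈ K` we have `δ c = 0`, `D c ∈ K` (`hK`), `δ (D c) = 0`, and `D 0 = 0`.
Finally, by matrices (all sums over `l`):
`D (δ w) = D (w v + s w) = (D w) v + w (D v) + (D s) w + s (D w)`,
`δ (D w) = δ (A w - q w) = A (δ w) - (δ q) w - q (δ w)` (since `δ A = 0`), with
`δ w = w v + s w`, `D w = A w - q w`:
`δ' w = (A w - q w) v + w (D v) + (D s) w + s (A w - q w) - A (w v + s w) + (δ q) w + q (w v + s w)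
= w (D v) + (D s + δ q) w`. (Entrywise: `∑_l (∑_k A i k * w k l) * v (l, j)
= ∑_k A i k * ∑_l w k l * v (l, j)` by `Finset.sum_comm`.)

`exists_VS`: if `det w ≠ 0` take `v (l, j) = ∑_i w⁻¹ l i * δ (w i j)`, `s = 0`; then
`∑_l w i l * v (l, j) = ∑_k (w w⁻¹) i k * δ (w k j) = δ (w i j)`.
-/

namespace Pool.Agent.H16.RM

variable {L : Type*} [Field L] {M : ℕ}

theorem exists_VV (K : Subfield L) (w : Fin M → Fin M → L) :
    ∃ V : Submodule L (Fin M × Fin M → L), ∀ v, v ∈ V ↔ v ∈ VS K w := by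
  refine ⟨{ carrier := VS K w, zero_mem' := ?_, add_mem' := ?_, smul_mem' := ?_ }, fun v => Iff.rfl⟩
  · rintro v v' ⟨δ, s, ⟨h1, h2⟩, h3⟩ ⟨δ', s', ⟨h1', h2'⟩, h3'⟩
    refine ⟨δ + δ', s + s', ⟨fun a b => ?_, fun c hc => ?_⟩, fun i j => ?_⟩
    · rw [AddMonoidHom.add_apply, AddMonoidHom.add_apply, AddMonoidHom.add_apply, h1, h1']
      ring
    · rw [AddMonoidHom.add_apply, h2 c hc, h2' c hc, add_zero]
    · rw [AddMonoidHom.add_apply, h3, h3']
      simp only [Pi.add_apply, mul_add, Finset.sum_add_distrib]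
      ring
  · refine ⟨0, 0, ⟨fun a b => ?_, fun c _ => rfl⟩, fun i j => ?_⟩
    · simp
    · simp
  · rintro c v ⟨δ, s, ⟨h1, h2⟩, h3⟩
    refine ⟨(AddMonoidHom.mulLeft c).comp δ, c * s, ⟨fun a b => ?_, fun x hx => ?_⟩, fun i j => ?_⟩
    · simp only [AddMonoidHom.comp_apply, AddMonoidHom.coe_mulLeft, h1]
      ring
    · simp only [AddMonoidHom.comp_apply, AddMonoidHom.coe_mulLeft, h2 x hx, mul_zero]
    · simp only [AddMonoidHom.comp_apply, AddMonoidHom.coe_mulLeft, h3, Pi.smul_apply, smul_eq_mul,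
        mul_add, Finset.mul_sum]
      congr 1
      · refine Finset.sum_congr rfl fun l _ => ?_
        ring
      · ring

theorem VS_stable (D : L → L) (hadd : ∀ x y, D (x + y) = D x + D y)
    (hmul : ∀ x y, D (x * y) = x * D y + D x * y) (K : Subfield L) (hK : ∀ x ∈ K, D x ∈ K)
    (w A : Fin M → Fin M → L) (hA : ∀ i j, A i j ∈ K) (q : L)
    (hD : ∀ i j, D (w i j) = ∑ l, A i l * w l j - q * w i j) {v : Fin M × Fin M → L}
    (hv : v ∈ VS K w) : (fun s => D (v s)) ∈ VS K w := by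
  obtain ⟨δ, s, ⟨h1, h2⟩, h3⟩ := hv
  have hD0 : D 0 = 0 := by
    have := hadd 0 0
    rw [add_zero] at this
    exact left_eq_add.1 this
  have hsum : ∀ f : Fin M → L, D (∑ l, f l) = ∑ l, D (f l) := by
    intro f
    exact map_sum (AddMonoidHom.mk' D hadd) f Finset.univ
  refine ⟨(AddMonoidHom.mk' D hadd).comp δ - δ.comp (AddMonoidHom.mk' D hadd), D s + δ q,
    ⟨fun a b => ?_, fun c hc => ?_⟩, fun i j => ?_⟩
  · simp only [AddMonoidHom.sub_apply, AddMonoidHom.comp_apply, AddMonoidHom.mk'_apply]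
    rw [h1, hadd, hmul, hmul, hmul, map_add, h1, h1]
    ring
  · simp only [AddMonoidHom.sub_apply, AddMonoidHom.comp_apply, AddMonoidHom.mk'_apply]
    rw [h2 c hc, h2 _ (hK c hc), hD0, sub_zero]
  · simp only [AddMonoidHom.sub_apply, AddMonoidHom.comp_apply, AddMonoidHom.mk'_apply]
    have e1 : D (δ (w i j)) = (∑ l, w i l * D (v (l, j))) + (∑ l, D (w i l) * v (l, j)) +
        (s * D (w i j) + D s * w i j) := by
      rw [h3, hadd, hsum, hmul]
      simp only [hmul, Finset.sum_add_distrib]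
    have e2 : ∑ l, D (w i l) * v (l, j) =
        (∑ l, ∑ k, A i k * w k l * v (l, j)) - q * ∑ l, w i l * v (l, j) := by
      rw [Finset.mul_sum, ← Finset.sum_sub_distrib]
      refine Finset.sum_congr rfl fun l _ => ?_
      rw [hD, sub_mul, Finset.sum_mul]
      ring
    have e3 : δ (D (w i j)) = (∑ l, A i l * δ (w l j)) - (q * δ (w i j) + w i j * δ q) := by
      rw [hD, map_sub, map_sum, h1]
      congr 1
      refine Finset.sum_congr rfl fun l _ => ?_
      rw [h1, h2 _ (hA i l), mul_zero, add_zero]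
    have e4 : ∑ l, A i l * δ (w l j) =
        (∑ l, ∑ k, A i k * w k l * v (l, j)) + s * ∑ l, A i l * w l j := by
      rw [Finset.sum_comm, Finset.mul_sum, ← Finset.sum_add_distrib]
      refine Finset.sum_congr rfl fun k _ => ?_
      rw [h3, mul_add, Finset.mul_sum]
      congr 1
      · refine Finset.sum_congr rfl fun l _ => ?_
        ring
      · ring
    rw [e3, e4, e1, e2, h3, hD]
    ring

theorem exists_VS (K : Subfield L) (w : Fin M → Fin M → L) (hw : (Matrix.of w).det ≠ 0)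
    (δ : L →+ L) (hδ : IsDer K δ) :
    ∃ v ∈ VS K w, ∀ i j, δ (w i j) = ∑ l, w i l * v (l, j) := by
  have hu : IsUnit (Matrix.of w).det := isUnit_iff_ne_zero.2 hw
  have key : ∀ i j, δ (w i j) = ∑ l, w i l * ∑ k, (Matrix.of w)⁻¹ l k * δ (w k j) := by
    intro i j
    have e : ∑ l, w i l * ∑ k, (Matrix.of w)⁻¹ l k * δ (w k j) =
        ∑ k, (Matrix.of w * (Matrix.of w)⁻¹) i k * δ (w k j) := by
      simp only [Finset.mul_sum, Matrix.mul_apply, Finset.sum_mul]
      rw [Finset.sum_comm]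
      refine Finset.sum_congr rfl fun k _ => Finset.sum_congr rfl fun l _ => ?_
      rw [Matrix.of_apply]
      ring
    rw [e, Matrix.mul_nonsing_inv _ hu]
    simp [Matrix.one_apply]
  refine ⟨fun p => ∑ k, (Matrix.of w)⁻¹ p.1 k * δ (w k p.2), ⟨δ, 0, hδ, fun i j => ?_⟩, key⟩
  rw [zero_mul, add_zero]
  exact key i j

end Pool.Agent.H16.RM
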