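import Mathlib

/-!
# Subspaces stable under a derivation are spanned by constant vectors

PROOF. As `span_const` in `H13/Hol/Const.lean` (copy it, about 75 lines), with the constants
`ker D` instead of `ℂ`: let `V'` be the span. Show by induction on `n` that a vector `v ∈ V` with at
most `n` nonzero coordinates lies in `V'`. For `v ≠ 0` with `v s ≠ 0` put `v₁ = (v s)⁻¹ • v ∈ V`, so
`v₁ s = 1`. The vector `D v₁` lies in `V`, vanishes at `s` (`D 1 = 0`) and where `v` vanishes, hence
it is in `V'` by induction. If `D v₁ = 0` then `v₁` is a constant vector of `V`, so in `V'`. Otherwise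
`D (v₁ t) ≠ 0` for some `t`, and `v₁ - (v₁ t / D (v₁ t)) • D v₁ ∈ V` vanishes at `t` (where
`v t ≠ 0`) and where `v` vanishes, so it is in `V'`, and so is `v₁`.
-/

namespace Pool.Agent.H16.RM

theorem span_ker {L : Type*} [Field L] (D : L → L) (hadd : ∀ x y, D (x + y) = D x + D y)
    (hmul : ∀ x y, D (x * y) = x * D y + D x * y) {σ : Type*} [Fintype σ]
    (V : Submodule L (σ → L)) (hV : ∀ v ∈ V, (fun s => D (v s)) ∈ V) :
    V ≤ Submodule.span L {v | v ∈ V ∧ ∀ s, D (v s) = 0} := by
  classical
  set V' := Submodule.span L {v | v ∈ V ∧ ∀ s, D (v s) = 0} with hV'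
  have h1 : D 1 = 0 := by
    have := hmul 1 1
    simp only [mul_one, one_mul] at this
    have h2 : D 1 + D 1 = D 1 + 0 := by rw [← this, add_zero]
    exact add_left_cancel h2
  have h0 : D 0 = 0 := by
    have := hadd 0 0
    rw [add_zero] at this
    have h2 : D 0 + D 0 = D 0 + 0 := by rw [← this, add_zero]
    exact add_left_cancel h2
  have key : ∀ (n : ℕ) (v : σ → L), v ∈ V → (Finset.univ.filter fun s => v s ≠ 0).card ≤ n →
      v ∈ V' := by
    intro n
    induction n with
    | zero =>
      intro v _ hcard
      have h2 : ∀ s, v s = 0 := by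
        intro s
        by_contra h
        have h3 : s ∈ Finset.univ.filter fun s => v s ≠ 0 := by simp [h]
        have h4 := Finset.card_pos.mpr ⟨s, h3⟩
        omega
      have : v = 0 := funext h2
      rw [this]
      exact Submodule.zero_mem _
    | succ n ih =>
      intro v hv hcard
      by_cases hv0 : v = 0
      · rw [hv0]; exact Submodule.zero_mem _
      obtain ⟨s, hs⟩ : ∃ s, v s ≠ 0 := by
        by_contra hcon
        push Not at hcon
        exact hv0 (funext hcon)
      set v₁ : σ → L := (v s)⁻¹ • v with hv₁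
      have hv₁V : v₁ ∈ V := V.smul_mem _ hv
      have hv₁s : v₁ s = 1 := by
        simp only [hv₁, Pi.smul_apply, smul_eq_mul]
        exact inv_mul_cancel₀ hs
      have hv₁0 : ∀ t, v t = 0 → v₁ t = 0 := by
        intro t ht
        simp only [hv₁, Pi.smul_apply, smul_eq_mul, ht, mul_zero]
      have hsmall : ∀ w ∈ V, ∀ t, v t ≠ 0 → w t = 0 → (∀ t', v t' = 0 → w t' = 0) → w ∈ V' := by
        intro w hw t ht hwt hsub
        apply ih w hw
        have h2 : (Finset.univ.filter fun s => w s ≠ 0) ⊆
            (Finset.univ.filter fun s => v s ≠ 0).erase t := by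
          intro t' ht'
          rw [Finset.mem_filter] at ht'
          rw [Finset.mem_erase, Finset.mem_filter]
          refine ⟨?_, Finset.mem_univ _, fun h => ht'.2 (hsub t' h)⟩
          rintro rfl
          exact ht'.2 hwt
        have h3 := Finset.card_le_card h2
        rw [Finset.card_erase_of_mem (by simp [ht])] at h3
        omega
      have hD0 : ∀ t, v t = 0 → D (v₁ t) = 0 := by
        intro t ht
        rw [hv₁0 t ht, h0]
      have hDv : (fun s => D (v₁ s)) ∈ V' :=
        hsmall _ (hV v₁ hv₁V) s hs (by
          show D (v₁ s) = 0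
          rw [hv₁s, h1]) hD0
      have hv₁V' : v₁ ∈ V' := by
        by_cases hall : ∀ t, D (v₁ t) = 0
        · exact Submodule.subset_span ⟨hv₁V, hall⟩
        · push Not at hall
          obtain ⟨t, ht⟩ := hall
          have hvt : v t ≠ 0 := fun h => ht (hD0 t h)
          have h2 : v₁ - (v₁ t / D (v₁ t)) • (fun s => D (v₁ s)) ∈ V' := by
            apply hsmall _ (V.sub_mem hv₁V (V.smul_mem _ (hV v₁ hv₁V))) t hvt
            · simp only [Pi.sub_apply, Pi.smul_apply, smul_eq_mul]
              rw [div_mul_cancel₀ _ ht, sub_self]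
            · intro t' ht'
              simp only [Pi.sub_apply, Pi.smul_apply, smul_eq_mul]
              rw [hv₁0 t' ht', h0, mul_zero, sub_zero]
          have h3 := V'.add_mem h2 (V'.smul_mem (v₁ t / D (v₁ t)) hDv)
          rwa [sub_add_cancel] at h3
      have : v = v s • v₁ := by
        rw [hv₁, smul_smul, mul_inv_cancel₀ hs, one_smul]
      rw [this]
      exact V'.smul_mem _ hv₁V'
  intro v hv
  exact key _ v hv le_rfl

end Pool.Agent.H16.RM
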