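import Pool.Agent.H16.RM.Der
import Pool.Agent.H16.RM.SpanC
import Pool.Agent.H16.RM.CoreV
import Pool.Agent.H16.RM.CoreF

/-!
# The core theorem

`L` is a field of characteristic zero with a derivation `D`, `K` a subfield stable under `D`,
containing the constants of `D` and algebraically closed in `L`; `D w = A w - q w` with `A` over `K`,
`q ∈ L` arbitrary, `det w ≠ 0`; the coordinates are `g_i = ∑_j λ_ij w_aj` with `λ` over `K`, and the
form with constant coefficients `x` vanishes at `g`.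

PROOF. Put `y = w a`, `g i = ∑_j lam i j * w a j`. Suppose `ρ = g i / g i' ∉ K`. By `halg` it is
transcendental over `K`, and `exists_der` (Der) gives `δ : L →+ L` with `IsDer K δ` and `δ ρ ≠ 0`
(`algebraMap K L c = c`). By `exists_VS` there is `v ∈ VS K w` with `δ (w i j) = ∑_l w i l v (l, j)`.
Let `V` be the submodule of `exists_VV`; it is stable under `D` by `VS_stable`, so by `span_ker`
`v` lies in the span of the `u ∈ V` with `D (u s) = 0` for all `s`.

Claim: for every `u` in this span, `g i * H u i' = g i' * H u i`, where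
`H u i = ∑_j lam i j * ∑_l w a l * u (l, j)`. Both sides are linear in `u`
(`Submodule.span_induction`), so let `u ∈ V` be constant, with `δ'`, `s` as in the definition of `VS`.
Apply `killed` with `δ'`, `B l j = u (l, j)`, `y = w a`: `x α ∈ K` since `D (x α) = 0` (`hker`),
`lam i j ∈ K`, `u (l, j) ∈ K` (`hker`), so `δ'` kills them; `h0` is `hF` with `aeval_GG`. Hence
`aeval (pt x lam (w a) B) (FF k) = 0` for all `k`, and `hyp` gives
`aeval (pt x lam (w a) B) (minor i i') = 0`, which is the claim by `aeval_minor`.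

For `u = v`: `H v i = ∑_j lam i j * δ (w a j) = δ (g i)` since `δ` kills `lam`. So
`g i * δ (g i') = g i' * δ (g i)`. But `g i = ρ * g i'` gives `δ (g i) = ρ δ (g i') + g i' δ ρ`, so
`g i' * g i' * δ ρ = g i' δ (g i) - g i δ (g i') = 0`: contradiction to `g i' ≠ 0`, `δ ρ ≠ 0`.
-/

namespace Pool.Agent.H16.RM

open Pool.Agent.H13.Kob

theorem core {N M d : ℕ} {L : Type*} [Field L] [CharZero L] (D : L → L)
    (hadd : ∀ x y, D (x + y) = D x + D y) (hmul : ∀ x y, D (x * y) = x * D y + D x * y)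
    (K : Subfield L) (hK : ∀ x ∈ K, D x ∈ K) (hker : ∀ x, D x = 0 → x ∈ K)
    (halg : ∀ x : L, IsAlgebraic K x → x ∈ K) (w : Fin M → Fin M → L)
    (hw : (Matrix.of w).det ≠ 0) (A : Fin M → Fin M → L) (hA : ∀ i j, A i j ∈ K) (q : L)
    (hD : ∀ i j, D (w i j) = ∑ l, A i l * w l j - q * w i j)
    (x : mons N d → L) (hx : ∀ α, D (x α) = 0)
    (lam : Fin N → Fin M → L) (hlam : ∀ i j, lam i j ∈ K) (a : Fin M)
    (hF : form x (fun i => ∑ j, lam i j * w a j) = 0) (i i' : Fin N)
    (hyp : ∀ B : Fin M → Fin M → L, (∀ l j, D (B l j) = 0) →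
      (∀ k, MvPolynomial.aeval (pt x lam (w a) B) (FF k : UU N M d) = 0) →
      MvPolynomial.aeval (pt x lam (w a) B) (minor i i' : UU N M d) = 0)
    (hi' : ∑ j, lam i' j * w a j ≠ 0) :
    (∑ j, lam i j * w a j) / (∑ j, lam i' j * w a j) ∈ K := by
  classical
  by_contra hnot
  obtain ⟨δ, hδ1, hδ2, hδ3⟩ := exists_der (K := K)
    ((∑ j, lam i j * w a j) / (∑ j, lam i' j * w a j)) (fun h => hnot (halg _ h))
  have hδ : IsDer K δ := ⟨hδ1, fun c hc => hδ2 ⟨c, hc⟩⟩
  obtain ⟨v, hv, hvδ⟩ := exists_VS K w hw δ hδ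
  obtain ⟨V, hV⟩ := exists_VV K w
  have hst : ∀ v ∈ V, (fun s => D (v s)) ∈ V := fun v hv =>
    (hV _).2 (VS_stable D hadd hmul K hK w A hA q hD ((hV _).1 hv))
  have hspan : v ∈ Submodule.span L {v | v ∈ V ∧ ∀ s, D (v s) = 0} :=
    span_ker D hadd hmul V hst ((hV v).2 hv)
  obtain ⟨H, hH⟩ : ∃ H : (Fin M × Fin M → L) → Fin N → L,
      ∀ u i, H u i = ∑ j, lam i j * ∑ l, w a l * u (l, j) := ⟨_, fun _ _ => rfl⟩
  have hHadd : ∀ u u' i, H (u + u') i = H u i + H u' i := by
    intro u u' i
    rw [hH, hH, hH, ← Finset.sum_add_distrib]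
    refine Finset.sum_congr rfl fun j _ => ?_
    have e : ∑ l, w a l * (u + u') (l, j) =
        ∑ l, w a l * u (l, j) + ∑ l, w a l * u' (l, j) := by
      rw [← Finset.sum_add_distrib]
      exact Finset.sum_congr rfl fun l _ => by rw [Pi.add_apply, mul_add]
    rw [e, mul_add]
  have hHsmul : ∀ (c : L) u i, H (c • u) i = c * H u i := by
    intro c u i
    rw [hH, hH, Finset.mul_sum]
    refine Finset.sum_congr rfl fun j _ => ?_
    have e : ∑ l, w a l * (c • u) (l, j) = c * ∑ l, w a l * u (l, j) := by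
      rw [Finset.mul_sum]
      exact Finset.sum_congr rfl fun l _ => by rw [Pi.smul_apply, smul_eq_mul, mul_left_comm]
    rw [e, mul_left_comm]
  have claim : ∀ u ∈ Submodule.span L {v | v ∈ V ∧ ∀ s, D (v s) = 0},
      (∑ j, lam i j * w a j) * H u i' = (∑ j, lam i' j * w a j) * H u i := by
    intro u hu
    induction hu using Submodule.span_induction with
    | mem u hu =>
      obtain ⟨huV, huD⟩ := hu
      obtain ⟨δ', s, hδ', hs⟩ := (hV u).1 huV
      have hk := killed (N := N) (M := M) (d := d) δ' hδ'.1 x lam (w a) (fun l j => u (l, j))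
        (fun α => hδ'.2 _ (hker _ (hx α))) (fun i j => hδ'.2 _ (hlam i j))
        (fun l j => hδ'.2 _ (hker _ (huD _))) s (fun j => hs a j) (by rw [aeval_GG]; exact hF)
      have h := hyp (fun l j => u (l, j)) (fun l j => huD _) hk
      rw [aeval_minor] at h
      rw [hH, hH]
      exact sub_eq_zero.1 h
    | zero =>
      have h0 : ∀ i, H 0 i = 0 := by
        intro i
        have h := hHsmul 0 0 i
        rw [zero_smul, zero_mul] at h
        exact h
      rw [h0, h0, mul_zero, mul_zero]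
    | add u u' _ _ h h' => rw [hHadd, hHadd, mul_add, mul_add, h, h']
    | smul c u _ h =>
      rw [hHsmul, hHsmul]
      linear_combination c * h
  have hc := claim v hspan
  have hHδ : ∀ i, H v i = δ (∑ j, lam i j * w a j) := by
    intro i
    rw [hH, map_sum]
    refine Finset.sum_congr rfl fun j _ => ?_
    rw [hδ1, hδ.2 _ (hlam i j), mul_zero, add_zero, hvδ a j]
  rw [hHδ, hHδ] at hc
  have h1 : (∑ j, lam i j * w a j) =
      (∑ j, lam i j * w a j) / (∑ j, lam i' j * w a j) * (∑ j, lam i' j * w a j) :=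
    (div_mul_cancel₀ _ hi').symm
  generalize (∑ j, lam i j * w a j) / (∑ j, lam i' j * w a j) = ρ at h1 hδ3
  generalize (∑ j, lam i j * w a j) = g at h1 hc
  generalize (∑ j, lam i' j * w a j) = g' at h1 hc hi'
  have h2 : δ g = ρ * δ g' + g' * δ ρ := by rw [h1, hδ1]
  have h3 : g' * g' * δ ρ = 0 := by
    linear_combination (-g') * h2 - hc + δ g' * h1
  exact hδ3 ((mul_eq_zero.1 h3).resolve_left (mul_ne_zero hi' hi'))

end Pool.Agent.H16.RM
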