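import Pool.Agent.H16.RM.Bas
import Pool.Agent.H13.Hol.Taylor
import Pool.Agent.H13.Hol.Formal

/-!
# Taylor expansions of quotients of entire functions at a point

`KL` is the field of formal Laurent series (fractions of `ℂ⟦X⟧`), `DL` its derivation, `tauZ z` the
Taylor expansion of entire functions at `z`, `sigZ z : KN →+* KL` its extension to quotients.
-/

namespace Pool.Agent.H16.RM

open Pool.Agent.H13.Nev PowerSeries

/-- fractions of formal power series -/
abbrev KL : Type := FractionRing ℂ⟦X⟧

/-- the inclusion of the formal power series -/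
noncomputable abbrev jo : ℂ⟦X⟧ →+* KL := algebraMap ℂ⟦X⟧ KL

lemma jo_inj : Function.Injective jo := IsFractionRing.injective ℂ⟦X⟧ KL

/-- the derivation of `KL` -/
noncomputable def DL : KL →+ KL := Pool.Agent.H13.Hol.exists_der_frac.choose

lemma DL_mul (a b : KL) : DL (a * b) = a * DL b + DL a * b := by
  have h := Pool.Agent.H13.Hol.exists_der_frac.choose_spec.1 a b
  rw [DL, h, mul_comm b]

lemma DL_jo (f : ℂ⟦X⟧) : DL (jo f) = jo (d⁄dX ℂ f) :=
  Pool.Agent.H13.Hol.exists_der_frac.choose_spec.2.1 f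

lemma DL_const {x : KL} (h : DL x = 0) : ∃ c : ℂ, x = jo (C c) :=
  Pool.Agent.H13.Hol.exists_der_frac.choose_spec.2.2 x h

/-- the shifted function -/
def shE (z : ℂ) (f : EN) : ℂ → ℂ := fun u => f.1 (z + u)

lemma shE_diff (z : ℂ) (f : EN) : Differentiable ℂ (shE z f) :=
  f.2.comp (differentiable_id.const_add z)

/-- the Taylor expansion at `z` -/
noncomputable def tauZ (z : ℂ) : EN →+* ℂ⟦X⟧ where
  toFun f := Pool.Agent.H13.Hol.tay (shE z f)
  map_one' := by
    show Pool.Agent.H13.Hol.tay (fun _ => (1 : ℂ)) = 1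
    rw [Pool.Agent.H13.Hol.tay_const, map_one]
  map_mul' f g := Pool.Agent.H13.Hol.tay_mul (shE_diff z f) (shE_diff z g)
  map_zero' := by
    show Pool.Agent.H13.Hol.tay (fun _ => (0 : ℂ)) = 0
    rw [Pool.Agent.H13.Hol.tay_const, map_zero]
  map_add' f g := Pool.Agent.H13.Hol.tay_add (shE_diff z f) (shE_diff z g)

lemma tauZ_inj (z : ℂ) : Function.Injective (tauZ z) := by
  rw [injective_iff_map_eq_zero]
  intro f hf
  apply EN.ext'
  intro u
  have h1 := Pool.Agent.H13.Hol.tay_zero (shE_diff z f) hf (u - z)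
  rw [shE, add_sub_cancel] at h1
  exact h1

lemma comp_inj (z : ℂ) : Function.Injective (jo.comp (tauZ z)) := by
  intro a b h
  rw [RingHom.comp_apply, RingHom.comp_apply] at h
  exact tauZ_inj z (jo_inj h)

/-- the expansion of quotients of entire functions at `z` -/
noncomputable def sigZ (z : ℂ) : KN →+* KL := IsFractionRing.lift (comp_inj z)

lemma sigZ_io (z : ℂ) (f : EN) : sigZ z (io f) = jo (tauZ z f) :=
  IsFractionRing.lift_algebraMap (comp_inj z) f

/-- the solution matrix `w : Fin M → Fin M → L` as a vector with `M * M` entries -/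
def flat {L : Type*} {M : ℕ} (w : Fin M → Fin M → L) (s : Fin (M * M)) : L :=
  w (finProdFinEquiv.symm s).1 (finProdFinEquiv.symm s).2

end Pool.Agent.H16.RM
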