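import Pool.Agent.H16.RM.Der
import Pool.Agent.H16.RM.SpanC
import Pool.Agent.H16.RM.CoreV
import Pool.Agent.H16.RM.CoreF
import Pool.Agent.H16.RM.DefsG

/-!
# The core theorem, general form

As `core` (file Core, the model), but the coordinates are combinations of ALL entries of the solution
matrix: `g_i = ∑_s lam i s * flat w s`, `s : Fin (M * M)` (`flat`: DefsG), and `K` is not assumed to be
algebraically closed in `L`; the conclusion is that `g_i / g_i'` is algebraic over `K`.

PROOF. Suppose `ρ = g i / g i'` is not algebraic over `K`. As in `core`: `exists_der` gives `δ` with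
`IsDer K δ`, `δ ρ ≠ 0`; `exists_VS` gives `v ∈ VS K w` with `δ (w a j) = ∑_l w a l * v (l, j)`; `v` lies
in the span of the constant vectors `u ∈ V` (`exists_VV`, `VS_stable`, `span_ker`). For
`u : Fin M × Fin M → L` let `Bt u s t = if s.1 = t.1 then u (s.2, t.2) else 0` for `s t : Fin (M * M)`
(identified with pairs by `finProdFinEquiv.symm`). Then `∑_s flat w s * Bt u s t
= ∑_l w t.1 l * u (l, t.2)` (reindex with `finProdFinEquiv.symm.sum_comp`, `Fintype.sum_prod_type`).
Claim: `g i * H u i' = g i' * H u i` with `H u i = ∑_t lam i t * ∑_s flat w s * Bt u s t`, for all `u`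
in the span. Both sides are linear in `u`, so let `u ∈ V` be constant, with `δ'`, `s` as in `VS`:
`δ' (flat w t) = ∑_s flat w s * Bt u s t + s * flat w t`. `killed` (CoreF) with `M * M` in the place of
`M`, `y = flat w`, `B = Bt u` (entries are entries of `u` or `0`, killed by `D`, hence in `K` by
`hker`): all `aeval (pt x lam (flat w) (Bt u)) (FF k)` vanish, and `hyp` with `aeval_minor` gives the
claim. For `u = v`: `H v i = ∑_t lam i t * δ (flat w t) = δ (g i)`, and the end is as in `core`.
-/

namespace Pool.Agent.H16.RM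

open Pool.Agent.H13.Kob

private def Bt {L : Type*} [Field L] {M : ℕ} (u : Fin M × Fin M → L) (s t : Fin (M * M)) : L :=
  if (finProdFinEquiv.symm s).1 = (finProdFinEquiv.symm t).1 then
    u ((finProdFinEquiv.symm s).2, (finProdFinEquiv.symm t).2) else 0

private lemma sum_Bt {L : Type*} [Field L] {M : ℕ} (w : Fin M → Fin M → L)
    (u : Fin M × Fin M → L) (t : Fin (M * M)) :
    ∑ s, flat w s * Bt u s t =
      ∑ l, w (finProdFinEquiv.symm t).1 l * u (l, (finProdFinEquiv.symm t).2) := by
  classical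
  have h1 : ∑ s, flat w s * Bt u s t = ∑ p : Fin M × Fin M, w p.1 p.2 *
      (if p.1 = (finProdFinEquiv.symm t).1 then u (p.2, (finProdFinEquiv.symm t).2) else 0) :=
    finProdFinEquiv.symm.sum_comp (fun p : Fin M × Fin M => w p.1 p.2 *
      (if p.1 = (finProdFinEquiv.symm t).1 then u (p.2, (finProdFinEquiv.symm t).2) else 0))
  rw [h1, Fintype.sum_prod_type, Finset.sum_eq_single (finProdFinEquiv.symm t).1]
  · refine Finset.sum_congr rfl fun l _ => ?_
    rw [if_pos rfl]
  · intro b _ hb
    refine Finset.sum_eq_zero fun l _ => ?_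
    rw [if_neg hb, mul_zero]
  · intro h
    exact absurd (Finset.mem_univ _) h

theorem coreG {N M d : ℕ} {L : Type*} [Field L] [CharZero L] (D : L → L)
    (hadd : ∀ x y, D (x + y) = D x + D y) (hmul : ∀ x y, D (x * y) = x * D y + D x * y)
    (K : Subfield L) (hK : ∀ x ∈ K, D x ∈ K) (hker : ∀ x, D x = 0 → x ∈ K)
    (w : Fin M → Fin M → L) (hw : (Matrix.of w).det ≠ 0) (A : Fin M → Fin M → L)
    (hA : ∀ i j, A i j ∈ K) (q : L) (hD : ∀ i j, D (w i j) = ∑ l, A i l * w l j - q * w i j)
    (x : mons N d → L) (hx : ∀ α, D (x α) = 0)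
    (lam : Fin N → Fin (M * M) → L) (hlam : ∀ i s, lam i s ∈ K)
    (hF : form x (fun i => ∑ s, lam i s * flat w s) = 0) (i i' : Fin N)
    (hyp : ∀ B : Fin (M * M) → Fin (M * M) → L, (∀ s t, D (B s t) = 0) →
      (∀ k, MvPolynomial.aeval (pt x lam (flat w) B) (FF k : UU N (M * M) d) = 0) →
      MvPolynomial.aeval (pt x lam (flat w) B) (minor i i' : UU N (M * M) d) = 0)
    (hi' : ∑ s, lam i' s * flat w s ≠ 0) :
    IsAlgebraic K ((∑ s, lam i s * flat w s) / (∑ s, lam i' s * flat w s)) := by
  classical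
  by_contra hnot
  obtain ⟨δ, hδ1, hδ2, hδ3⟩ := exists_der (K := K)
    ((∑ s, lam i s * flat w s) / (∑ s, lam i' s * flat w s)) (fun h => hnot h)
  have hδ : IsDer K δ := ⟨hδ1, fun c hc => hδ2 ⟨c, hc⟩⟩
  obtain ⟨v, hv, hvδ⟩ := exists_VS K w hw δ hδ
  obtain ⟨V, hV⟩ := exists_VV K w
  have hst : ∀ v ∈ V, (fun s => D (v s)) ∈ V := fun v hv =>
    (hV _).2 (VS_stable D hadd hmul K hK w A hA q hD ((hV _).1 hv))
  have hspan : v ∈ Submodule.span L {v | v ∈ V ∧ ∀ s, D (v s) = 0} :=
    span_ker D hadd hmul V hst ((hV v).2 hv)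
  obtain ⟨H, hH⟩ : ∃ H : (Fin M × Fin M → L) → Fin N → L,
      ∀ u i, H u i = ∑ t, lam i t *
        ∑ l, w (finProdFinEquiv.symm t).1 l * u (l, (finProdFinEquiv.symm t).2) :=
    ⟨_, fun _ _ => rfl⟩
  have hHadd : ∀ u u' i, H (u + u') i = H u i + H u' i := by
    intro u u' i
    rw [hH, hH, hH, ← Finset.sum_add_distrib]
    refine Finset.sum_congr rfl fun t _ => ?_
    have e : ∑ l, w (finProdFinEquiv.symm t).1 l * (u + u') (l, (finProdFinEquiv.symm t).2) =
        ∑ l, w (finProdFinEquiv.symm t).1 l * u (l, (finProdFinEquiv.symm t).2) +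
        ∑ l, w (finProdFinEquiv.symm t).1 l * u' (l, (finProdFinEquiv.symm t).2) := by
      rw [← Finset.sum_add_distrib]
      exact Finset.sum_congr rfl fun l _ => by rw [Pi.add_apply, mul_add]
    rw [e, mul_add]
  have hHsmul : ∀ (c : L) u i, H (c • u) i = c * H u i := by
    intro c u i
    rw [hH, hH, Finset.mul_sum]
    refine Finset.sum_congr rfl fun t _ => ?_
    have e : ∑ l, w (finProdFinEquiv.symm t).1 l * (c • u) (l, (finProdFinEquiv.symm t).2) =
        c * ∑ l, w (finProdFinEquiv.symm t).1 l * u (l, (finProdFinEquiv.symm t).2) := by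
      rw [Finset.mul_sum]
      exact Finset.sum_congr rfl fun l _ => by rw [Pi.smul_apply, smul_eq_mul, mul_left_comm]
    rw [e, mul_left_comm]
  have claim : ∀ u ∈ Submodule.span L {v | v ∈ V ∧ ∀ s, D (v s) = 0},
      (∑ s, lam i s * flat w s) * H u i' = (∑ s, lam i' s * flat w s) * H u i := by
    intro u hu
    induction hu using Submodule.span_induction with
    | mem u hu =>
      obtain ⟨huV, huD⟩ := hu
      obtain ⟨δ', s, hδ', hs⟩ := (hV u).1 huV
      have h00 : D 0 = 0 := by
        have h := hadd 0 0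
        rw [add_zero] at h
        exact left_eq_add.1 h
      have hBD : ∀ l j, D (Bt u l j) = 0 := by
        intro l j
        rw [Bt]
        split_ifs
        · exact huD _
        · exact h00
      have hk := killed (N := N) (M := M * M) (d := d) δ' hδ'.1 x lam (flat w) (Bt u)
        (fun α => hδ'.2 _ (hker _ (hx α))) (fun i j => hδ'.2 _ (hlam i j))
        (fun l j => hδ'.2 _ (hker _ (hBD l j))) s (fun t => by
          rw [sum_Bt]
          exact hs _ _) (by rw [aeval_GG]; exact hF)
      have h := hyp (Bt u) hBD hk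
      rw [aeval_minor] at h
      simp only [sum_Bt] at h
      rw [hH, hH]
      exact sub_eq_zero.1 h
    | zero =>
      have h0 : ∀ i, H 0 i = 0 := by
        intro i
        have h := hHsmul 0 0 i
        rw [zero_smul, zero_mul] at h
        exact h
      rw [h0, h0, mul_zero, mul_zero]
    | add u u' _ _ h h' => rw [hHadd, hHadd, mul_add, mul_add, h, h']
    | smul c u _ h =>
      rw [hHsmul, hHsmul]
      linear_combination c * h
  have hc := claim v hspan
  have hHδ : ∀ i, H v i = δ (∑ s, lam i s * flat w s) := by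
    intro i
    rw [hH, map_sum]
    refine Finset.sum_congr rfl fun t _ => ?_
    rw [hδ1, hδ.2 _ (hlam i t), mul_zero, add_zero, flat, hvδ]
  rw [hHδ, hHδ] at hc
  have h1 : (∑ s, lam i s * flat w s) =
      (∑ s, lam i s * flat w s) / (∑ s, lam i' s * flat w s) * (∑ s, lam i' s * flat w s) :=
    (div_mul_cancel₀ _ hi').symm
  generalize (∑ s, lam i s * flat w s) / (∑ s, lam i' s * flat w s) = ρ at h1 hδ3
  generalize (∑ s, lam i s * flat w s) = g at h1 hc
  generalize (∑ s, lam i' s * flat w s) = g' at h1 hc hi'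
  have h2 : δ g = ρ * δ g' + g' * δ ρ := by rw [h1, hδ1]
  have h3 : g' * g' * δ ρ = 0 := by
    linear_combination (-g') * h2 - hc + δ g' * h1
  exact hδ3 ((mul_eq_zero.1 h3).resolve_left (mul_ne_zero hi' hi'))

end Pool.Agent.H16.RM
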