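import Pool.Agent.H13.Nev.Smt
import Pool.Agent.H13.Hol.Flow

/-!
# Definitions for the ramification theorem

Universal polynomials (coefficients of the form, moving coefficients, solution, matrix), their flow
and Euler derivations; filtrations with bounded roots; weights; Wronskians; main and error terms.
-/

namespace Pool.Agent.H16.RM

open Set Filter Topology Real ValueDistribution MeromorphicOn
open Pool.Agent.H13.Kob Pool.Agent.H13.Nev Pool.Agent.H13.CEV

section universal

variable (N M d : ℕ)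

/-- the variables: coefficients `c_α`, moving coefficients `λ_ij`, solution `y_j`, matrix `B_lj` -/
abbrev Var : Type := mons N d ⊕ ((Fin N × Fin M) ⊕ (Fin M ⊕ (Fin M × Fin M)))

/-- universal polynomials -/
abbrev UU : Type := MvPolynomial (Var N M d) ℤ

variable {N M d}

/-- the variable `c_α` -/
noncomputable def vc (α : mons N d) : UU N M d := MvPolynomial.X (Sum.inl α)
/-- the variable `λ_ij` -/
noncomputable def vl (i : Fin N) (j : Fin M) : UU N M d :=
  MvPolynomial.X (Sum.inr (Sum.inl (i, j)))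
/-- the variable `y_j` -/
noncomputable def vy (j : Fin M) : UU N M d := MvPolynomial.X (Sum.inr (Sum.inr (Sum.inl j)))
/-- the variable `B_lj` -/
noncomputable def vB (l j : Fin M) : UU N M d :=
  MvPolynomial.X (Sum.inr (Sum.inr (Sum.inr (l, j))))

/-- the coordinates `∑_j λ_ij y_j` -/
noncomputable def gp (i : Fin N) : UU N M d := ∑ j, vl i j * vy j
/-- their derivatives along `y ↦ y B` -/
noncomputable def hp (i : Fin N) : UU N M d := ∑ j, vl i j * ∑ l, vy l * vB l j
/-- the form at the coordinates -/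
noncomputable def GG : UU N M d := ∑ α : mons N d, vc α * ∏ i, gp i ^ α.1 i
/-- the minors -/
noncomputable def minor (i i' : Fin N) : UU N M d := gp i * hp i' - gp i' * hp i

/-- the derivation of the flow `y ↦ y B` -/
noncomputable def XB : Derivation ℤ (UU N M d) (UU N M d) :=
  MvPolynomial.mkDerivation ℤ fun s => match s with
    | Sum.inl _ => 0
    | Sum.inr (Sum.inl _) => 0
    | Sum.inr (Sum.inr (Sum.inl j)) => ∑ l, vy l * vB l j
    | Sum.inr (Sum.inr (Sum.inr _)) => 0

/-- the Euler derivation in `y` -/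
noncomputable def EE : Derivation ℤ (UU N M d) (UU N M d) :=
  MvPolynomial.mkDerivation ℤ fun s => match s with
    | Sum.inl _ => 0
    | Sum.inr (Sum.inl _) => 0
    | Sum.inr (Sum.inr (Sum.inl j)) => vy j
    | Sum.inr (Sum.inr (Sum.inr _)) => 0

/-- the iterated derivatives of the form along the flow -/
noncomputable def FF (k : ℕ) : UU N M d := XB^[k] GG

/-- a point -/
def pt {R : Type*} (x : mons N d → R) (lam : Fin N → Fin M → R) (y : Fin M → R)
    (B : Fin M → Fin M → R) : Var N M d → R :=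
  Sum.elim x (Sum.elim (fun p => lam p.1 p.2) (Sum.elim y fun p => B p.1 p.2))

/-- the form with coefficients `x` at `g` -/
def form {R : Type*} [CommRing R] (x : mons N d → R) (g : Fin N → R) : R :=
  ∑ α : mons N d, x α * ∏ i, g i ^ α.1 i

end universal

section fields

/-- roots of polynomials of degree `e` over `B m` lie in `B (2 * e * m)` -/
def AlgF (F : Type*) [Field F] (B : ℕ → Set F) : Prop :=
  ∀ (e m : ℕ) (c : ℕ → F) (x : F), (∀ i ≤ e, c i ∈ B m) → c e ≠ 0 →
    ∑ i ∈ Finset.range (e + 1), c i * x ^ i = 0 → x ∈ B (2 * e * m)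

/-- weights on a field with a derivation -/
structure Wt (K : Type*) [Field K] (D : K → K) (W : ℕ → Set K) : Prop where
  dadd : ∀ x y, D (x + y) = D x + D y
  dmul : ∀ x y, D (x * y) = x * D y + D x * y
  zero : ∀ j, (0 : K) ∈ W j
  one : (1 : K) ∈ W 0
  add : ∀ {j x y}, x ∈ W j → y ∈ W j → x + y ∈ W j
  neg : ∀ {j x}, x ∈ W j → -x ∈ W j
  mul : ∀ {i j x y}, x ∈ W i → y ∈ W j → x * y ∈ W (i + j)
  der : ∀ {j x}, x ∈ W j → D x ∈ W (j + 1)
  ninv : ∀ n : ℕ, ((n : K))⁻¹ ∈ W 0

/-- the connection `D + g` -/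
def nab {K : Type*} [Field K] (D : K → K) (g : K) (x : K) : K := D x + g * x

/-- the `y_j` satisfy the equation `∇^M y = ∑_l a_l ∇^l y`, `∇ = D + g` -/
def IsA {K : Type*} [Field K] (D : K → K) (g : K) {M : ℕ} (y a : Fin M → K) : Prop :=
  ∀ j, (nab D g)^[M] (y j) = ∑ l : Fin M, a l * (nab D g)^[l] (y j)

/-- the matrix of the `∇^i y_j` -/
def Wm {K : Type*} [Field K] (D : K → K) (g : K) {M : ℕ} (y : Fin M → K) :
    Matrix (Fin M) (Fin M) K :=
  Matrix.of fun i j => (nab D g)^[i] (y j)

/-- linear independence over the constants -/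
def Ind {K : Type*} [Field K] (D : K → K) {M : ℕ} (f : Fin M → K) : Prop :=
  ∀ a : Fin M → K, (∀ j, D (a j) = 0) → ∑ j, a j * f j = 0 → ∀ j, a j = 0

/-- derivations of `L` which kill `K` -/
def IsDer {L : Type*} [Field L] (K : Subfield L) (δ : L →+ L) : Prop :=
  (∀ a b, δ (a * b) = a * δ b + b * δ a) ∧ ∀ c ∈ K, δ c = 0

/-- matrices `v` with `δ w = w v + s w` for a derivation `δ` which kills `K` and a scalar `s` -/
def VS {L : Type*} [Field L] (K : Subfield L) {M : ℕ} (w : Fin M → Fin M → L) :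
    Set (Fin M × Fin M → L) :=
  {v | ∃ (δ : L →+ L) (s : L), IsDer K δ ∧
    ∀ i j, δ (w i j) = ∑ l, w i l * v (l, j) + s * w i j}

/-- the ultrapower of a field -/
abbrev LL (F : Type) [Field F] : Type := Germ (hyperfilter ℕ : Filter ℕ) F

/-- bounded germs -/
def KB {F : Type} [Field F] (B : ℕ → ℕ → Set F) : Set (LL F) :=
  {x | ∃ (m : ℕ) (u : ℕ → F), x = (u : LL F) ∧ ∀ᶠ c in (hyperfilter ℕ : Filter ℕ), u c ∈ B c m}

end fields

section wronskian

/-- the constants of the field of quotients of entire functions -/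
noncomputable def cK (c : ℂ) : KN := io (algebraMap ℂ EN c)

/-- composition with the exponential function -/
noncomputable def expE (f : EN) : EN :=
  ⟨fun z => f.1 (Complex.exp z), f.2.comp Complex.differentiable_exp⟩

/-- the Wronskian -/
noncomputable def Wr {M : ℕ} (y : Fin M → EN) : EN :=
  (Matrix.of fun i j : Fin M => dE^[i] (y j)).det

/-- elements of moderate growth whose proximity function is an error term -/
def Lam (M S : ℝ → ℝ) : Set KN :=
  {x | (∃ m, x ∈ BB M S m) ∧ ∃ C : ℝ, 0 ≤ C ∧ ∀ᶠ r in ff, proximity (rep x) ⊤ r ≤ C * S r}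

/-- elements with a pole of order at most `j` at `z` -/
def Loc (z : ℂ) (j : ℕ) : Set KN :=
  {x | ((-(j : ℤ) : ℤ) : WithTop ℤ) ≤ meromorphicOrderAt (rep x) z}

/-- the main term -/
noncomputable def MMW {N M : ℕ} (y : Fin M → EN) (q : Fin M → Fin N → EN) (r : ℝ) : ℝ :=
  logCounting (logDeriv (Wr y).1) ⊤ r + ∑ j, characteristic (vec (q j)) ⊤ r

/-- the error term -/
noncomputable def SSW {N M : ℕ} (y : Fin M → EN) (q : Fin M → Fin N → EN) (r : ℝ) : ℝ :=
  1 + log r + log⁺ (TC y r) + log⁺ (MMW y q r)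

end wronskian

end Pool.Agent.H16.RM
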