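import Pool.Agent.H16.RM.Defs

/-!
# Main and error terms for linear differential equations
-/

namespace Pool.Agent.H16.RM

open Pool.Agent.H13.Nev Real

/-- the characteristics of the coefficients `p_l / p_m` of the equations
`∑_{l ≤ m i} p i l * g_i^(l) = 0` -/
noncomputable def MMO {N : ℕ} (m : Fin N → ℕ) (p : Fin N → ℕ → EN) (r : ℝ) : ℝ :=
  ∑ i, ∑ l ∈ Finset.range (m i), T (io (p i l) / io (p i (m i))) r

/-- the error term -/
noncomputable def SSO {N : ℕ} (m : Fin N → ℕ) (p : Fin N → ℕ → EN) (r : ℝ) : ℝ :=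
  1 + log r + log⁺ (MMO m p r)

end Pool.Agent.H16.RM
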