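import Pool.Agent.H13.CEV.Extend

/-!
# A derivation which does not kill a transcendental element

PROOF. `L` is a field of characteristic zero, `K → L` a field extension, `x ∈ L` transcendental over
`K`. By `exists_isTranscendenceBasis_superset` (for `{x}`, algebraically independent) there is a
transcendence basis `t ⊆ L` of `L / K` with `x ∈ t`. Put `R = MvPolynomial t K` and make `L` an
`R`-algebra by `φ = MvPolynomial.aeval (fun s : t => (s : L))` (a local instance
`φ.toRingHom.toAlgebra`, with `IsScalarTower K R L`), as in `H13/Hol/Alg.lean`, `exists_der_two`,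
which is the model of this file (there `t` is `Fin 2`). `φ` is injective (algebraic independence),
so `FractionRing R` acts on `L` (`FractionRing.liftAlgebra`, `FractionRing.isScalarTower_liftAlgebra`).
`L` is algebraic over `R` (`IsTranscendenceBasis.isAlgebraic` gives algebraicity over
`Algebra.adjoin K t`; the range of `φ` is this subalgebra; or `IsTranscendenceBasis.isAlgebraic_field`),
hence over `FractionRing R`, hence `Algebra.IsSeparable (FractionRing R) L` (characteristic zero:
`Algebra.IsAlgebraic.isSeparable_of_perfectField`, `PerfectField.ofCharZero`). Now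
`Algebra.FormallyEtale.of_isSeparable` (file Mathlib/RingTheory/Etale/Field.lean) gives
`FormallyEtale (FractionRing R) L`, so `FormallySmooth`; `Algebra.FormallySmooth R (FractionRing R)`
is `Algebra.FormallySmooth.of_isLocalization (nonZeroDivisors _)`, and
`Algebra.FormallySmooth.comp R (FractionRing R) L` gives `FormallySmooth R L`. Apply
`Pool.Agent.H13.CEV.exists_derivation` to `MvPolynomial.pderiv (R := K) ⟨x, _⟩` (as additive map on
`R`). The resulting `δ` satisfies `δ (φ r) = φ (pderiv r)`: for `r = C c` it gives
`δ (algebraMap K L c) = 0`, for `r = X ⟨x, _⟩` it gives `δ x = φ 1 = 1 ≠ 0`.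
-/

namespace Pool.Agent.H16.RM

theorem exists_der {K L : Type*} [Field K] [Field L] [Algebra K L] [CharZero L] (x : L)
    (hx : Transcendental K x) : ∃ δ : L →+ L, (∀ a b, δ (a * b) = a * δ b + b * δ a) ∧
      (∀ c : K, δ (algebraMap K L c) = 0) ∧ δ x ≠ 0 := by
  classical
  have hind : AlgebraicIndepOn K id ({x} : Set L) := algebraicIndependent_unique_type_iff.mpr hx
  obtain ⟨t, hxt, ht⟩ := exists_isTranscendenceBasis_superset hind
  have hxt' : x ∈ t := hxt rfl
  let φ : MvPolynomial t K →ₐ[K] L := MvPolynomial.aeval (fun s : t => (s : L))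
  let _ : Algebra (MvPolynomial t K) L := φ.toRingHom.toAlgebra
  have hφ : ∀ r, algebraMap (MvPolynomial t K) L r = φ r := fun _ => rfl
  have : IsScalarTower K (MvPolynomial t K) L := IsScalarTower.of_algebraMap_eq (by
    intro c
    rw [hφ]
    exact (φ.commutes c).symm)
  have hinj : Function.Injective (algebraMap (MvPolynomial t K) L) := ht.1
  have halg : Algebra.IsAlgebraic (MvPolynomial t K) L := by
    have h1 : Algebra.IsAlgebraic (Algebra.adjoin K (Set.range ((↑) : t → L))) L := ht.isAlgebraic
    refine Algebra.IsAlgebraic.of_ringHom_of_comp_eq ht.1.aevalEquiv.toRingEquiv (RingHom.id L)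
      ht.1.aevalEquiv.surjective Function.injective_id ?_
    ext r
    · rfl
    · rfl
  have : FaithfulSMul (MvPolynomial t K) L :=
    (faithfulSMul_iff_algebraMap_injective _ _).mpr hinj
  let _ : Algebra (FractionRing (MvPolynomial t K)) L :=
    FractionRing.liftAlgebra (MvPolynomial t K) L
  have : IsScalarTower (MvPolynomial t K) (FractionRing (MvPolynomial t K)) L :=
    FractionRing.isScalarTower_liftAlgebra _ _
  have : CharZero (FractionRing (MvPolynomial t K)) := by
    have : CharZero (MvPolynomial t K) := by
      have h0 : Function.Injective ((algebraMap (MvPolynomial t K) L) : _ → L) := hinj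
      exact ⟨fun m n h => by
        have h2 := congrArg (algebraMap (MvPolynomial t K) L) h
        rw [map_natCast, map_natCast] at h2
        exact Nat.cast_injective h2⟩
    infer_instance
  have : Algebra.IsAlgebraic (FractionRing (MvPolynomial t K)) L :=
    (IsFractionRing.comap_isAlgebraic_iff (A := MvPolynomial t K)).mp halg
  have : Algebra.FormallyEtale (FractionRing (MvPolynomial t K)) L :=
    Algebra.FormallyEtale.of_isSeparable _ _
  have : Algebra.FormallySmooth (MvPolynomial t K) (FractionRing (MvPolynomial t K)) :=
    Algebra.FormallySmooth.of_isLocalization (nonZeroDivisors _)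
  have : Algebra.FormallySmooth (MvPolynomial t K) L :=
    Algebra.FormallySmooth.comp _ (FractionRing (MvPolynomial t K)) _
  obtain ⟨D, hD, hDr⟩ := Pool.Agent.H13.CEV.exists_derivation (R := MvPolynomial t K) (K := L)
    (MvPolynomial.pderiv (R := K) (⟨x, hxt'⟩ : t)).toLinearMap.toAddMonoidHom (by
      intro a b
      show MvPolynomial.pderiv _ (a * b) = a * MvPolynomial.pderiv _ b
        + b * MvPolynomial.pderiv _ a
      rw [Derivation.leibniz, smul_eq_mul, smul_eq_mul])
  have hDr' : ∀ r, D (φ r) = φ (MvPolynomial.pderiv (⟨x, hxt'⟩ : t) r) := hDr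
  refine ⟨D, hD, ?_, ?_⟩
  · intro c
    have h1 := hDr' (MvPolynomial.C c)
    rw [MvPolynomial.pderiv_C, map_zero] at h1
    have h2 : φ (MvPolynomial.C c) = algebraMap K L c := φ.commutes c
    rw [h2] at h1
    exact h1
  · have h1 := hDr' (MvPolynomial.X ⟨x, hxt'⟩)
    rw [MvPolynomial.pderiv_X_self, map_one] at h1
    have h2 : φ (MvPolynomial.X ⟨x, hxt'⟩) = x := by
      show MvPolynomial.aeval (fun s : t => (s : L)) (MvPolynomial.X ⟨x, hxt'⟩) = x
      rw [MvPolynomial.aeval_X]
    rw [h2] at h1
    rw [h1]
    exact one_ne_zero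

end Pool.Agent.H16.RM
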