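import Pool.Agent.H16.RM.Defs
import Pool.Agent.H13.Nev.Orb

/-!
# Periodic curves of slow growth are constant

PROOF. Put `G i = expE (g i)`. For `a : Fin N → ℂ` let `f = ∑_i algebraMap ℂ EN (a i) * G i`, so
`f z = ∑_i a i * g_i (exp z)`. Claim: `f = 0` or `f` has no zeros. If `f ≠ 0`: with
`s = ∑_i ‖a i‖ + 1`, `log ‖f z‖ ≤ log ‖vec G z‖ + log s` where `f z ≠ 0`; averaging over the circle of
radius `r` (`circleAverage_mono_codiscrete`, as in the proof of `orbifold` in `H13/Nev/Orb.lean`, step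
comparison of the characteristic functions) and `EN.jensen f`:
`logCounting f.1 0 r ≤ TC G r + log s + |log ‖trailing coefficient‖| ≤ K' (1 + log r)` eventually in
`ff`. `f` has the period `2 π i`, so `no_zero` (`H13/Nev/Orb.lean`) says that `f` has no zeros.

Apply this, for indices `i, i'`, to `a = G_{i'}(0) e_i - G_i(0) e_{i'}`: `f 0 = 0`, so `f = 0`, i.e.
`g_i(exp z) g_{i'}(1) = g_{i'}(exp z) g_i(1)` for all `z`. Every `u ≠ 0` is `exp (log u)`
(`Complex.exp_log`), and by continuity (`dense_compl_singleton 0`) the identity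
`g_i(u) g_{i'}(1) = g_{i'}(u) g_i(1)` holds for all `u`. Conclude as at the end of the proof of
`orbifold` (conclusion: choose `i₁` with `g_{i₁}(1) ≠ 0`; then `g_{i₁}(u) ≠ 0` for all `u` because `g`
has no zeros, and `g z = (g_{i₁}(z) / g_{i₁}(0)) • g 0`).
-/

namespace Pool.Agent.H16.RM

open Pool.Agent.H13.Nev Real

private lemma per_no_zero {N : ℕ} (g : Fin N → EN) (hg0 : ∀ z, vec g z ≠ 0) {K : ℝ}
    (hK : ∀ᶠ r in ff, TC (fun i => expE (g i)) r ≤ K * (1 + log r)) (a : Fin N → ℂ)
    (f : EN) (hf : ∀ z, f.1 z = ∑ i, a i * (g i).1 (Complex.exp z)) (hf0 : f ≠ 0) (w : ℂ) :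
    f.1 w ≠ 0 := by
  set s : ℝ := ∑ i, ‖a i‖ + 1 with hs
  have hs1 : 1 ≤ s := by
    have : 0 ≤ ∑ i, ‖a i‖ := Finset.sum_nonneg fun i _ => norm_nonneg _
    linarith
  set G : Fin N → EN := fun i => expE (g i) with hG
  have hcmp : ∀ r, 1 ≤ r →
      ValueDistribution.logCounting f.1 0 r + log ‖meromorphicTrailingCoeffAt f.1 0‖ ≤ TC G r + log s := by
    intro r hr
    have hr0 : r ≠ 0 := by linarith
    rw [← EN.jensen f hr0]
    have h1 : circleAverage (fun z => log ‖vec G z‖ + log s) 0 r = TC G r + log s := by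
      rw [circleAverage_fun_add (vec_int G r) (circleIntegrable_const _ _ _), circleAverage_const]
      rfl
    rw [← h1]
    apply circleAverage_mono_codiscrete hr0 (EN.int f r)
      ((vec_int G r).add (circleIntegrable_const _ _ _))
    filter_upwards [eventually_sphere (EN.eventually_ne hf0) r] with z hz
    have h2 : 0 < ‖f.1 z‖ := norm_pos_iff.mpr hz
    have h3 : 0 < ‖vec G z‖ := norm_pos_iff.mpr (hg0 (Complex.exp z))
    show log ‖f.1 z‖ ≤ log ‖vec G z‖ + log s
    rw [← Real.log_mul h3.ne' (by linarith)]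
    apply Real.log_le_log h2
    rw [hf]
    calc ‖∑ i, a i * (g i).1 (Complex.exp z)‖ ≤ ∑ i, ‖a i‖ * ‖vec G z‖ := by
          refine (norm_sum_le _ _).trans (Finset.sum_le_sum fun i _ => ?_)
          rw [norm_mul]
          exact mul_le_mul_of_nonneg_left (norm_le_pi_norm (vec G z) i) (norm_nonneg _)
      _ = (∑ i, ‖a i‖) * ‖vec G z‖ := by rw [Finset.sum_mul]
      _ ≤ s * ‖vec G z‖ := by
          apply mul_le_mul_of_nonneg_right _ (norm_nonneg _)
          linarith
      _ = ‖vec G z‖ * s := mul_comm _ _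
  refine no_zero f hf0 ?_
    (K := |K| + log s + |log ‖meromorphicTrailingCoeffAt f.1 0‖|) ?_ w
  · intro z
    rw [hf, hf, Complex.exp_periodic z]
  · filter_upwards [hK, eventually_one_le_ff] with r h1 hr
    have h2 := hcmp r hr
    have h3 := neg_abs_le (log ‖meromorphicTrailingCoeffAt f.1 0‖)
    have h4 := abs_nonneg (log ‖meromorphicTrailingCoeffAt f.1 0‖)
    have h5 := Real.log_nonneg hr
    have h6 := Real.log_nonneg hs1
    have h7 : K * (1 + log r) ≤ |K| * (1 + log r) :=
      mul_le_mul_of_nonneg_right (le_abs_self K) (by linarith)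
    have h8 := mul_nonneg h6 h5
    have h9 := mul_nonneg h4 h5
    nlinarith

private lemma per_minor {N : ℕ} (g : Fin N → EN) (hg0 : ∀ z, vec g z ≠ 0) {K : ℝ}
    (hK : ∀ᶠ r in ff, TC (fun i => expE (g i)) r ≤ K * (1 + log r)) (i i' : Fin N) (z : ℂ) :
    (g i).1 (Complex.exp z) * (g i').1 1 = (g i').1 (Complex.exp z) * (g i).1 1 := by
  classical
  set a : Fin N → ℂ := Pi.single i ((g i').1 1) - Pi.single i' ((g i).1 1) with ha
  set f : EN := ∑ k, algebraMap ℂ EN (a k) * expE (g k) with hfdef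
  have hf : ∀ z, f.1 z = ∑ k, a k * (g k).1 (Complex.exp z) := by
    intro z
    have h1 : f.1 z = ev z f := rfl
    rw [h1, hfdef, map_sum]
    apply Finset.sum_congr rfl
    intro k _
    rw [map_mul]
    rfl
  have hf2 : ∀ z, f.1 z = (g i').1 1 * (g i).1 (Complex.exp z) -
      (g i).1 1 * (g i').1 (Complex.exp z) := by
    intro z
    rw [hf z, ha]
    simp [sub_mul, Finset.sum_sub_distrib, Pi.single_apply]
  have hf0 : f = 0 := by
    by_contra hne
    apply per_no_zero g hg0 hK a f hf hne 0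
    rw [hf2, Complex.exp_zero]
    ring
  have h1 := hf2 z
  rw [hf0] at h1
  have h2 : (0 : EN).1 z = 0 := rfl
  rw [h2] at h1
  linear_combination -h1

theorem const_of_growth {N : ℕ} (g : Fin N → EN) (hg0 : ∀ z, vec g z ≠ 0) {K : ℝ}
    (hK : ∀ᶠ r in ff, TC (fun i => expE (g i)) r ≤ K * (1 + log r)) (z : ℂ) :
    ∃ c : ℂ, vec g z = c • vec g 0 := by
  -- conclusion
  obtain ⟨i₁, hi₁⟩ : ∃ i, (g i).1 1 ≠ 0 := by
    by_contra hcon
    push Not at hcon
    exact hg0 1 (funext hcon)
  have hminor : ∀ i u, (g i).1 u * (g i₁).1 1 = (g i₁).1 u * (g i).1 1 := by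
    intro i
    have h1 : ∀ u, u ≠ 0 → (g i).1 u * (g i₁).1 1 = (g i₁).1 u * (g i).1 1 := by
      intro u hu
      have h2 := per_minor g hg0 hK i i₁ (Complex.log u)
      rwa [Complex.exp_log hu] at h2
    have hcl : IsClosed {u : ℂ | (g i).1 u * (g i₁).1 1 = (g i₁).1 u * (g i).1 1} := by
      apply isClosed_eq
      · exact (g i).2.continuous.mul continuous_const
      · exact (g i₁).2.continuous.mul continuous_const
    have hdense : Dense {u : ℂ | u ≠ 0} := dense_compl_singleton 0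
    intro u
    have : {u : ℂ | (g i).1 u * (g i₁).1 1 = (g i₁).1 u * (g i).1 1} = Set.univ := by
      apply hcl.closure_eq.symm.trans
      exact (hdense.mono fun u hu => h1 u hu).closure_eq
    have h2 : u ∈ {u : ℂ | (g i).1 u * (g i₁).1 1 = (g i₁).1 u * (g i).1 1} := by
      rw [this]; trivial
    exact h2
  have hne : ∀ u, (g i₁).1 u ≠ 0 := by
    intro u h0
    apply hg0 u
    funext i
    have h3 := hminor i u
    rw [h0, zero_mul] at h3
    exact (mul_eq_zero.mp h3).resolve_right hi₁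
  refine ⟨(g i₁).1 z / (g i₁).1 0, ?_⟩
  funext i
  rw [Pi.smul_apply, smul_eq_mul]
  show (g i).1 z = (g i₁).1 z / (g i₁).1 0 * (g i).1 0
  have h1 := hminor i z
  have h2 := hminor i 0
  have h3 := hne 0
  field_simp
  apply mul_right_cancel₀ hi₁
  linear_combination (g i₁).1 0 * h1 - (g i₁).1 z * h2

end Pool.Agent.H16.RM
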