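import Pool.Agent.H16.RM.BTwo
import Pool.Agent.H16.RM.Per

/-!
# The ramification theorem for functions

PROOF of `resA`: as `smt_fun` in `H13/Nev/Final.lean` (the model). Apply `smtW N M d` to
`y' j = ⟨y j, _⟩`, `q' j i = ⟨fun z => q j z i, _⟩`, `g' i = ⟨fun z => g z i, _⟩` (`g` is differentiable as
a sum of products); `Wr y' ≠ 0` by `Wr_ne`, `(Wr y').1 = fun z => det (iteratedDeriv i (y j) z)` by
`Wr_fun`; `MMW y' q' r` is the main term of the statement; `eventually_ff`.

PROOF of `resB`: `C` from `smtB N d`, `m` from `growth_exp N d`. Given `g`, `M`, `y` with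
`span (range y) = span (range of the coordinates of g)`: every `y j` is a linear combination of the
coordinates (`Submodule.subset_span`, `Submodule.mem_span_range_iff_exists_fun`), coefficients `H j i`,
so it is differentiable; every coordinate is a combination of the `y j`, coefficients `v j i`. With
`y'`, `g'` as before (elements of `EN`; `EN.ext'`, `ev` for the two identities), `Wr y' ≠ 0` by
`Wr_ne`, `Wr_fun`. First part: `smtB` and `eventually_ff`. Second part: `growth_exp` and
`const_of_growth` (`vec g' z = g z`).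
-/

namespace Pool.Agent.H16.RM

open Pool.Agent.H13.Kob Pool.Agent.H13.Nev Real Pool.Agent.H13.CEV ValueDistribution

theorem resA (N M d : ℕ) : ∃ C : ℝ, ∀ (e : ℕ) (x : mons N d → ℂ), Good e x →
    (∀ k ≤ M, ∀ a : Fin k → ℕ, ∃ b : Fin k → ℕ, SameType d a b ∧ ∀ j, b j ≤ e) → M ≤ e →
    ∀ (y : Fin M → ℂ → ℂ) (q : Fin M → ℂ → Fin N → ℂ) (g : ℂ → Fin N → ℂ),
    (∀ j, Differentiable ℂ (y j)) → LinearIndependent ℂ y → (∀ j, Differentiable ℂ (q j)) →
    (∀ z, g z = ∑ j, y j z • q j z) → (∀ z, g z ≠ 0) →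
    (∀ z, MvPolynomial.eval (g z) (Fm x) = 0) →
    ∃ K : ℝ, MeasureTheory.volume {r : ℝ | 1 ≤ r ∧ ¬ circleAverage (fun z => log ‖g z‖) 0 r
      ≤ C * (logCounting (logDeriv fun z =>
            (Matrix.of fun i j : Fin M => iteratedDeriv i (y j) z).det) ⊤ r
          + ∑ j, characteristic (q j) ⊤ r)
        + K * (1 + log r + log⁺ (circleAverage (fun z => log ‖fun j => y j z‖) 0 r))} < ⊤ := by
  obtain ⟨C, _, hsmt⟩ := smtW N M d
  refine ⟨C, fun e x hx he hMe y q g hyd hyi hq hg hg0 hgF => ?_⟩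
  have hgd : Differentiable ℂ g := by
    have h1 : g = fun z => ∑ j, y j z • q j z := funext hg
    rw [h1]
    exact Differentiable.fun_sum fun j _ => (hyd j).smul (hq j)
  have hW : Wr (fun j => (⟨y j, hyd j⟩ : EN)) ≠ 0 := Wr_ne _ hyi
  obtain ⟨K, _, hmain⟩ := hsmt e x hx he hMe (fun j => ⟨y j, hyd j⟩)
    (fun j i => ⟨fun z => q j z i, (differentiable_pi.mp (hq j)) i⟩)
    (fun i => ⟨fun z => g z i, (differentiable_pi.mp hgd) i⟩) hW (by
      intro i
      apply EN.ext'
      intro z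
      show g z i = ev z _
      rw [map_sum, hg z, Finset.sum_apply]
      rfl) hg0 hgF
  refine ⟨K, eventually_ff.mp ?_⟩
  filter_upwards [hmain] with r hr
  have h1 : (Wr (fun j => (⟨y j, hyd j⟩ : EN))).1 = fun z =>
      (Matrix.of fun i j : Fin M => iteratedDeriv i (y j) z).det :=
    funext fun z => Wr_fun _ z
  rw [MMW, h1] at hr
  exact hr

theorem resB (N d : ℕ) : ∃ (C : ℝ) (m : ℕ), ∀ (e : ℕ) (x : mons N d → ℂ), Good e x →
    (∀ k ≤ N, ∀ a : Fin k → ℕ, ∃ b : Fin k → ℕ, SameType d a b ∧ ∀ j, b j ≤ e) → N ≤ e →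
    ∀ g : ℂ → Fin N → ℂ, Differentiable ℂ g → (∀ z, g z ≠ 0) →
    (∀ z, MvPolynomial.eval (g z) (Fm x) = 0) →
    ∀ (M : ℕ) (y : Fin M → ℂ → ℂ), LinearIndependent ℂ y →
    Submodule.span ℂ (Set.range y) = Submodule.span ℂ (Set.range fun (i : Fin N) z => g z i) →
    (∃ K : ℝ, MeasureTheory.volume {r : ℝ | 1 ≤ r ∧ ¬ circleAverage (fun z => log ‖g z‖) 0 r
      ≤ C * logCounting (logDeriv fun z =>
            (Matrix.of fun i j : Fin M => iteratedDeriv i (y j) z).det) ⊤ r
        + K * (1 + log r + log⁺ (circleAverage (fun z => log ‖g z‖) 0 r))} < ⊤) ∧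
    ((∀ z, (Matrix.of fun i j : Fin M => iteratedDeriv i (y j) z).det = 0 →
        (m : ℕ∞) ≤ analyticOrderAt
          (fun z => (Matrix.of fun i j : Fin M => iteratedDeriv i (y j) z).det) z) →
      ∀ z, ∃ c : ℂ, g z = c • g 0) := by
  obtain ⟨C, _, hB⟩ := smtB N d
  obtain ⟨m, hG⟩ := growth_exp N d
  refine ⟨C, m, fun e x hx he hNe g hgd hg0 hgF M y hyi hspan => ?_⟩
  have hgi : ∀ i, Differentiable ℂ (fun z => g z i) := differentiable_pi.mp hgd
  -- the coefficients of the `y j`
  have hH : ∀ j, ∃ c : Fin N → ℂ, ∑ i, c i • (fun z => g z i) = y j := by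
    intro j
    have h1 : y j ∈ Submodule.span ℂ (Set.range y) := Submodule.subset_span ⟨j, rfl⟩
    rw [hspan] at h1
    exact (Submodule.mem_span_range_iff_exists_fun ℂ).mp h1
  choose H hHy using hH
  have hv : ∀ i : Fin N, ∃ c : Fin M → ℂ, ∑ j, c j • y j = fun z => g z i := by
    intro i
    have h1 : (fun z => g z i) ∈ Submodule.span ℂ (Set.range fun (i : Fin N) z => g z i) :=
      Submodule.subset_span ⟨i, rfl⟩
    rw [← hspan] at h1
    exact (Submodule.mem_span_range_iff_exists_fun ℂ).mp h1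
  choose v hvg using hv
  have hyd : ∀ j, Differentiable ℂ (y j) := by
    intro j
    have h1 : y j = fun z => ∑ i, H j i • g z i := by
      rw [← hHy j]
      funext z
      simp only [Finset.sum_apply, Pi.smul_apply]
    rw [h1]
    exact Differentiable.fun_sum fun i _ => (hgi i).const_smul (H j i)
  set y' : Fin M → EN := fun j => ⟨y j, hyd j⟩ with hy'
  set g' : Fin N → EN := fun i => ⟨fun z => g z i, hgi i⟩ with hg'
  have hW : Wr y' ≠ 0 := Wr_ne _ hyi
  have hgy : ∀ i, g' i = ∑ j, y' j * algebraMap ℂ EN ((fun j i => v i j) j i) := by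
    intro i
    apply EN.ext'
    intro z
    have h1 : (∑ j, y' j * algebraMap ℂ EN ((fun j i => v i j) j i)).1 z =
        ev z (∑ j, y' j * algebraMap ℂ EN ((fun j i => v i j) j i)) := rfl
    rw [h1, map_sum]
    have h2 : (g' i).1 z = (fun z => g z i) z := rfl
    rw [h2, ← hvg i]
    simp only [Finset.sum_apply, Pi.smul_apply, smul_eq_mul]
    apply Finset.sum_congr rfl
    intro j _
    rw [map_mul, mul_comm]
    rfl
  have hyg : ∀ j, y' j = ∑ i, algebraMap ℂ EN (H j i) * g' i := by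
    intro j
    apply EN.ext'
    intro z
    have h1 : (∑ i, algebraMap ℂ EN (H j i) * g' i).1 z =
        ev z (∑ i, algebraMap ℂ EN (H j i) * g' i) := rfl
    rw [h1, map_sum]
    have h2 : (y' j).1 z = y j z := rfl
    rw [h2, ← hHy j]
    simp only [Finset.sum_apply, Pi.smul_apply, smul_eq_mul]
    apply Finset.sum_congr rfl
    intro i _
    rw [map_mul]
    rfl
  have hWf : (Wr y').1 = fun z =>
      (Matrix.of fun i j : Fin M => iteratedDeriv i (y j) z).det :=
    funext fun z => Wr_fun _ z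
  refine ⟨?_, ?_⟩
  · obtain ⟨K, _, hmain⟩ := hB e x hx he hNe M y' (fun j i => v i j) H g' hW hgy hyg hg0 hgF
    refine ⟨K, eventually_ff.mp ?_⟩
    filter_upwards [hmain] with r hr
    rw [hWf] at hr
    exact hr
  · intro hm z
    obtain ⟨K, _, hK⟩ := hG e x hx he hNe M y' (fun j i => v i j) H g' hW hgy hyg hg0 hgF (by
      rw [hWf]
      exact hm)
    exact const_of_growth g' hg0 hK z

end Pool.Agent.H16.RM
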