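import Pool.Agent.H16.RM.SmtO

/-!
# Growth of entire curves which satisfy linear differential equations, for functions

PROOF. As `smt_fun` in `H13/Nev/Final.lean`: apply `smtO` to `g' i = ⟨fun z => g z i, _⟩`,
`p' i l = ⟨p i l, _⟩`; `(dE^[l] f).1 = iteratedDeriv l f.1` (induction, `iteratedDeriv_succ`; it is
inside the file WNe, copy it) turns `hode` into the identity in `EN` (`EN.ext'`, `ev z`).
`T (io (p' i l) / io (p' i (m i))) r = characteristic (fun z => p i l z / p i (m i) z) ⊤ r` for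
`r ≥ 1` by `T_congr` and `rep_frac` (`p' i (m i) ≠ 0`). `eventually_ff`.
-/

namespace Pool.Agent.H16.RM

open Pool.Agent.H13.Kob Pool.Agent.H13.Nev Real Pool.Agent.H13.CEV ValueDistribution

private lemma FinO_dE (f : EN) (i : ℕ) : (dE^[i] f).1 = iteratedDeriv i f.1 := by
  induction i with
  | zero =>
    rw [iteratedDeriv_zero]
    rfl
  | succ i ih =>
    rw [Function.iterate_succ_apply', iteratedDeriv_succ, ← ih]
    rfl

theorem resO (N M d : ℕ) : ∃ C : ℝ, ∀ (e : ℕ) (x : mons N d → ℂ), Good e x →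
    (∀ k ≤ (N * M) * (N * M), ∀ a : Fin k → ℕ, ∃ b : Fin k → ℕ, SameType d a b ∧ ∀ j, b j ≤ e) →
    (N * M) * (N * M) ≤ e →
    ∀ g : ℂ → Fin N → ℂ, Differentiable ℂ g → (∀ z, g z ≠ 0) →
    (∀ z, MvPolynomial.eval (g z) (Fm x) = 0) →
    ∀ (m : Fin N → ℕ) (p : Fin N → ℕ → ℂ → ℂ), (∀ i, m i ≤ M) →
    (∀ i l, Differentiable ℂ (p i l)) → (∀ i, ∃ z, p i (m i) z ≠ 0) →
    (∀ i z, ∑ l ∈ Finset.range (m i + 1), p i l z * iteratedDeriv l (fun z => g z i) z = 0) →
    ∃ K : ℝ, MeasureTheory.volume {r : ℝ | 1 ≤ r ∧ ¬ circleAverage (fun z => log ‖g z‖) 0 r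
      ≤ C * ∑ i, ∑ l ∈ Finset.range (m i), characteristic (fun z => p i l z / p i (m i) z) ⊤ r
        + K * (1 + log r)} < ⊤ := by
  obtain ⟨C, _, hsmt⟩ := smtO N M d
  refine ⟨C, fun e x hx he hNe g hgd hg0 hgF m p hm hp hp0 hode => ?_⟩
  set g' : Fin N → EN := fun i => ⟨fun z => g z i, (differentiable_pi.mp hgd) i⟩ with hg'
  set p' : Fin N → ℕ → EN := fun i l => ⟨p i l, hp i l⟩ with hp'
  have hne : ∀ i, p' i (m i) ≠ 0 := by
    intro i h
    obtain ⟨z, hz⟩ := hp0 i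
    apply hz
    have h1 : p i (m i) z = (p' i (m i)).1 z := rfl
    rw [h1, h]
    rfl
  have hode' : ∀ i, ∑ l ∈ Finset.range (m i + 1), p' i l * dE^[l] (g' i) = 0 := by
    intro i
    apply EN.ext'
    intro z
    have h1 : (∑ l ∈ Finset.range (m i + 1), p' i l * dE^[l] (g' i)).1 z =
        ev z (∑ l ∈ Finset.range (m i + 1), p' i l * dE^[l] (g' i)) := rfl
    rw [h1, map_sum, EN.zero_apply, ← hode i z]
    apply Finset.sum_congr rfl
    intro l _
    rw [map_mul, ev_apply, ev_apply, FinO_dE]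
  obtain ⟨K, _, hmain⟩ := hsmt e x hx he hNe m p' g' hm hne hode' hg0 hgF
  refine ⟨K, eventually_ff.mp ?_⟩
  filter_upwards [hmain, eventually_one_le_ff] with r hr h1
  have hM : MMO m p' r = ∑ i, ∑ l ∈ Finset.range (m i),
      characteristic (fun z => p i l z / p i (m i) z) ⊤ r := by
    unfold MMO
    refine Finset.sum_congr rfl fun i _ => Finset.sum_congr rfl fun l _ => ?_
    exact T_congr (rep_frac (p' i l) (p' i (m i)) (hne i)) h1
  rw [hM] at hr
  exact hr

end Pool.Agent.H16.RM
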