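import Pool.Agent.H16.RM.TayZ

/-!
# A fundamental matrix at a suitable point

PROOF. The finitely many entire functions `de (A i j)`, `de q` are not zero (`de_ne`), so there is a
point `z` where none of them vanishes (`EN.eventually_ne`, `eventually_all` and `Eventually.exists`
for the filter `codiscrete ℂ`). Write `σ = sigZ z`. By `sigZ_int` choose `α i j`, `β` in `ℂ⟦X⟧` with
`σ (A i j) = jo (α i j)`, `σ q = jo β` and put `a i j = α i j - if i = j then β else 0`.
`Pool.Agent.H13.Hol.exists_fundamental a` gives `Ψ` over `ℂ⟦X⟧` with `d/dX Ψ = a Ψ` and unit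
determinant. `Φ i j = jo (Ψ i j)`: `DL (Φ i j) = ∑_l jo (a i l) * Φ l j = ∑_l σ (A i l) * Φ l j
- σ q * Φ i j` (`DL_jo`), `det Φ = jo (det Ψ) ≠ 0` (`RingHom.map_det`, a unit is not zero, `jo_inj`).
Let `W i j = σ (w i j)` (`M × s`), so `DL W = ã W` with `ã = jo ∘ a` (`sigZ_DK` and the equation for
`w`), and `U = Φ⁻¹ W`, i.e. `Φ U = W` (`Matrix.mul_nonsing_inv`). Then
`ã W = DL (Φ U) = (DL Φ) U + Φ DL U = ã Φ U + Φ DL U = ã W + Φ DL U`, so `Φ (DL U) = 0` and
`DL U = 0` entrywise (`Matrix.eq_zero_of_mulVec_eq_zero` for the columns). So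
`U k j = jo (C (C0 k j))` by `DL_const`.
-/

namespace Pool.Agent.H16.RM

open Pool.Agent.H13.Nev PowerSeries

theorem exists_fund {M s : ℕ} (A : Fin M → Fin M → KN) (q : KN) (w : Fin M → Fin s → KN)
    (hw : ∀ i j, DK (w i j) = ∑ l, A i l * w l j - q * w i j) :
    ∃ (z : ℂ) (Φ : Fin M → Fin M → KL) (C0 : Fin M → Fin s → ℂ), (Matrix.of Φ).det ≠ 0 ∧
      (∀ i j, DL (Φ i j) = ∑ l, sigZ z (A i l) * Φ l j - sigZ z q * Φ i j) ∧
      ∀ i j, sigZ z (w i j) = ∑ k, Φ i k * jo (C (C0 k j)) := by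
  classical
  have h1 : ∀ᶠ z in Filter.codiscrete ℂ, (∀ i j, (de (A i j)).1 z ≠ 0) ∧ (de q).1 z ≠ 0 :=
    (Filter.eventually_all.2 fun i => Filter.eventually_all.2 fun j =>
      EN.eventually_ne (de_ne (A i j))).and (EN.eventually_ne (de_ne q))
  obtain ⟨z, hzA, hzq⟩ := h1.exists
  choose α hα using fun i j => sigZ_int z (A i j) (hzA i j)
  obtain ⟨β, hβ⟩ := sigZ_int z q hzq
  let a : Fin M → Fin M → ℂ⟦X⟧ := fun i j => α i j - if i = j then β else 0
  obtain ⟨Ψ, hΨ, -, hdet, -⟩ := Pool.Agent.H13.Hol.exists_fundamental a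
  let Φ : Fin M → Fin M → KL := fun i j => jo (Ψ i j)
  have hsum : ∀ (i : Fin M) (v : Fin M → KL),
      ∑ l, jo (a i l) * v l = ∑ l, sigZ z (A i l) * v l - sigZ z q * v i := by
    intro i v
    have h2 : ∀ l, jo (a i l) * v l = sigZ z (A i l) * v l -
        (if i = l then sigZ z q * v l else 0) := by
      intro l
      by_cases h : i = l
      · simp only [a, if_pos h, map_sub, hα, hβ, sub_mul]
      · simp only [a, if_neg h, sub_zero, hα]
    rw [Finset.sum_congr rfl fun l _ => h2 l, Finset.sum_sub_distrib, Finset.sum_ite_eq,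
      if_pos (Finset.mem_univ i)]
  have hDΦ : ∀ i j, DL (Φ i j) = ∑ l, jo (a i l) * Φ l j := by
    intro i j
    show DL (jo (Ψ i j)) = _
    rw [DL_jo, hΨ, map_sum]
    exact Finset.sum_congr rfl fun l _ => map_mul _ _ _
  have hdetΦ : (Matrix.of Φ).det ≠ 0 := by
    have h2 : Matrix.of Φ = jo.mapMatrix (Matrix.of Ψ) := by
      ext i j
      rfl
    rw [h2, ← RingHom.map_det]
    intro h3
    exact hdet.ne_zero (jo_inj (by rw [h3, map_zero]))
  let W : Matrix (Fin M) (Fin s) KL := Matrix.of fun i j => sigZ z (w i j)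
  let U : Matrix (Fin M) (Fin s) KL := (Matrix.of Φ)⁻¹ * W
  have hU : Matrix.of Φ * U = W := by
    show Matrix.of Φ * ((Matrix.of Φ)⁻¹ * W) = W
    rw [← Matrix.mul_assoc, Matrix.mul_nonsing_inv _ (isUnit_iff_ne_zero.2 hdetΦ),
      Matrix.one_mul]
  have hUe : ∀ i j, sigZ z (w i j) = ∑ k, Φ i k * U k j := by
    intro i j
    have h2 := congrFun (congrFun hU i) j
    rw [Matrix.mul_apply] at h2
    exact h2.symm
  have hDW : ∀ i j, DL (sigZ z (w i j)) = ∑ l, jo (a i l) * sigZ z (w l j) := by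
    intro i j
    rw [← sigZ_DK, hw, map_sub, map_sum, map_mul, hsum]
    simp only [map_mul]
  have hDU : ∀ k j, DL (U k j) = 0 := by
    intro k j
    have h2 : (Matrix.of Φ).mulVec (fun k => DL (U k j)) = 0 := by
      funext i
      show ∑ k, Φ i k * DL (U k j) = 0
      have h3 : DL (∑ k, Φ i k * U k j) =
          ∑ k, Φ i k * DL (U k j) + ∑ l, jo (a i l) * sigZ z (w l j) := by
        rw [map_sum]
        simp only [DL_mul, Finset.sum_add_distrib, hDΦ, hUe, Finset.sum_mul, Finset.mul_sum]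
        rw [Finset.sum_comm (f := fun x i_1 => jo (a i i_1) * Φ i_1 x * U x j)]
        simp only [mul_assoc]
      rw [← hUe, hDW] at h3
      have h4 : ∑ k, Φ i k * DL (U k j) = 0 := by
        rw [right_eq_add] at h3
        exact h3
      exact h4
    exact congrFun (Matrix.eq_zero_of_mulVec_eq_zero hdetΦ h2) k
  choose C0 hC0 using fun k j => DL_const (hDU k j)
  refine ⟨z, Φ, C0, hdetΦ, fun i j => ?_, fun i j => ?_⟩
  · rw [hDΦ, hsum]
  · rw [hUe]
    exact Finset.sum_congr rfl fun k _ => by rw [hC0]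

end Pool.Agent.H16.RM
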