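import Pool.Agent.H16.RM.Coef

/-!
# The gauges of the ramification theorem

PROOFS: as `gauge`, `q_mem` in `H13/Nev/Smt.lean` (the model), with `MMW`, `SSW` (Defs) instead of
`MM`, `SS`. `MMW_nonneg`: `logCounting_nonneg`, `characteristic_nonneg`. `gaugeW`: `log r ≥ 0`,
`posLog_nonneg`. `gaugeT`: `0 ≤ max 0 _`; `log⁺ (max 0 t) ≤ log⁺ t ≤ SSW` (`posLog` vanishes at `0`).
`q_memW`: `T (io (q j i)) r = proximity (q j i).1 ⊤ r ≤ proximity (vec (q j)) ⊤ r
≤ characteristic (vec (q j)) ⊤ r ≤ MMW y q r`, copy the proof of `q_mem`.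
`coefW`: `coef` with `S = SSW y q` (`gaugeT`): `T (a l) r ≤ (M+1) * logCounting + C * SSW
≤ (M+1) * MMW + C * SSW` since the other summands of `MMW` are `≥ 0`; level `M + 1` (cast).
-/

namespace Pool.Agent.H16.RM

open Pool.Agent.H13.Nev ValueDistribution

open Set Filter Topology Real MeromorphicOn Metric Pool.Agent.H13.Kob Pool.Agent.H13.CEV

theorem MMW_nonneg {N M : ℕ} (y : Fin M → EN) (q : Fin M → Fin N → EN) {r : ℝ} (hr : 1 ≤ r) :
    0 ≤ MMW y q r := by
  rw [MMW]
  exact add_nonneg (logCounting_nonneg hr)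
    (Finset.sum_nonneg fun j _ => characteristic_nonneg hr)

private theorem Gau_char_le {N M : ℕ} (y : Fin M → EN) (q : Fin M → Fin N → EN) (j : Fin M)
    {r : ℝ} (hr : 1 ≤ r) : characteristic (vec (q j)) ⊤ r ≤ MMW y q r := by
  have h1 : characteristic (vec (q j)) ⊤ r ≤ ∑ j, characteristic (vec (q j)) ⊤ r :=
    Finset.single_le_sum (f := fun j => characteristic (vec (q j)) ⊤ r)
      (fun j _ => characteristic_nonneg hr) (Finset.mem_univ j)
  have h2 : 0 ≤ logCounting (logDeriv (Wr y).1) ⊤ r := logCounting_nonneg hr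
  rw [MMW]
  linarith

theorem gaugeW {N M : ℕ} (y : Fin M → EN) (q : Fin M → Fin N → EN) :
    Gauge (MMW y q) (SSW y q) where
  hM := by
    filter_upwards [eventually_one_le_ff] with r hr
    exact MMW_nonneg y q hr
  hS := by
    filter_upwards [eventually_one_le_ff] with r hr
    have h1 := Real.log_nonneg hr
    have h2 : 0 ≤ log⁺ (TC y r) := posLog_nonneg
    have h3 : 0 ≤ log⁺ (MMW y q r) := posLog_nonneg
    rw [SSW]
    linarith
  hlog := by
    filter_upwards [eventually_one_le_ff] with r hr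
    have h2 : 0 ≤ log⁺ (TC y r) := posLog_nonneg
    have h3 : 0 ≤ log⁺ (MMW y q r) := posLog_nonneg
    rw [SSW]
    linarith
  hSM := by
    filter_upwards [eventually_one_le_ff] with r hr
    have h1 := Real.log_nonneg hr
    have h2 : 0 ≤ log⁺ (TC y r) := posLog_nonneg
    rw [SSW]
    linarith

theorem gaugeT {N M : ℕ} (y : Fin M → EN) (q : Fin M → Fin N → EN) :
    Gauge (fun r => max 0 (TC y r)) (SSW y q) where
  hM := Eventually.of_forall fun r => le_max_left _ _
  hS := (gaugeW y q).hS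
  hlog := (gaugeW y q).hlog
  hSM := by
    filter_upwards [eventually_one_le_ff] with r hr
    have h1 := Real.log_nonneg hr
    have h2 : 0 ≤ log⁺ (TC y r) := posLog_nonneg
    have h3 : 0 ≤ log⁺ (MMW y q r) := posLog_nonneg
    have h4 : log⁺ (max 0 (TC y r)) ≤ log⁺ (TC y r) := by
      rcases le_total 0 (TC y r) with h | h
      · rw [max_eq_right h]
      · rw [max_eq_left h]
        simpa using h2
    rw [SSW]
    linarith

theorem q_memW {N M : ℕ} (y : Fin M → EN) (q : Fin M → Fin N → EN) (j : Fin M) (i : Fin N) :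
    io (q j i) ∈ BB (MMW y q) (SSW y q) 1 := by
  refine ⟨0, le_rfl, ?_⟩
  filter_upwards [eventually_one_le_ff] with r hr
  rw [T_congr (rep_io (q j i)) hr, characteristic, Pi.add_apply, EN.logCounting_top]
  have h1 : proximity (q j i).1 ⊤ r ≤ proximity (vec (q j)) ⊤ r := by
    rw [proximity_top, proximity_top]
    apply circleAverage_mono
    · exact (EN.mer (q j i)).meromorphicOn.circleIntegrable_posLog_norm
    · exact MeromorphicOn.circleIntegrable_posLog_norm (f := vec (q j))
        fun z _ => ((vec_diff (q j)).analyticAt z).meromorphicAt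
    · intro z _
      exact posLog_le_posLog (norm_nonneg _) (norm_le_pi_norm (vec (q j) z) i)
  have h2 := Gau_char_le y q j hr
  rw [characteristic, Pi.add_apply] at h2
  have h3 := logCounting_nonneg (f := vec (q j)) (e := ⊤) hr
  simp only [Pi.zero_apply]
  push_cast
  linarith

theorem coefW {N M : ℕ} (y : Fin (M + 1) → EN) (q : Fin (M + 1) → Fin N → EN) (hW : Wr y ≠ 0) :
    ∃ (g : KN) (a : Fin (M + 1) → KN), IsA DK g (fun j => io (y j)) a ∧
      ∀ l, a l ∈ BB (MMW y q) (SSW y q) (M + 1) := by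
  obtain ⟨g, a, ha, hl⟩ := coef y hW (gaugeT y q)
  refine ⟨g, a, ha, fun l => ?_⟩
  obtain ⟨C, hC, h⟩ := hl l
  refine ⟨C, hC, ?_⟩
  filter_upwards [h, eventually_one_le_ff] with r h1 hr
  have h2 : logCounting (logDeriv (Wr y).1) ⊤ r ≤ MMW y q r := by
    have h3 : 0 ≤ ∑ j, characteristic (vec (q j)) ⊤ r :=
      Finset.sum_nonneg fun j _ => characteristic_nonneg hr
    rw [MMW]
    linarith
  have h4 : ((M : ℝ) + 1) * logCounting (logDeriv (Wr y).1) ⊤ r ≤ ((M : ℝ) + 1) * MMW y q r :=
    mul_le_mul_of_nonneg_left h2 (by positivity)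
  push_cast
  linarith

end Pool.Agent.H16.RM
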