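import Pool.Agent.H16.RM.DefsO

/-!
# The gauge for linear differential equations

PROOFS. `MMO_nonneg`: `T_nonneg`. `gaugeO`: as `gauge` in `H13/Nev/Smt.lean` (`eventually_one_le_ff`,
`posLog_nonneg`, `Real.log_nonneg`). `coef_memO`: `T (-x) ≤ T x` (`T_neg`), and `T (p_l / p_m) ≤ MMO`
as one summand of a sum of nonnegative terms (`Finset.single_le_sum` twice), constant `C = 0`,
level `1`.
-/

namespace Pool.Agent.H16.RM

open Pool.Agent.H13.Nev Real

theorem MMO_nonneg {N : ℕ} (m : Fin N → ℕ) (p : Fin N → ℕ → EN) {r : ℝ} (hr : 1 ≤ r) :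
    0 ≤ MMO m p r :=
  Finset.sum_nonneg fun i _ => Finset.sum_nonneg fun l _ => T_nonneg _ hr

theorem gaugeO {N : ℕ} (m : Fin N → ℕ) (p : Fin N → ℕ → EN) : Gauge (MMO m p) (SSO m p) where
  hM := by
    filter_upwards [eventually_one_le_ff] with r hr
    exact MMO_nonneg m p hr
  hS := by
    filter_upwards [eventually_one_le_ff] with r hr
    have h1 := Real.log_nonneg hr
    have h2 : 0 ≤ log⁺ (MMO m p r) := posLog_nonneg
    rw [SSO]
    linarith
  hlog := by
    filter_upwards [eventually_one_le_ff] with r hr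
    have h2 : 0 ≤ log⁺ (MMO m p r) := posLog_nonneg
    rw [SSO]
    linarith
  hSM := by
    filter_upwards [eventually_one_le_ff] with r hr
    have h1 := Real.log_nonneg hr
    rw [SSO]
    linarith

theorem coef_memO {N : ℕ} (m : Fin N → ℕ) (p : Fin N → ℕ → EN) (i : Fin N) (l : ℕ)
    (hl : l < m i) : -(io (p i l) / io (p i (m i))) ∈ BB (MMO m p) (SSO m p) 1 := by
  refine ⟨0, le_rfl, ?_⟩
  filter_upwards [eventually_one_le_ff] with r hr
  have h1 := T_neg (io (p i l) / io (p i (m i))) hr
  have h2 : T (io (p i l) / io (p i (m i))) r ≤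
      ∑ l ∈ Finset.range (m i), T (io (p i l) / io (p i (m i))) r :=
    Finset.single_le_sum (f := fun l => T (io (p i l) / io (p i (m i))) r)
      (fun l _ => T_nonneg _ hr) (Finset.mem_range.2 hl)
  have h3 : ∑ l ∈ Finset.range (m i), T (io (p i l) / io (p i (m i))) r ≤ MMO m p r :=
    Finset.single_le_sum
      (f := fun i => ∑ l ∈ Finset.range (m i), T (io (p i l) / io (p i (m i))) r)
      (fun i _ => Finset.sum_nonneg fun l _ => T_nonneg _ hr) (Finset.mem_univ i)
  rw [Nat.cast_one, one_mul, zero_mul, add_zero]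
  exact h1.trans (h2.trans h3)

end Pool.Agent.H16.RM
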