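import Pool.Agent.H16.RM.Defs

/-!
# The ultrapower and the subfield of bounded germs

`LL F = Germ (hyperfilter ℕ) F` is a field (`Filter.Germ.instField`, Mathlib/Order/Filter/FilterProduct);
`KB B` is the set of germs of sequences `u` with `u c ∈ B c m` for almost all `c`, for one `m`.

PROOFS. Everything is checked on representatives (`Germ.inductionOn`, `Germ.coe_eq`, `Germ.coe_add`,
`Germ.coe_mul`, `Germ.map_coe`, `Germ.coe_inv`, ...; `Filter.Eventually` arguments). If `x = ↑u` and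
`x = ↑v` then `u = v` almost everywhere, so membership in `KB B` can be tested on any representative
(prove first: `↑u ∈ KB B ↔ ∃ m, ∀ᶠ c, u c ∈ B c m`, this is `coe_mem_KB`).
`instCharZeroLL`: `((n : ℕ) : LL F)` is the germ of the constant sequence `n`; if it equals `m`, then
`(n : F) = m` for some `c`.
`map_DD_add`, `map_DD_mul`: termwise (`Filt.dadd`, `Filt.dmul`).
`exists_KS`: closed under `+` (`Filt.add`, bound `m + n`), `*` (`Filt.mul`), `-` (`Filt.neg`), `⁻¹`
(`Filt.inv`), contains `0`, `1` (`Filt.zero_mem`, `Filt.one_mem` at level `0`).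
`KB_der`: `Filt.der`, bound `3 * m`. `KB_ker`: `D (u c) = 0` for almost all `c`, so `u c ∈ B c 0`
(`Filt.const`).
-/

namespace Pool.Agent.H16.RM

open Filter Pool.Agent.H13.Nev

variable {F : Type} [Field F]

theorem coe_mem_KB {B : ℕ → ℕ → Set F} (u : ℕ → F) :
    ((u : LL F) ∈ KB B) ↔ ∃ m, ∀ᶠ c in (hyperfilter ℕ : Filter ℕ), u c ∈ B c m := by
  constructor
  · rintro ⟨m, v, huv, hv⟩
    refine ⟨m, ?_⟩
    have h := Germ.coe_eq.1 huv
    filter_upwards [h, hv] with c h1 h2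
    rw [h1]
    exact h2
  · rintro ⟨m, hm⟩
    exact ⟨m, u, rfl, hm⟩

instance instCharZeroLL [CharZero F] : CharZero (LL F) := by
  refine ⟨fun a b h => ?_⟩
  have ha : ((a : ℕ) : LL F) = ((fun _ : ℕ => (a : F) : ℕ → F) : LL F) := rfl
  have hb : ((b : ℕ) : LL F) = ((fun _ : ℕ => (b : F) : ℕ → F) : LL F) := rfl
  have h' : ((a : ℕ) : LL F) = ((b : ℕ) : LL F) := h
  rw [ha, hb] at h'
  obtain ⟨c, hc⟩ := (Germ.coe_eq.1 h').exists
  have hc' : (a : F) = (b : F) := hc
  exact_mod_cast hc'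

theorem map_DD_add {D : F → F} (hD : ∀ x y, D (x + y) = D x + D y) (x y : LL F) :
    Germ.map D (x + y) = Germ.map D x + Germ.map D y := by
  refine Germ.inductionOn₂ x y fun u v => ?_
  refine Germ.coe_eq.2 (Eventually.of_forall fun c => ?_)
  exact hD (u c) (v c)

theorem map_DD_mul {D : F → F} (hD : ∀ x y, D (x * y) = x * D y + D x * y) (x y : LL F) :
    Germ.map D (x * y) = x * Germ.map D y + Germ.map D x * y := by
  refine Germ.inductionOn₂ x y fun u v => ?_
  refine Germ.coe_eq.2 (Eventually.of_forall fun c => ?_)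
  exact hD (u c) (v c)

theorem exists_KS {D : F → F} {B : ℕ → ℕ → Set F} (hB : ∀ c, Filt F D (B c)) :
    ∃ K : Subfield (LL F), ∀ x, x ∈ K ↔ x ∈ KB B := by
  refine ⟨{ carrier := KB B
            mul_mem' := ?_
            one_mem' := ?_
            add_mem' := ?_
            zero_mem' := ?_
            neg_mem' := ?_
            inv_mem' := ?_ }, fun x => Iff.rfl⟩
  · rintro _ _ ⟨m, u, rfl, hu⟩ ⟨n, v, rfl, hv⟩
    refine ⟨m + n, u * v, rfl, ?_⟩
    filter_upwards [hu, hv] with c h1 h2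
    exact (hB c).mul h1 h2
  · exact ⟨0, fun _ => 1, rfl, Eventually.of_forall fun c => (hB c).one_mem 0⟩
  · rintro _ _ ⟨m, u, rfl, hu⟩ ⟨n, v, rfl, hv⟩
    refine ⟨m + n, u + v, rfl, ?_⟩
    filter_upwards [hu, hv] with c h1 h2
    exact (hB c).add h1 h2
  · exact ⟨0, fun _ => 0, rfl, Eventually.of_forall fun c => (hB c).zero_mem 0⟩
  · rintro _ ⟨m, u, rfl, hu⟩
    refine ⟨m, -u, rfl, ?_⟩
    filter_upwards [hu] with c h1
    exact (hB c).neg h1
  · rintro _ ⟨m, u, rfl, hu⟩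
    refine ⟨m, u⁻¹, rfl, ?_⟩
    filter_upwards [hu] with c h1
    exact (hB c).inv h1

theorem KB_der {D : F → F} {B : ℕ → ℕ → Set F} (hB : ∀ c, Filt F D (B c)) {x : LL F}
    (hx : x ∈ KB B) : Germ.map D x ∈ KB B := by
  obtain ⟨m, u, rfl, hu⟩ := hx
  refine ⟨3 * m, fun c => D (u c), rfl, ?_⟩
  filter_upwards [hu] with c h1
  exact (hB c).der h1

theorem KB_ker {D : F → F} {B : ℕ → ℕ → Set F} (hB : ∀ c, Filt F D (B c)) {x : LL F}
    (hx : Germ.map D x = 0) : x ∈ KB B := by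
  revert hx
  refine Germ.inductionOn x fun u hu => ?_
  have h0 : ((fun c => D (u c) : ℕ → F) : LL F) = ((fun _ => 0 : ℕ → F) : LL F) := hu
  have h := Germ.coe_eq.1 h0
  refine ⟨0, u, rfl, ?_⟩
  filter_upwards [h] with c h1
  exact (hB c).const h1

end Pool.Agent.H16.RM
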