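import Pool.Agent.H16.RM.Ger

/-!
# The subfield of bounded germs is algebraically closed in the ultrapower

PROOF. Let `p` be a nonzero polynomial over `K` with `aeval x p = 0`, `e = p.natDegree`,
`p.coeff i = ↑(c i)` with `c i : ℕ → F`, and `m_i` a bound for `c i` (`i ≤ e`), `m = ∑_{i ≤ e} m_i`
(`Filt.mono`). Let `x = ↑u`. `aeval x p = ∑ i ∈ range (e + 1), p.coeff i * x ^ i`
(`Polynomial.aeval_eq_sum_range`) is the germ of `k ↦ ∑ i ∈ range (e+1), c i k * u k ^ i`, which
therefore vanishes for almost all `k`; `p.coeff e ≠ 0` (leading coefficient), so `c e k ≠ 0` for almost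
all `k` (ultrafilter: the set where `c e k = 0` is not in it; `Ultrafilter.em` or
`Ultrafilter.eventually_not`). For almost all `k` all of this holds together with `c i k ∈ B k m` for
`i ≤ e` (`eventually_all_finset` or `Filter.eventually_all_finite`), and
`AlgF F (B k)` gives `u k ∈ B k (2 * e * m)`. (`AlgF` wants a function `ℕ → F`: take `fun i => c i k`.)
-/

namespace Pool.Agent.H16.RM

open Filter Pool.Agent.H13.Nev

variable {F : Type} [Field F]

theorem KB_alg {D : F → F} {B : ℕ → ℕ → Set F} (hB : ∀ c, Filt F D (B c))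
    (hA : ∀ c, AlgF F (B c)) (K : Subfield (LL F)) (hK : ∀ x, x ∈ K ↔ x ∈ KB B) (x : LL F)
    (hx : IsAlgebraic K x) : x ∈ KB B := by
  obtain ⟨p, hp0, hp⟩ := hx
  obtain ⟨u, rfl⟩ : ∃ u : ℕ → F, x = (u : LL F) := Germ.inductionOn x fun u => ⟨u, rfl⟩
  choose m c hc hm using fun i => (hK _).1 (p.coeff i).2
  have hsum : ((∑ i ∈ Finset.range (p.natDegree + 1), c i * u ^ i : ℕ → F) : LL F) = 0 := by
    have h1 : ((∑ i ∈ Finset.range (p.natDegree + 1), c i * u ^ i : ℕ → F) : LL F) =
        ∑ i ∈ Finset.range (p.natDegree + 1), (c i : LL F) * (u : LL F) ^ i := by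
      have h2 := map_sum (Germ.coeRingHom (R := F) (hyperfilter ℕ : Filter ℕ))
        (fun i => c i * u ^ i) (Finset.range (p.natDegree + 1))
      simp only [map_mul, map_pow] at h2
      exact h2
    rw [h1, ← hp, Polynomial.aeval_eq_sum_range]
    refine Finset.sum_congr rfl fun i _ => ?_
    rw [← hc i]
    rfl
  have hev : ∀ᶠ k in (hyperfilter ℕ : Filter ℕ),
      ∑ i ∈ Finset.range (p.natDegree + 1), c i k * u k ^ i = 0 := by
    have h1 : ((∑ i ∈ Finset.range (p.natDegree + 1), c i * u ^ i : ℕ → F) : LL F) =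
        ((0 : ℕ → F) : LL F) := hsum
    rw [Germ.coe_eq] at h1
    filter_upwards [h1] with k hk
    rw [Finset.sum_apply] at hk
    exact hk
  have hne : ∀ᶠ k in (hyperfilter ℕ : Filter ℕ), ¬ c p.natDegree k = 0 := by
    rw [Ultrafilter.eventually_not]
    intro h1
    have h2 : (c p.natDegree : LL F) = ((0 : ℕ → F) : LL F) := by
      rw [Germ.coe_eq]
      exact h1
    rw [← hc] at h2
    have h3 : p.coeff p.natDegree = 0 := Subtype.ext h2
    exact hp0 (Polynomial.leadingCoeff_eq_zero.1 h3)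
  have hall : ∀ᶠ k in (hyperfilter ℕ : Filter ℕ), ∀ i ∈ Finset.range (p.natDegree + 1),
      c i k ∈ B k (m i) := (Filter.eventually_all_finset _).2 fun i _ => hm i
  refine ⟨2 * p.natDegree * ∑ i ∈ Finset.range (p.natDegree + 1), m i, u, rfl, ?_⟩
  filter_upwards [hev, hne, hall] with k h1 h2 h3
  refine hA k p.natDegree _ (fun i => c i k) (u k) ?_ h2 h1
  intro i hi
  have hi' : i ∈ Finset.range (p.natDegree + 1) := Finset.mem_range.2 (Nat.lt_succ_of_le hi)
  exact (hB k).mono (Finset.single_le_sum (fun j _ => Nat.zero_le (m j)) hi') (h3 i hi')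

end Pool.Agent.H16.RM
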