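import Pool.Agent.H16.RM.Ger

/-!
# Maps between ultrapowers, algebraicity

PROOFS. `exists_GerM`: define the map on germs by `Germ.map'`/`Quotient.map'` from
`u ↦ fun c => σ c (u c)` (if `u = v` almost everywhere then the images agree almost everywhere); ring
homomorphism on representatives (`Germ.inductionOn`, `Germ.inductionOn₂`, `map_add`, ...).

`alg_descend`: let `p ≠ 0` be a polynomial over `K.map G` with `aeval (G x) p = 0`. `G` is injective.
The map `K → K.map G`, `k ↦ G k`, is a bijective ring homomorphism (`Subfield.mem_map`), so `p` is the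
image of a nonzero polynomial `p'` over `K` (take `p'` with coefficients the preimages, or use the ring
isomorphism `K ≃+* K.map G`), and `G (aeval x p') = aeval (G x) p = 0`, so `aeval x p' = 0`. (Perhaps
`isAlgebraic_ringHom_iff_of_comp_eq` or `IsAlgebraic.of_ringHom_of_comp_eq` of Mathlib does it.)
-/

namespace Pool.Agent.H16.RM

open Filter

theorem exists_GerM {F E : Type} [Field F] [Field E] (σ : ℕ → F →+* E) :
    ∃ G : LL F →+* LL E, ∀ u : ℕ → F, G (u : LL F) = ((fun c => σ c (u c) : ℕ → E) : LL E) := by
  let f : LL F → LL E := Quotient.map' (fun (u : ℕ → F) c => σ c (u c)) (by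
    intro u v huv
    have h : ∀ᶠ c in (hyperfilter ℕ : Filter ℕ), u c = v c := huv
    change ∀ᶠ c in (hyperfilter ℕ : Filter ℕ), σ c (u c) = σ c (v c)
    filter_upwards [h] with c hc
    rw [hc])
  have hf : ∀ u : ℕ → F, f (u : LL F) = ((fun c => σ c (u c) : ℕ → E) : LL E) := fun u => rfl
  refine ⟨{ toFun := f
            map_one' := ?_
            map_mul' := ?_
            map_zero' := ?_
            map_add' := ?_ }, hf⟩
  · refine (hf (fun _ => 1)).trans (Germ.coe_eq.2 (Eventually.of_forall fun c => ?_))
    exact map_one (σ c)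
  · intro x y
    refine Germ.inductionOn₂ x y fun u v => ?_
    refine (hf (fun c => u c * v c)).trans (Germ.coe_eq.2 (Eventually.of_forall fun c => ?_))
    exact map_mul (σ c) (u c) (v c)
  · refine (hf (fun _ => 0)).trans (Germ.coe_eq.2 (Eventually.of_forall fun c => ?_))
    exact map_zero (σ c)
  · intro x y
    refine Germ.inductionOn₂ x y fun u v => ?_
    refine (hf (fun c => u c + v c)).trans (Germ.coe_eq.2 (Eventually.of_forall fun c => ?_))
    exact map_add (σ c) (u c) (v c)

theorem alg_descend {L L' : Type*} [Field L] [Field L'] (G : L →+* L') (K : Subfield L) (x : L)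
    (hx : IsAlgebraic (K.map G) (G x)) : IsAlgebraic K x := by
  let f : K →+* K.map G :=
    { toFun := fun k => ⟨G k.1, k.1, k.2, rfl⟩
      map_one' := Subtype.ext (map_one G)
      map_mul' := fun a b => Subtype.ext (map_mul G a.1 b.1)
      map_zero' := Subtype.ext (map_zero G)
      map_add' := fun a b => Subtype.ext (map_add G a.1 b.1) }
  refine IsAlgebraic.of_ringHom_of_comp_eq f G hx ?_ G.injective ?_
  · rintro ⟨y, k, hk, rfl⟩
    exact ⟨⟨k, hk⟩, rfl⟩
  · ext k
    rfl

end Pool.Agent.H16.RM
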