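import Pool.Agent.H16.RM.Red
import Pool.Agent.H16.RM.SpanC
import Pool.Agent.H16.RM.Bas

/-!
# Wronskian determinants and linear independence over the constants

PROOFS. `ind_of_det`: if `D (a j) = 0` and `∑ a_j f_j = 0` then `∑ a_j D^i f_j = 0` for all `i`
(apply `D`, induction), so `Wm D 0 f *ᵥ a = 0` and `a = 0` (`Matrix.eq_zero_of_mulVec_eq_zero`).

`det_of_ind`: `M = 0`: the determinant is `1`. Let `M ≥ 1` and suppose `det = 0`. By `red` for
`wt_univ`, `C = univ`: `IsA D 0 f c` for some `c`, i.e. `D^M f_j = ∑_l c_l D^l f_j`. Let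
`V = {v | ∀ i < M, ∑_j D^i f_j * v_j = 0}` (the kernel of `Wm D 0 f` as a linear map). `V` is stable
under `D`: `0 = D (∑_j D^i f_j v_j) = ∑_j D^(i+1) f_j v_j + ∑_j D^i f_j D v_j`, and the first sum
vanishes (for `i + 1 < M` since `v ∈ V`, for `i + 1 = M` by the equation). `V ≠ 0`
(`Matrix.exists_mulVec_eq_zero_iff`), and by `span_ker` it is spanned by its vectors killed by `D`, so
one of these, `u`, is nonzero. Row `i = 0` says `∑_j f_j u_j = 0`, and `hind` gives `u = 0`:
contradiction.

-/

namespace Pool.Agent.H16.RM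

private lemma indD_zero {K : Type*} [Field K] {D : K → K} (hadd : ∀ x y, D (x + y) = D x + D y) :
    D 0 = 0 := by
  have := hadd 0 0
  rw [add_zero] at this
  have h2 : D 0 + D 0 = D 0 + 0 := by rw [← this, add_zero]
  exact add_left_cancel h2

private lemma indD_sum {K : Type*} [Field K] {D : K → K} (hadd : ∀ x y, D (x + y) = D x + D y)
    {ι : Type*} (s : Finset ι) (g : ι → K) : D (∑ i ∈ s, g i) = ∑ i ∈ s, D (g i) := by
  classical
  induction s using Finset.induction_on with
  | empty => rw [Finset.sum_empty, Finset.sum_empty, indD_zero hadd]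
  | insert a s ha ih => rw [Finset.sum_insert ha, Finset.sum_insert ha, hadd, ih]

private lemma indD_Wm {K : Type*} [Field K] (D : K → K) {M : ℕ} (f : Fin M → K) (i j : Fin M) :
    Wm D 0 f i j = D^[i] (f j) := by
  rw [Wm, Matrix.of_apply, nab_zero]

theorem ind_of_det {K : Type*} [Field K] {D : K → K} (hadd : ∀ x y, D (x + y) = D x + D y)
    (hmul : ∀ x y, D (x * y) = x * D y + D x * y) {M : ℕ} {f : Fin M → K}
    (hdet : (Wm D 0 f).det ≠ 0) : Ind D f := by
  intro a ha hsum
  have key : ∀ k : ℕ, ∑ j, D^[k] (f j) * a j = 0 := by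
    intro k
    induction k with
    | zero =>
      rw [← hsum]
      refine Finset.sum_congr rfl fun j _ => ?_
      rw [Function.iterate_zero_apply, mul_comm]
    | succ k ih =>
      have h1 := congrArg D ih
      rw [indD_sum hadd, indD_zero hadd] at h1
      rw [← h1]
      refine Finset.sum_congr rfl fun j _ => ?_
      rw [hmul, ha j, mul_zero, zero_add, Function.iterate_succ_apply']
  have h2 : Matrix.mulVec (Wm D 0 f) a = 0 := by
    funext i
    simp only [Matrix.mulVec, dotProduct, indD_Wm, Pi.zero_apply]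
    exact key i
  have h3 := Matrix.eq_zero_of_mulVec_eq_zero hdet h2
  intro j
  rw [h3, Pi.zero_apply]

theorem det_of_ind {K : Type*} [Field K] {D : K → K} (hadd : ∀ x y, D (x + y) = D x + D y)
    (hmul : ∀ x y, D (x * y) = x * D y + D x * y) {M : ℕ} {f : Fin M → K} (hind : Ind D f) :
    (Wm D 0 f).det ≠ 0 := by
  classical
  intro hdet
  rcases Nat.eq_zero_or_pos M with hM | hM
  · subst hM
    rw [Matrix.det_fin_zero] at hdet
    exact one_ne_zero hdet
  obtain ⟨c, -, hc⟩ := red (wt_univ hadd hmul) Set.univ (fun _ _ _ => Set.mem_univ _)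
    (fun _ _ _ _ => Set.mem_univ _) (fun _ _ => Set.mem_univ _) M f (fun _ => Set.mem_univ _) hind
  have hc' : ∀ j, D^[M] (f j) = ∑ l : Fin M, c l * D^[l] (f j) := by
    intro j
    have := hc j
    rw [nab_zero] at this
    exact this
  let V : Submodule K (Fin M → K) := LinearMap.ker (Matrix.mulVecLin (Wm D 0 f))
  have hVm : ∀ v : Fin M → K, v ∈ V ↔ ∀ i : Fin M, ∑ j, D^[i] (f j) * v j = 0 := by
    intro v
    rw [LinearMap.mem_ker, Matrix.mulVecLin_apply]
    constructor
    · intro h i
      have := congrFun h i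
      simpa only [Matrix.mulVec, dotProduct, indD_Wm, Pi.zero_apply] using this
    · intro h
      funext i
      simp only [Matrix.mulVec, dotProduct, indD_Wm, Pi.zero_apply]
      exact h i
  have hV : ∀ v ∈ V, (fun s => D (v s)) ∈ V := by
    intro v hv
    rw [hVm] at hv ⊢
    intro i
    have h1 := congrArg D (hv i)
    rw [indD_sum hadd, indD_zero hadd] at h1
    have h2 : ∑ j, D (D^[i] (f j) * v j)
        = ∑ j, D^[i] (f j) * D (v j) + ∑ j, D^[(i : ℕ) + 1] (f j) * v j := by
      rw [← Finset.sum_add_distrib]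
      refine Finset.sum_congr rfl fun j _ => ?_
      rw [hmul, Function.iterate_succ_apply']
    have h3 : ∑ j, D^[(i : ℕ) + 1] (f j) * v j = 0 := by
      rcases Nat.lt_or_ge ((i : ℕ) + 1) M with hi | hi
      · exact hv ⟨(i : ℕ) + 1, hi⟩
      · have hi' : (i : ℕ) + 1 = M := le_antisymm i.2 hi
        rw [hi']
        calc ∑ j, D^[M] (f j) * v j = ∑ j, ∑ l : Fin M, c l * (D^[l] (f j) * v j) := by
              refine Finset.sum_congr rfl fun j _ => ?_
              rw [hc' j, Finset.sum_mul]
              refine Finset.sum_congr rfl fun l _ => ?_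
              rw [mul_assoc]
          _ = ∑ l : Fin M, c l * ∑ j, D^[l] (f j) * v j := by
              rw [Finset.sum_comm]
              refine Finset.sum_congr rfl fun l _ => ?_
              rw [Finset.mul_sum]
          _ = 0 := by
              refine Finset.sum_eq_zero fun l _ => ?_
              rw [hv l, mul_zero]
    rw [h2, h3, add_zero] at h1
    exact h1
  obtain ⟨v, hv0, hv⟩ := Matrix.exists_mulVec_eq_zero_iff.mpr hdet
  have hvV : v ∈ V := by
    rw [LinearMap.mem_ker, Matrix.mulVecLin_apply]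
    exact hv
  have hspan := span_ker D hadd hmul V hV
  have hall : ∀ u ∈ {u : Fin M → K | u ∈ V ∧ ∀ s, D (u s) = 0}, u = 0 := by
    rintro u ⟨huV, hu⟩
    have h1 := (hVm u).mp huV ⟨0, hM⟩
    have h2 := hind u hu (by
      rw [← h1]
      refine Finset.sum_congr rfl fun j _ => ?_
      show u j * f j = D^[0] (f j) * u j
      rw [Function.iterate_zero_apply, mul_comm])
    exact funext h2
  have h4 : Submodule.span K {u : Fin M → K | u ∈ V ∧ ∀ s, D (u s) = 0} = ⊥ := by
    rw [Submodule.span_eq_bot]
    exact hall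
  have h5 := hspan hvV
  rw [h4, Submodule.mem_bot] at h5
  exact hv0 h5

end Pool.Agent.H16.RM
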