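import Pool.Agent.H16.RM.Fin
import Pool.Agent.H16.RM.FinO
import Pool.Agent.H13.Hol.Final

/-!
# Linear differential equations and entire curves on general hypersurfaces of degree `d ≥ 2n+1`

The main theorem, deduced from `resA`, `resB`, `resO` and from the theorem on entire curves whose
coordinates are holonomic functions.
-/

open Real ValueDistribution

namespace Pool.Agent.H16.RM

/-- curves of bounded degree: `g` is an entire function times a vector of polynomials of degree at
most `D` -/
lemma const_of_good {n d D E : ℕ} (hDE : D ≤ E)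
    {F : MvPolynomial (Fin (n + 2)) ℂ} (hF : F.IsHomogeneous d)
    (hgood : Pool.Agent.H13.Kob.Good E
        (fun μ : Pool.Agent.H13.Kob.mons (n + 2) d => F.coeff μ.1))
    {g : ℂ → Fin (n + 2) → ℂ} (hgF : ∀ z, MvPolynomial.eval (g z) F = 0)
    {s : ℂ → ℂ} {r : Fin (n + 2) → Polynomial ℂ} (hs : Differentiable ℂ s)
    (hr : ∀ i, (r i).natDegree ≤ D) (hg : ∀ z i, g z i = s z * (r i).eval z) :
    ∃ (s' : ℂ → ℂ) (c : Fin (n + 2) → ℂ), Differentiable ℂ s' ∧ ∀ z i, g z i = s' z * c i := by
  classical
  have hFm := Pool.Agent.H13.Kob.eq_Fm hF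
  by_cases hs0 : ∀ z, s z = 0
  · exact ⟨fun _ => 0, fun _ => 0, differentiable_const _, fun z i => by rw [hg, hs0 z]; simp⟩
  · push Not at hs0
    have hFr : MvPolynomial.aeval r (Pool.Agent.H13.CEV.Fm
        (fun μ : Pool.Agent.H13.Kob.mons (n + 2) d => F.coeff μ.1)) = 0 := by
      apply Pool.Agent.H13.Kob.dense_eval hs hs0
      intro z hz
      have h1 : (MvPolynomial.aeval r (Pool.Agent.H13.CEV.Fm
          (fun μ : Pool.Agent.H13.Kob.mons (n + 2) d => F.coeff μ.1))).eval z
          = MvPolynomial.eval (fun i => (r i).eval z) (Pool.Agent.H13.CEV.Fm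
          (fun μ : Pool.Agent.H13.Kob.mons (n + 2) d => F.coeff μ.1)) := by
        rw [Pool.Agent.H13.CEV.aeval_Fm, Pool.Agent.H13.Kob.eval_Fm,
          Polynomial.eval_finsetSum]
        apply Finset.sum_congr rfl
        intro α _
        simp [Polynomial.eval_prod]
      rw [h1]
      have h2 := hgF z
      rw [hFm] at h2
      have h3 : g z = fun i => s z * (r i).eval z := funext (hg z)
      rw [h3, Pool.Agent.H13.Kob.eval_scale_Fm] at h2
      exact (mul_eq_zero.mp h2).resolve_left (pow_ne_zero _ hz)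
    have hgc := Pool.Agent.H13.Kob.good_const hgood r (fun i => (hr i).trans hDE) hFr
    by_cases hr0 : ∀ z i, (r i).eval z = 0
    · exact ⟨fun _ => 0, fun _ => 0, differentiable_const _,
        fun z i => by rw [hg, hr0 z i]; simp⟩
    · push Not at hr0
      obtain ⟨w, j, hw⟩ := hr0
      refine ⟨fun z => s z * ((r j).eval z / (r j).eval w), fun i => (r i).eval w,
        hs.mul ((r j).differentiable.div_const _), fun z i => ?_⟩
      have h1 := hgc i j z w
      rw [hg]
      field_simp
      linear_combination s z * h1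

theorem main :
    ∀ n : ℕ, 1 ≤ n → ∀ d : ℕ, 2 * n + 1 ≤ d → ∃ (C : ℝ) (m : ℕ), ∀ M : ℕ,
      ∃ (C' : ℝ) (P : MvPolynomial ((Fin (n + 2)) →₀ ℕ) ℂ),
        (∃ F₀ : MvPolynomial (Fin (n + 2)) ℂ, F₀.IsHomogeneous d ∧
            MvPolynomial.eval (fun α => F₀.coeff α) P ≠ 0) ∧
        ∀ F : MvPolynomial (Fin (n + 2)) ℂ, F.IsHomogeneous d →
          MvPolynomial.eval (fun α => F.coeff α) P ≠ 0 →
          ∀ g : ℂ → Fin (n + 2) → ℂ, Differentiable ℂ g →
            (∀ z, MvPolynomial.eval (g z) F = 0) →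
          -- (h) linear differential equations with polynomial coefficients
          ((∀ i, ∃ p : Fin (M + 1) → Polynomial ℂ, p ≠ 0 ∧
              ∀ z, ∑ l : Fin (M + 1), (p l).eval z * iteratedDeriv l (fun z => g z i) z = 0) →
            ∃ (s : ℂ → ℂ) (r : Fin (n + 2) → Polynomial ℂ), Differentiable ℂ s ∧
              ∀ z i, g z i = s z * (r i).eval z) ∧
          (∀ (s : ℂ → ℂ) (r : Fin (n + 2) → Polynomial ℂ), Differentiable ℂ s →
            (∀ i, (r i).natDegree ≤ M) → (∀ z i, g z i = s z * (r i).eval z) →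
            ∃ (s' : ℂ → ℂ) (c : Fin (n + 2) → ℂ), Differentiable ℂ s' ∧
              ∀ z i, g z i = s' z * c i) ∧
          ((∀ z, g z ≠ 0) →
            -- (a) the coordinates of `g` satisfy linear differential equations of order at most `M`
            (∀ (k : Fin (n + 2) → ℕ) (p : Fin (n + 2) → ℕ → ℂ → ℂ), (∀ i, k i ≤ M) →
              (∀ i l, Differentiable ℂ (p i l)) → (∀ i, ∃ z, p i (k i) z ≠ 0) →
              (∀ i z, ∑ l ∈ Finset.range (k i + 1),
                p i l z * iteratedDeriv l (fun z => g z i) z = 0) →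
              ∃ K : ℝ, MeasureTheory.volume {r : ℝ | 1 ≤ r ∧
                ¬ circleAverage (fun z => log ‖g z‖) 0 r
                  ≤ C' * ∑ i, ∑ l ∈ Finset.range (k i),
                      characteristic (fun z => p i l z / p i (k i) z) ⊤ r
                    + K * (1 + log r)} < ⊤) ∧
            -- (b) `g` is a combination of `M` functions, with moving coefficients
            (∀ (y : Fin M → ℂ → ℂ) (q : Fin M → ℂ → Fin (n + 2) → ℂ),
              (∀ j, Differentiable ℂ (y j)) → LinearIndependent ℂ y →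
              (∀ j, Differentiable ℂ (q j)) → (∀ z, g z = ∑ j, y j z • q j z) →
              ∃ K : ℝ, MeasureTheory.volume {r : ℝ | 1 ≤ r ∧
                ¬ circleAverage (fun z => log ‖g z‖) 0 r
                  ≤ C' * (logCounting (logDeriv fun z =>
                        (Matrix.of fun i j : Fin M => iteratedDeriv i (y j) z).det) ⊤ r
                      + ∑ j, characteristic (q j) ⊤ r)
                    + K * (1 + log r
                        + log⁺ (circleAverage (fun z => log ‖fun j => y j z‖) 0 r))} < ⊤) ∧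
            -- (c) the Wronskian of a basis of the span of the coordinates of `g`
            ∀ (k : ℕ) (y : Fin k → ℂ → ℂ), LinearIndependent ℂ y →
              Submodule.span ℂ (Set.range y)
                = Submodule.span ℂ (Set.range fun (i : Fin (n + 2)) z => g z i) →
              (∃ K : ℝ, MeasureTheory.volume {r : ℝ | 1 ≤ r ∧
                ¬ circleAverage (fun z => log ‖g z‖) 0 r
                  ≤ C * logCounting (logDeriv fun z =>
                        (Matrix.of fun i j : Fin k => iteratedDeriv i (y j) z).det) ⊤ r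
                    + K * (1 + log r + log⁺ (circleAverage (fun z => log ‖g z‖) 0 r))} < ⊤) ∧
              ((∀ z, (Matrix.of fun i j : Fin k => iteratedDeriv i (y j) z).det = 0 →
                  (m : ℕ∞) ≤ analyticOrderAt
                    (fun z => (Matrix.of fun i j : Fin k => iteratedDeriv i (y j) z).det) z) →
                ∀ z, ∃ c : ℂ, g z = c • g 0)) := by
  intro n hn d hd
  obtain ⟨C, m, hCm⟩ := resB (n + 2) d
  refine ⟨C, m, fun M => ?_⟩
  obtain ⟨C₁, hC₁⟩ := resA (n + 2) M d
  obtain ⟨C₂, hC₂⟩ := resO (n + 2) M d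
  choose e he using fun k => Pool.Agent.H13.Kob.exists_bounded_type k d
  set B : ℕ := n + 2 + M + ((n + 2) * M) * ((n + 2) * M) + (n + 2) * (M + 1) with hB
  set E : ℕ := ∑ k ∈ Finset.range (B + 1), e k + B with hE
  have hle : ∀ k, k ≤ B → e k ≤ E := by
    intro k hk
    have h1 : e k ≤ ∑ k ∈ Finset.range (B + 1), e k :=
      Finset.single_le_sum (f := e) (fun _ _ => Nat.zero_le _)
        (Finset.mem_range.mpr (by omega))
    omega
  have hthin := Pool.Agent.H13.CEV.bounded_curves (N := n + 2) (d := d) (by omega) (by omega) E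
  obtain ⟨P, hP0, hP⟩ := Pool.Agent.H13.Kob.exists_open hthin
  refine ⟨max C₁ C₂, P, hP0, fun F hF hFP g hg hgF => ?_⟩
  have hgood : Pool.Agent.H13.Kob.Good E
      (fun m : Pool.Agent.H13.Kob.mons (n + 2) d => F.coeff m.1) := by
    intro v hv i j a b
    by_contra hne
    exact hP F hF hFP ⟨v, hv, i, j, a, b, hne⟩
  have hFm := Pool.Agent.H13.Kob.eq_Fm hF
  have hb : ∀ k ≤ B, ∀ a : Fin k → ℕ, ∃ b : Fin k → ℕ,
      Pool.Agent.H13.Kob.SameType d a b ∧ ∀ j, b j ≤ E := by
    intro k hk a
    obtain ⟨b, hb1, hb2⟩ := he k a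
    exact ⟨b, hb1, fun j => (hb2 j).trans (hle k hk)⟩
  have hgF' : ∀ z, MvPolynomial.eval (g z) (Pool.Agent.H13.CEV.Fm
      (fun m : Pool.Agent.H13.Kob.mons (n + 2) d => F.coeff m.1)) = 0 :=
    fun z => by rw [← hFm]; exact hgF z
  refine ⟨?_, ?_, fun hg0 => ⟨?_, ?_, ?_⟩⟩
  · intro hhol
    obtain ⟨s, r, hs, -, hsr⟩ := Pool.Agent.H13.Hol.holo_struct hgood (m := M)
      (fun k hk => hb k (by omega)) (by omega) g
      (fun i => (differentiable_pi.mp hg) i) hhol hgF'
    exact ⟨s, r, hs, hsr⟩
  · intro s r hs hr hgsr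
    exact const_of_good (by omega) hF hgood hgF hs hr hgsr
  · intro k p hk hp hp0 hode
    obtain ⟨K, hK⟩ := hC₂ E _ hgood (fun k hk => hb k (by omega)) (by omega) g hg hg0 hgF' k p
      hk hp hp0 hode
    refine ⟨K, lt_of_le_of_lt (MeasureTheory.measure_mono ?_) hK⟩
    rintro r ⟨hr, hr'⟩
    refine ⟨hr, fun h => hr' (h.trans ?_)⟩
    have h1 : 0 ≤ ∑ i, ∑ l ∈ Finset.range (k i),
        characteristic (fun z => p i l z / p i (k i) z) ⊤ r :=
      Finset.sum_nonneg fun i _ => Finset.sum_nonneg fun l _ => characteristic_nonneg hr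
    have h2 := mul_le_mul_of_nonneg_right (le_max_right C₁ C₂) h1
    linarith
  · intro y q hy hli hq hgy
    obtain ⟨K, hK⟩ := hC₁ E _ hgood (fun k hk => hb k (by omega)) (by omega) y q g hy hli hq hgy
      hg0 hgF'
    refine ⟨K, lt_of_le_of_lt (MeasureTheory.measure_mono ?_) hK⟩
    rintro r ⟨hr, hr'⟩
    refine ⟨hr, fun h => hr' (h.trans ?_)⟩
    have h1 : 0 ≤ logCounting (logDeriv fun z =>
        (Matrix.of fun i j : Fin M => iteratedDeriv i (y j) z).det) ⊤ r
        + ∑ j, characteristic (q j) ⊤ r :=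
      add_nonneg (logCounting_nonneg hr) (Finset.sum_nonneg fun j _ => characteristic_nonneg hr)
    have h2 := mul_le_mul_of_nonneg_right (le_max_left C₁ C₂) h1
    linarith
  · intro k y hli hspan
    exact hCm E _ hgood (fun k hk => hb k (by omega)) (by omega) g hg hg0 hgF' k y hli hspan

end Pool.Agent.H16.RM
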