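import Pool.Agent.H16.RM.Conv

/-!
# Change of the connection in a scalar equation, normal form

PROOF of `change`. Let `∇₀ = nab D g₀`, `∇ = nab D (g₀ + g)`. `conv h g hg` gives `E` with
`∇^k x = ∑_{i ≤ k} E k i ∇₀^i x`; `conv h (-g) _` (with `g₀ + g` in the place of `g₀`, and
`g₀ + g + -g = g₀`) gives `E'` with `∇₀^k x = ∑_{i ≤ k} E' k i ∇^i x`. For `x = y j`, using
`E (M+1) (M+1) = 1` and `IsA D g₀ y a₀` (`∇₀^(M+1) y = ∑_{i ≤ M} a₀ i ∇₀^i y`):
`∇^(M+1) y = ∑_{i ≤ M} (E (M+1) i + a₀ i) ∇₀^i y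
  = ∑_{i ≤ M} (E (M+1) i + a₀ i) ∑_{l ≤ i} E' i l ∇^l y = ∑_{l ≤ M} a l ∇^l y` with
`a l = ∑_{i : Fin (M+1)} (E (M+1) i + a₀ i) * E' i l` (terms with `i < l` vanish).
Weights: for `l ≤ i ≤ M`, `E (M+1) i + a₀ i ∈ W (M+1-i)`, `E' i l ∈ W (i-l)`, the product is in
`W (M+1-l)`; `0 ∈ W _`; finite sums (induction on the finset with `Wt.zero`, `Wt.add`).
Last coefficient: only `i = M` contributes to `l = M`: `(E (M+1) M + a₀ M) * E' M M
  = (M+1) g + a₀ M` (`E (M+1) M = (M+1) g`, `E' M M = 1`).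

PROOF of `nf`: `change` with `g₀ = 0`, `a₀ = c`, `g = -(c (last M)) / (M+1)`; `g ∈ W 1` because
`c (last M) ∈ W (M + 1 - M)`, `Wt.neg`, `Wt.mul` with `Wt.ninv (M+1)` (and `div_eq_mul_inv`,
push_cast). The last coefficient is `c (last M) + (M+1) g = 0` as `(M:K)+1 ≠ 0`. `0 + g = g`.
-/

namespace Pool.Agent.H16.RM

variable {K : Type*} [Field K] {D : K → K} {W : ℕ → Set K}

private lemma sum_mem_W (h : Wt K D W) {ι : Type*} (s : Finset ι) (f : ι → K) (j : ℕ)
    (hf : ∀ i ∈ s, f i ∈ W j) : ∑ i ∈ s, f i ∈ W j := by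
  classical
  induction s using Finset.induction_on with
  | empty => rw [Finset.sum_empty]; exact h.zero j
  | insert a s ha ih =>
    rw [Finset.sum_insert ha]
    exact h.add (hf a (Finset.mem_insert_self a s))
      (ih fun i hi => hf i (Finset.mem_insert_of_mem hi))

theorem change (h : Wt K D W) (g₀ g : K) (hg : g ∈ W 1) {M : ℕ} (y a₀ : Fin (M + 1) → K)
    (ha₀ : ∀ l : Fin (M + 1), a₀ l ∈ W (M + 1 - l)) (hA : IsA D g₀ y a₀) :
    ∃ a : Fin (M + 1) → K, (∀ l : Fin (M + 1), a l ∈ W (M + 1 - l)) ∧ IsA D (g₀ + g) y a ∧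
      a (Fin.last M) = a₀ (Fin.last M) + ((M : K) + 1) * g := by
  obtain ⟨E, hE1, hE2, hE3, hE4, hE5⟩ := conv h g hg
  obtain ⟨E', hE1', hE2', hE3', hE4', hE5'⟩ := conv h (-g) (h.neg hg)
  have hback : ∀ (k : ℕ) (x : K), (nab D g₀)^[k] x
      = ∑ i ∈ Finset.range (k + 1), E' k i * (nab D (g₀ + g))^[i] x := by
    intro k x
    have := hE5' (g₀ + g) k x
    rwa [add_neg_cancel_right] at this
  refine ⟨fun l => ∑ i : Fin (M + 1), (E (M + 1) i + a₀ i) * E' i l, ?_, ?_, ?_⟩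
  · intro l
    apply sum_mem_W h
    intro i _
    by_cases hil : (l : ℕ) ≤ i
    · have e : M + 1 - (l : ℕ) = (M + 1 - i) + (i - l) := by omega
      rw [e]
      exact h.mul (h.add (hE1 _ _ (by omega)) (ha₀ i)) (hE1' _ _ hil)
    · rw [hE2' _ _ (by omega), mul_zero]
      exact h.zero _
  · intro j
    have h1 : (nab D (g₀ + g))^[M + 1] (y j)
        = ∑ i : Fin (M + 1), (E (M + 1) i + a₀ i) * (nab D g₀)^[(i : ℕ)] (y j) := by
      rw [hE5 g₀ (M + 1) (y j), Finset.sum_range_succ, hE3, one_mul, hA j, Finset.sum_range,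
        ← Finset.sum_add_distrib]
      exact Finset.sum_congr rfl fun i _ => by ring
    rw [h1]
    simp only [Finset.sum_mul]
    rw [Finset.sum_comm]
    apply Finset.sum_congr rfl
    intro i _
    rw [hback i (y j), Finset.mul_sum,
      ← Finset.sum_range (f := fun l => (E (M + 1) i + a₀ i) * E' i l *
        (nab D (g₀ + g))^[l] (y j))]
    have hsub : Finset.range ((i : ℕ) + 1) ⊆ Finset.range (M + 1) := by
      intro t ht
      rw [Finset.mem_range] at ht ⊢
      omega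
    rw [← Finset.sum_subset hsub]
    · exact Finset.sum_congr rfl fun l _ => by ring
    · intro l _ hl
      rw [Finset.mem_range] at hl
      rw [hE2' _ _ (by omega), mul_zero, zero_mul]
  · have : ∑ i : Fin (M + 1), (E (M + 1) i + a₀ i) * E' i (Fin.last M : Fin (M + 1))
        = (E (M + 1) (Fin.last M : Fin (M + 1)) + a₀ (Fin.last M))
          * E' (Fin.last M : Fin (M + 1)) (Fin.last M : Fin (M + 1)) := by
      apply Finset.sum_eq_single (Fin.last M)
      · intro i _ hi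
        have hlt : (i : ℕ) < M := by
          have h1 := i.2
          have h2 : (i : ℕ) ≠ M := fun hh => hi (Fin.ext hh)
          omega
        rw [hE2' _ _ (by rw [Fin.val_last]; exact hlt), mul_zero]
      · intro hh
        exact absurd (Finset.mem_univ _) hh
    show ∑ i : Fin (M + 1), (E (M + 1) i + a₀ i) * E' i (Fin.last M : Fin (M + 1)) = _
    rw [this, Fin.val_last, hE3', hE4]
    ring

theorem nf [CharZero K] (h : Wt K D W) {M : ℕ} (y c : Fin (M + 1) → K)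
    (hc : ∀ l : Fin (M + 1), c l ∈ W (M + 1 - l)) (hC : IsA D 0 y c) :
    ∃ a : Fin (M + 1) → K, (∀ l : Fin (M + 1), a l ∈ W (M + 1 - l)) ∧
      IsA D (-(c (Fin.last M)) / ((M : K) + 1)) y a ∧ a (Fin.last M) = 0 := by
  have hM : ((M : K) + 1) ≠ 0 := by
    have : ((M + 1 : ℕ) : K) ≠ 0 := Nat.cast_ne_zero.mpr (Nat.succ_ne_zero M)
    push_cast at this
    exact this
  have hg : -(c (Fin.last M)) / ((M : K) + 1) ∈ W 1 := by
    have h1 : c (Fin.last M) ∈ W 1 := by
      have := hc (Fin.last M)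
      rwa [Fin.val_last, Nat.add_sub_cancel_left] at this
    have h2 := h.mul (h.neg h1) (h.ninv (M + 1))
    push_cast at h2
    rw [div_eq_mul_inv]
    exact h2
  obtain ⟨a, ha, hA, hl⟩ := change h 0 (-(c (Fin.last M)) / ((M : K) + 1)) hg y c hc hC
  refine ⟨a, ha, by rwa [zero_add] at hA, ?_⟩
  rw [hl, mul_div_cancel₀ _ hM, add_neg_cancel]

end Pool.Agent.H16.RM
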