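import Pool.Agent.H16.RM.Nf

/-!
# Determinants and uniqueness

PROOFS. `det_Wm`: by `conv` (weights `wt_univ`) with `g₀ = 0`, `Wm D g y = A * Wm D 0 y` with
`A i k = E i k` (the sum over `range (i+1)` is the sum over `Fin M` since `E i k = 0` for `i < k`).
`A` is lower triangular with ones on the diagonal: `Matrix.det_of_isLowerTriangular`, `det A = 1`;
`Matrix.det_mul`.

`unique_a`: `(a - a') ᵥ* Wm D g y = 0`, `Matrix.eq_zero_of_vecMul_eq_zero`.

`unique_nf`: `change` for `wt_univ` with `g₀ = g'`, `g := g - g'`, `a₀ = a'` gives `a''` with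
`IsA D g y a''` and `a'' (last M) = a' (last M) + (M+1)(g - g') = (M+1) (g - g')`. By `det_Wm` and
`unique_a`, `a'' = a`, so `(M+1)(g - g') = 0` and `g = g'`; then `a = a'` by `unique_a`.

`iter_scale`: induction on `i`: `nab D (g - D s / s) (s * u) = s * D u + D s * u + g * s * u - D s * u
= s * nab D g u`. `scale`: apply it with `x = y j`, and factor out `s`.

`det_scale`: `iter_scale` with `g = D s / s` (so `g - D s / s = 0`) says
`Wm D 0 (s y) = s • Wm D (D s / s) y`; `Matrix.det_smul`, `Fintype.card_fin`, `det_Wm`.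
-/

namespace Pool.Agent.H16.RM

variable {K : Type*} [Field K] {D : K → K}

theorem det_Wm (hadd : ∀ x y, D (x + y) = D x + D y) (hmul : ∀ x y, D (x * y) = x * D y + D x * y)
    (g : K) {M : ℕ} (y : Fin M → K) : (Wm D g y).det = (Wm D 0 y).det := by
  obtain ⟨E, -, hE0, hE1, -, hE⟩ := conv (wt_univ hadd hmul) g (Set.mem_univ _)
  have hA : Wm D g y = (Matrix.of fun i k : Fin M => E i k) * Wm D 0 y := by
    ext i j
    rw [Matrix.mul_apply]
    show (nab D g)^[(i : ℕ)] (y j) = ∑ k : Fin M, E i k * (nab D 0)^[(k : ℕ)] (y j)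
    have h1 := hE 0 (i : ℕ) (y j)
    rw [zero_add] at h1
    rw [h1, Fin.sum_univ_eq_sum_range (fun k => E i k * (nab D 0)^[k] (y j)) M]
    refine Finset.sum_subset (Finset.range_subset_range.2 i.2) fun k _ hk => ?_
    rw [Finset.mem_range, not_lt] at hk
    rw [hE0 i k hk, zero_mul]
  have hdet : (Matrix.of fun i k : Fin M => E i k).det = 1 := by
    rw [Matrix.det_of_isLowerTriangular]
    · refine Finset.prod_eq_one fun i _ => ?_
      exact hE1 i
    · intro i j hij
      exact hE0 i j hij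
  rw [hA, Matrix.det_mul, hdet, one_mul]

theorem unique_a {g : K} {M : ℕ} {y a a' : Fin M → K} (hdet : (Wm D g y).det ≠ 0)
    (h : IsA D g y a) (h' : IsA D g y a') : a = a' := by
  have h1 : Matrix.vecMul (a - a') (Wm D g y) = 0 := by
    ext j
    show ∑ l, (a - a') l * (nab D g)^[(l : ℕ)] (y j) = 0
    simp only [Pi.sub_apply, sub_mul, Finset.sum_sub_distrib]
    rw [← h j, ← h' j, sub_self]
  exact sub_eq_zero.1 (Matrix.eq_zero_of_vecMul_eq_zero hdet h1)

theorem unique_nf [CharZero K] (hadd : ∀ x y, D (x + y) = D x + D y)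
    (hmul : ∀ x y, D (x * y) = x * D y + D x * y) {g g' : K} {M : ℕ} {y a a' : Fin (M + 1) → K}
    (hdet : (Wm D 0 y).det ≠ 0) (h : IsA D g y a) (h' : IsA D g' y a')
    (hl : a (Fin.last M) = 0) (hl' : a' (Fin.last M) = 0) : g = g' ∧ a = a' := by
  obtain ⟨a'', -, h2, h3⟩ := change (wt_univ hadd hmul) g' (g - g') (Set.mem_univ _) y a'
    (fun _ => Set.mem_univ _) h'
  rw [add_sub_cancel] at h2
  have hd : ∀ g : K, (Wm D g y).det ≠ 0 := fun g => by rw [det_Wm hadd hmul]; exact hdet
  have h4 := unique_a (hd g) h2 h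
  rw [h4, hl, hl', zero_add] at h3
  have h5 : ((M : K) + 1) ≠ 0 := by exact_mod_cast Nat.succ_ne_zero M
  have h6 : g = g' := by
    rcases mul_eq_zero.1 h3.symm with h7 | h7
    · exact absurd h7 h5
    · exact sub_eq_zero.1 h7
  subst h6
  exact ⟨rfl, unique_a (hd g) h h'⟩

theorem iter_scale (hmul : ∀ x y, D (x * y) = x * D y + D x * y) (g : K) {s : K} (hs : s ≠ 0)
    (i : ℕ) (x : K) : (nab D (g - D s / s))^[i] (s * x) = s * (nab D g)^[i] x := by
  induction i with
  | zero => rfl
  | succ i ih =>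
    rw [Function.iterate_succ_apply', Function.iterate_succ_apply', ih]
    unfold nab
    rw [hmul]
    field_simp
    ring

theorem scale (hmul : ∀ x y, D (x * y) = x * D y + D x * y) {g s : K} (hs : s ≠ 0) {M : ℕ}
    {y a : Fin M → K} (h : IsA D g y a) : IsA D (g - D s / s) (fun j => s * y j) a := by
  intro j
  show (nab D (g - D s / s))^[M] (s * y j) = ∑ l : Fin M, a l * (nab D (g - D s / s))^[(l : ℕ)] (s * y j)
  rw [iter_scale hmul g hs, h j, Finset.mul_sum]
  refine Finset.sum_congr rfl fun l _ => ?_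
  rw [iter_scale hmul g hs]
  ring

theorem det_scale (hadd : ∀ x y, D (x + y) = D x + D y)
    (hmul : ∀ x y, D (x * y) = x * D y + D x * y) {s : K} (hs : s ≠ 0) {M : ℕ} (y : Fin M → K) :
    (Wm D 0 fun j => s * y j).det = s ^ M * (Wm D 0 y).det := by
  have h1 : (Wm D 0 fun j => s * y j) = s • Wm D (D s / s) y := by
    ext i j
    show (nab D 0)^[(i : ℕ)] (s * y j) = s * (nab D (D s / s))^[(i : ℕ)] (y j)
    have h2 := iter_scale hmul (D s / s) hs (i : ℕ) (y j)
    rw [sub_self] at h2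
    exact h2
  rw [h1, Matrix.det_smul, Fintype.card_fin, det_Wm hadd hmul]

end Pool.Agent.H16.RM
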