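import Pool.Agent.H16.RM.Num

/-!
# The minors vanish in every field extension of `ℂ`

PROOF (model: `minor_const` in `H13/Hol/Killed.lean`). Let `τ = (Fin N × Fin M) ⊕ Fin M` (variables
`λ_ij`, `y_j`) and `R = MvPolynomial τ ℂ`. For `P : UU N M d` put
`P^ = aeval (pt (fun α => C (x α)) (fun i j => X (inl (i, j))) (fun j => X (inr j))
(fun l j => C (β l j))) P ∈ R`. For a ring homomorphism `φ : R →+* S`, `φ (P^)` is the value of `P` at
the point of the images (`map_aeval_int`, `map_pt`). Let `I = Ideal.span {(FF k)^ | k < J}`. If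
`b : τ → ℂ` is in `MvPolynomial.zeroLocus ℂ I` (used in Killed.lean), then
`aeval (pt x (b inl) (b inr) β) (FF k) = 0` for all `k < J`, hence for all `k` (`all_of_J hJ`), and
`numeric` gives `aeval (...) (minor i i') = 0`: so `(minor i i')^` is in the vanishing ideal of the zero
locus, which is the radical of `I` (`MvPolynomial.vanishingIdeal_zeroLocus_eq_radical`): a power
`((minor i i')^)^n` is in `I`. The `ℂ`-algebra homomorphism `R → E` with `X (inl (i, j)) ↦ lam i j`,
`X (inr j) ↦ y j` kills the generators of `I` (hypothesis `h`), so it kills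
`((minor i i')^)^n`, and `E` is a field: it kills `(minor i i')^`, which is the claim.
-/

namespace Pool.Agent.H16.RM

open Pool.Agent.H13.Kob

theorem hyp_alg {N M d e J : ℕ}
    (hJ : ∀ k, (FF k : UU N M d) ∈ Ideal.span (FF '' Set.Iio J)) {x : mons N d → ℂ}
    (hx : Good e x) (hM : 0 < M)
    (he : ∀ k ≤ M, ∀ a : Fin k → ℕ, ∃ b : Fin k → ℕ, SameType d a b ∧ ∀ j, b j ≤ e) (hMe : M ≤ e)
    {E : Type*} [Field E] [Algebra ℂ E] (lam : Fin N → Fin M → E) (y : Fin M → E)
    (β : Fin M → Fin M → ℂ)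
    (h : ∀ k < J, MvPolynomial.aeval (pt (fun α => algebraMap ℂ E (x α)) lam y
      fun l j => algebraMap ℂ E (β l j)) (FF k : UU N M d) = 0) (i i' : Fin N) :
    MvPolynomial.aeval (pt (fun α => algebraMap ℂ E (x α)) lam y
      fun l j => algebraMap ℂ E (β l j)) (minor i i' : UU N M d) = 0 := by
  classical
  set P0 : Var N M d → MvPolynomial ((Fin N × Fin M) ⊕ Fin M) ℂ :=
    pt (fun α => MvPolynomial.C (x α)) (fun i j => MvPolynomial.X (Sum.inl (i, j)))
      (fun j => MvPolynomial.X (Sum.inr j)) (fun l j => MvPolynomial.C (β l j)) with hP0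
  set I : Ideal (MvPolynomial ((Fin N × Fin M) ⊕ Fin M) ℂ) :=
    Ideal.span ((fun k => MvPolynomial.aeval P0 (FF k : UU N M d)) '' Set.Iio J) with hI
  have hvan : MvPolynomial.aeval P0 (minor i i' : UU N M d)
      ∈ MvPolynomial.vanishingIdeal ℂ (MvPolynomial.zeroLocus ℂ I) := by
    rw [MvPolynomial.mem_vanishingIdeal_iff]
    intro b hb
    rw [MvPolynomial.mem_zeroLocus_iff] at hb
    have hval : ∀ P : UU N M d, MvPolynomial.aeval b (MvPolynomial.aeval P0 P)
        = MvPolynomial.aeval (pt x (fun i j => b (Sum.inl (i, j))) (fun j => b (Sum.inr j)) β) P := by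
      intro P
      have h1 := map_aeval_int ((MvPolynomial.aeval b : MvPolynomial ((Fin N × Fin M) ⊕ Fin M) ℂ
        →ₐ[ℂ] ℂ) : MvPolynomial ((Fin N × Fin M) ⊕ Fin M) ℂ →+* ℂ) P0 P
      have h2 := map_pt (fun t : MvPolynomial ((Fin N × Fin M) ⊕ Fin M) ℂ => MvPolynomial.aeval b t)
        (fun α => MvPolynomial.C (x α)) (fun (i : Fin N) (j : Fin M) => MvPolynomial.X (Sum.inl (i, j)))
        (fun j => MvPolynomial.X (Sum.inr j)) (fun l j => MvPolynomial.C (β l j))
      simp only [MvPolynomial.aeval_C, MvPolynomial.aeval_X, Algebra.algebraMap_self,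
        RingHom.id_apply] at h2
      rw [← h2]
      exact h1
    have h0 : ∀ k, MvPolynomial.aeval (pt x (fun i j => b (Sum.inl (i, j)))
        (fun j => b (Sum.inr j)) β) (FF k : UU N M d) = 0 := by
      apply all_of_J hJ
      intro k hk
      rw [← hval]
      exact hb _ (Ideal.subset_span ⟨k, hk, rfl⟩)
    rw [hval]
    exact numeric hx hM he hMe _ _ β h0 i i'
  rw [MvPolynomial.vanishingIdeal_zeroLocus_eq_radical] at hvan
  obtain ⟨n, hn⟩ := hvan
  set ψ : MvPolynomial ((Fin N × Fin M) ⊕ Fin M) ℂ →ₐ[ℂ] E :=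
    MvPolynomial.aeval (Sum.elim (fun p => lam p.1 p.2) y) with hψ
  have hval2 : ∀ P : UU N M d, ψ (MvPolynomial.aeval P0 P)
      = MvPolynomial.aeval (pt (fun α => algebraMap ℂ E (x α)) lam y
          fun l j => algebraMap ℂ E (β l j)) P := by
    intro P
    have h1 := map_aeval_int (ψ : MvPolynomial ((Fin N × Fin M) ⊕ Fin M) ℂ →+* E) P0 P
    have h2 := map_pt (fun t : MvPolynomial ((Fin N × Fin M) ⊕ Fin M) ℂ => ψ t)
      (fun α => MvPolynomial.C (x α)) (fun (i : Fin N) (j : Fin M) => MvPolynomial.X (Sum.inl (i, j)))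
      (fun j => MvPolynomial.X (Sum.inr j)) (fun l j => MvPolynomial.C (β l j))
    simp only [hψ, MvPolynomial.aeval_C, MvPolynomial.aeval_X, Sum.elim_inl, Sum.elim_inr] at h2
    rw [← h2]
    exact h1
  have hIk : I ≤ RingHom.ker (ψ : MvPolynomial ((Fin N × Fin M) ⊕ Fin M) ℂ →+* E) := by
    rw [hI, Ideal.span_le]
    rintro _ ⟨k, hk, rfl⟩
    show ψ (MvPolynomial.aeval P0 (FF k : UU N M d)) = 0
    rw [hval2]
    exact h k hk
  have h3 : ψ ((MvPolynomial.aeval P0 (minor i i' : UU N M d)) ^ n) = 0 := hIk hn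
  rw [map_pow, hval2] at h3
  exact eq_zero_of_pow_eq_zero h3

end Pool.Agent.H16.RM
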