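import Pool.Agent.H16.RM.Bas

/-!
# Finitely many derivatives suffice; orbits of linear flows

PROOFS. `exists_J`: `UU N M d` is a noetherian ring (`MvPolynomial` over `ℤ` in finitely many
variables; `Fintype (Var N M d)` by instances), so the ideal spanned by `Set.range FF` is finitely
generated; a finite subset of `range FF` spans it (`Ideal.fg_span_iff_fg_span_finset_subset` or
`Submodule.fg_span_iff_fg_span_finset_subset`, or the ascending chain of the ideals
`span (FF '' Set.Iio J)` with `monotone_stabilizes_iff_noetherian`). Take `J` above all indices used.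

`all_of_J`: the kernel of `aeval p` is an ideal which contains `FF '' Set.Iio J`.

`numeric`: let `E` be as in `Pool.Agent.H13.Hol.exists_exp (Matrix.of B)`: `E 0 = 1` and
`(E i j)' (t) = ∑_l E t i l * B l j`. Put `Y t j = ∑_l y l * E t l j`; `Y 0 = y`,
`(Y j)' (t) = ∑_l Y t l * B l j`. Put `γ t = pt x lam (Y t) B`. For every `P : UU N M d` the function
`t ↦ aeval (γ t) P` has derivative `aeval (γ t) (XB P)` (`MvPolynomial.induction_on`: constants; sums;
`P * X i` by `HasDerivAt.mul` and the Leibniz rule of `XB`, `var_cases`, `XB_vy`, ...). Hence the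
`k`-th derivative of `φ t = aeval (γ t) GG` is `aeval (γ t) (FF k)` (`iteratedDeriv_succ`), which
vanishes at `t = 0` (`γ 0 = pt x lam y B`). By `Complex.taylorSeries_eq_of_entire` (used in the same
way in `H13/Hol/Killed.lean`, `flow_zero`), `φ = 0`. By `aeval_GG` and `form_eval`,
`MvPolynomial.eval (fun i => ∑ j, lam i j * Y t j) (Fm x) = 0` for all `t`. Apply
`Pool.Agent.H13.Hol.numeric_flow hx hM he hMe (m := fun i l => B l i) (u := Y) (L := lam)`; its
conclusion at `i, i'`, with `Y 0 = y`, is `aeval_minor` equal to zero (up to commuting factors in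
`∑ l, B l j * y l`).
-/

namespace Pool.Agent.H16.RM

open Pool.Agent.H13.Kob Pool.Agent.H13.CEV

theorem exists_J (N M d : ℕ) : ∃ J : ℕ, ∀ k, (FF k : UU N M d) ∈ Ideal.span (FF '' Set.Iio J) := by
  have hn : IsNoetherianRing (UU N M d) := inferInstance
  have hmono : Monotone fun J : ℕ => Ideal.span ((FF : ℕ → UU N M d) '' Set.Iio J) := by
    intro a b hab
    apply Ideal.span_mono
    apply Set.image_mono
    intro c hc
    exact lt_of_lt_of_le hc hab
  obtain ⟨n, hn'⟩ := monotone_stabilizes_iff_noetherian.mpr hn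
    ⟨fun J : ℕ => Ideal.span ((FF : ℕ → UU N M d) '' Set.Iio J), hmono⟩
  refine ⟨n, fun k => ?_⟩
  rcases lt_or_ge k n with hk | hk
  · exact Ideal.subset_span ⟨k, hk, rfl⟩
  · have h1 := hn' (k + 1) (by omega)
    have h2 : Ideal.span ((FF : ℕ → UU N M d) '' Set.Iio n)
        = Ideal.span ((FF : ℕ → UU N M d) '' Set.Iio (k + 1)) := h1
    rw [h2]
    exact Ideal.subset_span ⟨k, Nat.lt_succ_self k, rfl⟩

theorem all_of_J {N M d J : ℕ} (hJ : ∀ k, (FF k : UU N M d) ∈ Ideal.span (FF '' Set.Iio J))
    {R : Type*} [CommRing R] (p : Var N M d → R)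
    (h : ∀ k < J, MvPolynomial.aeval p (FF k : UU N M d) = 0) (k : ℕ) :
    MvPolynomial.aeval p (FF k : UU N M d) = 0 := by
  have h1 : Ideal.span ((FF : ℕ → UU N M d) '' Set.Iio J)
      ≤ RingHom.ker (MvPolynomial.aeval p : UU N M d →ₐ[ℤ] R) := by
    rw [Ideal.span_le]
    rintro _ ⟨j, hj, rfl⟩
    exact h j hj
  exact h1 (hJ k)

private theorem Num_der {N M d : ℕ} (x : mons N d → ℂ) (lam : Fin N → Fin M → ℂ)
    (Y : ℂ → Fin M → ℂ) (B : Fin M → Fin M → ℂ)
    (hY : ∀ t j, HasDerivAt (fun t => Y t j) (∑ l, Y t l * B l j) t) (P : UU N M d) (t : ℂ) :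
    HasDerivAt (fun t => MvPolynomial.aeval (pt x lam (Y t) B) P)
      (MvPolynomial.aeval (pt x lam (Y t) B) (XB P)) t := by
  induction P using MvPolynomial.induction_on with
  | C a =>
    have h1 : XB (MvPolynomial.C a : UU N M d) = 0 := XB.map_algebraMap a
    rw [h1, map_zero]
    simp only [MvPolynomial.aeval_C]
    exact hasDerivAt_const _ _
  | add p q hp hq =>
    simp only [map_add]
    exact hp.add hq
  | mul_X p s hp =>
    have h1 : HasDerivAt (fun t => MvPolynomial.aeval (pt x lam (Y t) B)
        (MvPolynomial.X s : UU N M d))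
        (MvPolynomial.aeval (pt x lam (Y t) B) (XB (MvPolynomial.X s : UU N M d))) t := by
      rcases var_cases (N := N) (M := M) (d := d) s with ⟨α, hα⟩ | ⟨i, j, hij⟩ | ⟨j, hj⟩ |
          ⟨l, j, hlj⟩
      · rw [hα, XB_vc, map_zero]
        simp only [aeval_vc]
        exact hasDerivAt_const _ _
      · rw [hij, XB_vl, map_zero]
        simp only [aeval_vl]
        exact hasDerivAt_const _ _
      · rw [hj, XB_vy, map_sum]
        simp only [map_mul, aeval_vy, aeval_vB]
        exact hY t j
      · rw [hlj, XB_vB, map_zero]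
        simp only [aeval_vB]
        exact hasDerivAt_const _ _
    have h2 : XB (p * MvPolynomial.X s : UU N M d)
        = XB p * MvPolynomial.X s + p * XB (MvPolynomial.X s) := by
      rw [Derivation.leibniz, smul_eq_mul, smul_eq_mul]
      ring
    rw [h2, map_add, map_mul, map_mul]
    have h3 : (fun t => MvPolynomial.aeval (pt x lam (Y t) B) (p * MvPolynomial.X s : UU N M d))
        = fun t => MvPolynomial.aeval (pt x lam (Y t) B) p
          * MvPolynomial.aeval (pt x lam (Y t) B) (MvPolynomial.X s : UU N M d) := by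
      funext t
      rw [map_mul]
    rw [h3]
    exact hp.mul h1

theorem numeric {N M d e : ℕ} {x : mons N d → ℂ} (hx : Good e x) (hM : 0 < M)
    (he : ∀ k ≤ M, ∀ a : Fin k → ℕ, ∃ b : Fin k → ℕ, SameType d a b ∧ ∀ j, b j ≤ e) (hMe : M ≤ e)
    (lam : Fin N → Fin M → ℂ) (y : Fin M → ℂ) (B : Fin M → Fin M → ℂ)
    (h : ∀ k, MvPolynomial.aeval (pt x lam y B) (FF k : UU N M d) = 0) (i i' : Fin N) :
    MvPolynomial.aeval (pt x lam y B) (minor i i' : UU N M d) = 0 := by
  classical
  obtain ⟨E, hE0, hE1, -⟩ := Pool.Agent.H13.Hol.exists_exp (Matrix.of B)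
  set Y : ℂ → Fin M → ℂ := fun t j => ∑ l, y l * E t l j with hYdef
  have hY : ∀ t j, HasDerivAt (fun t => Y t j) (∑ l, Y t l * B l j) t := by
    intro t j
    have h1 : ∑ l, Y t l * B l j = ∑ l, y l * ∑ l', E t l l' * B l' j := by
      simp only [hYdef, Finset.sum_mul, Finset.mul_sum]
      rw [Finset.sum_comm]
      apply Finset.sum_congr rfl
      intro l _
      apply Finset.sum_congr rfl
      intro l' _
      ring
    rw [h1]
    simp only [hYdef]
    apply HasDerivAt.fun_sum
    intro l _
    exact (hE1 t l j).const_mul _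
  have hY0 : Y 0 = y := by
    funext j
    simp only [hYdef, hE0]
    simp
  have hders : ∀ n : ℕ, iteratedDeriv n
      (fun t => MvPolynomial.aeval (pt x lam (Y t) B) (GG : UU N M d))
      = fun t => MvPolynomial.aeval (pt x lam (Y t) B) (FF n : UU N M d) := by
    intro n
    induction n with
    | zero =>
      funext t
      rw [iteratedDeriv_zero, FF_zero]
    | succ n ih =>
      rw [iteratedDeriv_succ, ih]
      funext t
      rw [(Num_der x lam Y B hY (FF n) t).deriv, FF_succ]
  have hd : Differentiable ℂ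
      (fun t => MvPolynomial.aeval (pt x lam (Y t) B) (GG : UU N M d)) :=
    fun t => (Num_der x lam Y B hY GG t).differentiableAt
  have hzero : ∀ t, MvPolynomial.aeval (pt x lam (Y t) B) (GG : UU N M d) = 0 := by
    intro t
    have hT := Complex.taylorSeries_eq_of_entire hd 0 t
    rw [← hT]
    have h0 : ∀ n : ℕ, iteratedDeriv n
        (fun t => MvPolynomial.aeval (pt x lam (Y t) B) (GG : UU N M d)) 0 = 0 := by
      intro n
      rw [hders n]
      simp only [hY0]
      exact h n
    simp only [h0, smul_zero, tsum_zero]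
  have hF : ∀ t, MvPolynomial.eval (fun i => ∑ j, lam i j * Y t j) (Fm x) = 0 := by
    intro t
    rw [form_eval, ← aeval_GG (x := x) (lam := lam) (y := Y t) (B := B)]
    exact hzero t
  have hfl := Pool.Agent.H13.Hol.numeric_flow hx hM he hMe (fun i l => B l i) Y (by
    intro t j
    have h1 := hY t j
    have h2 : ∑ l, Y t l * B l j = ∑ l, B l j * Y t l :=
      Finset.sum_congr rfl fun l _ => mul_comm _ _
    rw [h2] at h1
    exact h1) lam hF i i'
  rw [aeval_minor, sub_eq_zero]
  rw [hY0] at hfl
  have h3 : ∀ j, ∑ l, y l * B l j = ∑ l, B l j * y l := fun j =>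
    Finset.sum_congr rfl fun l _ => mul_comm _ _
  simp only [h3]
  exact hfl

end Pool.Agent.H16.RM
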