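import Pool.Agent.H16.RM.Num

/-!
# From the field of quotients of entire functions to the points of the plane

PROOF. `repH` : the map `KN →+* Germ (codiscrete ℂ) ℂ`, `x ↦ ↑(rep x)`, is a ring homomorphism
(`rep_one`, `rep_mul`, `rep_zero`, `rep_add`). So for `P : MvPolynomial τ ℤ` and `p : τ → KN`
(`map_aeval_int` for `repH` and for `Germ.coeRingHom (codiscrete ℂ) : (ℂ → ℂ) →+* _` and
`Pi.evalRingHom`): for almost all `z` (in `codiscrete ℂ`)
`rep (aeval p P) z = aeval (fun s => rep (p s) z) P`; this is `rep_aeval`. (Or directly by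
`MvPolynomial.induction_on`, from `rep_add`, `rep_mul`, `rep_const` for integers.)

`hyp_KN`: each `B l j` is a constant: `DK_const` gives `β l j : ℂ` with
`B l j = io (algebraMap ℂ EN (β l j))`. Let `p = pt (fun α => cK (x α)) lam y B`. For almost all `z`:
`rep (p s) z = p_z s` with `p_z = pt x (fun i j => rep (lam i j) z) (fun j => rep (y j) z) β`
(`rep_const` for the coefficients and for `B`; there are finitely many variables, `map_pt`), and
`aeval p_z (FF k) = rep (aeval p (FF k)) z = rep 0 z = 0` for `k < J` (finitely many `k`; `rep_zero`).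
So `aeval p_z (FF k) = 0` for all `k` (`all_of_J`), and `numeric` gives
`aeval p_z (minor i i') = 0`, i.e. `rep (aeval p (minor i i')) z = 0 = rep 0 z`. Conclude by `rep_inj`.
-/

namespace Pool.Agent.H16.RM

open Filter Pool.Agent.H13.Kob Pool.Agent.H13.Nev

theorem rep_aeval {τ : Type*} (p : τ → KN) (P : MvPolynomial τ ℤ) :
    ∀ᶠ z in codiscrete ℂ, rep (MvPolynomial.aeval p P) z
      = MvPolynomial.aeval (fun s => rep (p s) z) P := by
  induction P using MvPolynomial.induction_on with
  | C a =>
    have h : (MvPolynomial.aeval p (MvPolynomial.C a : MvPolynomial τ ℤ) : KN) =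
        io (algebraMap ℂ EN (a : ℂ)) := by
      rw [MvPolynomial.aeval_C, eq_intCast, map_intCast, map_intCast]
    rw [h]
    filter_upwards [rep_const (a : ℂ)] with z hz
    rw [hz, MvPolynomial.aeval_C, eq_intCast]
  | add P Q hP hQ =>
    filter_upwards [hP, hQ, rep_add (MvPolynomial.aeval p P) (MvPolynomial.aeval p Q)]
      with z h1 h2 h3
    rw [map_add, h3, h1, h2, map_add]
  | mul_X P i hP =>
    filter_upwards [hP, rep_mul (MvPolynomial.aeval p P) (p i)] with z h1 h2
    rw [map_mul, MvPolynomial.aeval_X, h2, h1, map_mul, MvPolynomial.aeval_X]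

theorem hyp_KN {N M d e J : ℕ}
    (hJ : ∀ k, (FF k : UU N M d) ∈ Ideal.span (FF '' Set.Iio J)) {x : mons N d → ℂ}
    (hx : Good e x) (hM : 0 < M)
    (he : ∀ k ≤ M, ∀ a : Fin k → ℕ, ∃ b : Fin k → ℕ, SameType d a b ∧ ∀ j, b j ≤ e) (hMe : M ≤ e)
    (lam : Fin N → Fin M → KN) (y : Fin M → KN) (B : Fin M → Fin M → KN)
    (hB : ∀ l j, DK (B l j) = 0)
    (h : ∀ k < J, MvPolynomial.aeval (pt (fun α => cK (x α)) lam y B) (FF k : UU N M d) = 0)
    (i i' : Fin N) :
    MvPolynomial.aeval (pt (fun α => cK (x α)) lam y B) (minor i i' : UU N M d) = 0 := by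
  classical
  choose β hβ using fun l j => DK_const (hB l j)
  have hpt : ∀ᶠ z in codiscrete ℂ,
      (fun s => rep (pt (fun α => cK (x α)) lam y B s) z) =
        pt x (fun i j => rep (lam i j) z) (fun j => rep (y j) z) β := by
    have h1 : ∀ᶠ z in codiscrete ℂ, ∀ α, rep (cK (x α)) z = x α :=
      eventually_all.2 fun α => rep_const (x α)
    have h2 : ∀ᶠ z in codiscrete ℂ, ∀ l j, rep (B l j) z = β l j :=
      eventually_all.2 fun l => eventually_all.2 fun j => by
        rw [hβ l j]
        exact rep_const _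
    filter_upwards [h1, h2] with z a1 a2
    refine (map_pt (fun t : KN => rep t z) (fun α => cK (x α)) lam y B).trans ?_
    simp only [a1, a2]
  have hall : ∀ᶠ z in codiscrete ℂ, ∀ k ∈ Finset.range J, MvPolynomial.aeval
      (fun s => rep (pt (fun α => cK (x α)) lam y B s) z) (FF k : UU N M d) = 0 := by
    refine (Filter.eventually_all_finset _).2 fun k hk => ?_
    filter_upwards [rep_aeval (pt (fun α => cK (x α)) lam y B) (FF k : UU N M d), rep_zero]
      with z a1 a2
    rw [← a1, h k (Finset.mem_range.1 hk), a2]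
  refine rep_inj ?_
  filter_upwards [hpt, hall, rep_zero,
    rep_aeval (pt (fun α => cK (x α)) lam y B) (minor i i' : UU N M d)] with z a1 a2 a3 a4
  rw [a4, a3, a1]
  refine numeric hx hM he hMe _ _ _ (all_of_J hJ _ fun k hk => ?_) i i'
  have a5 := a2 k (Finset.mem_range.2 hk)
  rw [a1] at a5
  exact a5

end Pool.Agent.H16.RM
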