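import Pool.Agent.H16.RM.Uni
import Pool.Agent.H16.RM.Alg
import Pool.Agent.H16.RM.Gau

/-!
# The quotients of the coordinates are small

PROOF of `ratio`. Apply `uniform N (M+1) d (M+1)` (it gives `c`). Let `g₀`, `a` be as in `coefW y q hW`,
`B = BB (MMW y q) (SSW y q)`, `w i j = (nab DK g₀)^[i] (io (y j))`, so `Matrix.of w = Wm DK g₀ Y` with
`Y j = io (y j)` and its determinant is `io (Wr y) ≠ 0` (`det_Wm`, `io_Wr`). Companion matrix:
`A i l = if (i : ℕ) = M then a l else if (l : ℕ) = i + 1 then 1 else 0`; entries in `B (M+1)`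
(`Filt.zero_mem`, `Filt.one_mem`). `DK (w i j) = ∑_l A i l * w l j - g₀ * w i j`: since
`nab DK g₀ x = DK x + g₀ x`, for `i < M` the sum is `w (i+1) j = nab DK g₀ (w i j)`
(`Function.iterate_succ_apply'`), for `i = M` it is `IsA`. `lam i j = io (q j i) ∈ B 1 ⊆ B (M+1)`.
With the row index `0`: `∑_j lam i j * w 0 j = ∑_j io (q j i) * io (y j) = io (g i)`, and
`form (fun α => cK (x α)) (fun i => io (g i)) = io (form (algebraMap ∘ x) g) = 0` (`map_form`), because
the function `z ↦ form x (vec g z)` (apply `ev z`, `map_form`) vanishes by `form_eval`. `filt`,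
`algF` for `gaugeW`. So `io (g i) / io (g i') ∈ B c` whenever `g i' ≠ 0`.

-/

namespace Pool.Agent.H16.RM

open Pool.Agent.H13.Kob Pool.Agent.H13.Nev Real Pool.Agent.H13.CEV

theorem ratio (N M d : ℕ) : ∃ c : ℕ, ∀ (e : ℕ) (x : mons N d → ℂ), Good e x →
    (∀ k ≤ M + 1, ∀ a : Fin k → ℕ, ∃ b : Fin k → ℕ, SameType d a b ∧ ∀ j, b j ≤ e) → M + 1 ≤ e →
    ∀ (y : Fin (M + 1) → EN) (q : Fin (M + 1) → Fin N → EN) (g : Fin N → EN), Wr y ≠ 0 →
    (∀ i, g i = ∑ j, y j * q j i) → (∀ z, MvPolynomial.eval (vec g z) (Fm x) = 0) →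
    ∀ i i', g i' ≠ 0 → io (g i) / io (g i') ∈ BB (MMW y q) (SSW y q) c := by
  obtain ⟨c, hc⟩ := uniform N (M + 1) d (M + 1) (Nat.succ_pos M)
  refine ⟨c, ?_⟩
  intro e x hx hst hMe y q g hW hg hF i i' hi'
  obtain ⟨g₀, a, hA, ha⟩ := coefW y q hW
  have hfilt := filt (gaugeW y q)
  let w : Fin (M + 1) → Fin (M + 1) → KN := fun i j => (nab DK g₀)^[(i : ℕ)] (io (y j))
  have hwdet : (Matrix.of w).det ≠ 0 := by
    have h1 : Matrix.of w = Wm DK g₀ (fun j => io (y j)) := rfl
    rw [h1, det_Wm DK_add DK_mul, ← io_Wr]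
    exact io_ne hW
  let A : Fin (M + 1) → Fin (M + 1) → KN := fun i l =>
    if (i : ℕ) = M then a l else if (l : ℕ) = i + 1 then 1 else 0
  have hAmem : ∀ i j, A i j ∈ BB (MMW y q) (SSW y q) (M + 1) := by
    intro i j
    show (if (i : ℕ) = M then a j else if (j : ℕ) = i + 1 then (1 : KN) else 0) ∈ _
    split_ifs
    · exact ha j
    · exact hfilt.one_mem _
    · exact hfilt.zero_mem _
  have hD : ∀ i j, DK (w i j) = ∑ l, A i l * w l j - g₀ * w i j := by
    intro i j
    have h1 : nab DK g₀ (w i j) = ∑ l, A i l * w l j := by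
      by_cases hi : (i : ℕ) = M
      · have h2 : nab DK g₀ (w i j) = (nab DK g₀)^[M + 1] (io (y j)) := by
          show nab DK g₀ ((nab DK g₀)^[(i : ℕ)] (io (y j))) = _
          rw [hi, Function.iterate_succ_apply']
        rw [h2, hA j]
        apply Finset.sum_congr rfl
        intro l _
        show a l * (nab DK g₀)^[(l : ℕ)] (io (y j))
          = (if (i : ℕ) = M then a l else if (l : ℕ) = i + 1 then (1 : KN) else 0) *
            (nab DK g₀)^[(l : ℕ)] (io (y j))
        rw [if_pos hi]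
      · have hlt : (i : ℕ) + 1 < M + 1 := by
          have := i.2
          omega
        rw [Finset.sum_eq_single (⟨i + 1, hlt⟩ : Fin (M + 1))]
        · show nab DK g₀ ((nab DK g₀)^[(i : ℕ)] (io (y j)))
            = (if (i : ℕ) = M then a ⟨i + 1, hlt⟩ else
                if ((i : ℕ) + 1 : ℕ) = i + 1 then (1 : KN) else 0) *
              (nab DK g₀)^[(i : ℕ) + 1] (io (y j))
          rw [if_neg hi, if_pos rfl, one_mul, Function.iterate_succ_apply']
        · intro l _ hl
          show (if (i : ℕ) = M then a l else if (l : ℕ) = i + 1 then (1 : KN) else 0) *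
            (nab DK g₀)^[(l : ℕ)] (io (y j)) = 0
          rw [if_neg hi, if_neg (fun hh => hl (Fin.ext hh)), zero_mul]
        · intro hh
          exact absurd (Finset.mem_univ _) hh
    rw [← h1, nab]
    ring
  have hlam : ∀ (i : Fin N) (j : Fin (M + 1)),
      io (q j i) ∈ BB (MMW y q) (SSW y q) (M + 1) := fun i j =>
    hfilt.mono (Nat.succ_le_succ (Nat.zero_le M)) (q_memW y q j i)
  have hsum : ∀ i, ∑ j, io (q j i) * w 0 j = io (g i) := by
    intro i
    rw [hg i, map_sum]
    apply Finset.sum_congr rfl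
    intro j _
    show io (q j i) * (nab DK g₀)^[((0 : Fin (M + 1)) : ℕ)] (io (y j)) = _
    rw [Fin.val_zero, Function.iterate_zero_apply, map_mul, mul_comm]
  have hform : form (fun α => cK (x α)) (fun i => ∑ j, io (q j i) * w 0 j) = 0 := by
    simp only [hsum]
    have h1 : form (fun α => cK (x α)) (fun i => io (g i))
        = io (form (fun α => algebraMap ℂ EN (x α)) g) := by
      rw [map_form]; rfl
    rw [h1]
    have h2 : form (fun α => algebraMap ℂ EN (x α)) g = 0 := by
      apply EN.ext'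
      intro z
      have h3 : ev z (form (fun α => algebraMap ℂ EN (x α)) g) = form x (vec g z) := by
        rw [map_form]; rfl
      rw [← ev_apply, h3, ← form_eval, hF z]; rfl
    rw [h2, map_zero]
  have := hc e x hx hst hMe (BB (MMW y q) (SSW y q)) hfilt (algF (gaugeW y q)) w hwdet A hAmem g₀
    hD (fun i j => io (q j i)) hlam 0 hform i i' (by rw [hsum]; exact io_ne hi')
  rw [hsum, hsum] at this
  exact this

end Pool.Agent.H16.RM
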