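import Pool.Agent.H16.RM.UniG
import Pool.Agent.H16.RM.Alg
import Pool.Agent.H16.RM.GauO

/-!
# Curves whose coordinates satisfy linear differential equations: quotients of the coordinates

PROOF. If `M = 0` then `m i' = 0` and `p i' 0 * g i' = 0` with `p i' 0 ≠ 0`, so `g i' = 0`: nothing to
show (take `c = 0`). Let `M > 0`; if `N = 0` there is no `i`. Otherwise apply
`uniformG N (N * M) 1 d 1`. Write `s : Fin (N * M)` as the pair `(i, a) = finProdFinEquiv.symm s`,
`i : Fin N`, `a : Fin M`. Put `w s _ = if a < m i then DK^[a] (io (g i)) else 0`, `q = 0` and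
`A (i,a) (i',b) = if i = i' ∧ a < m i then (if a + 1 < m i then (if b = a + 1 then 1 else 0)
  else (if b < m i then -(io (p i b) / io (p i (m i))) else 0)) else 0`;
all entries are in `BB (MMO m p) (SSO m p) 1` (`coef_memO`, `Filt.zero_mem`, `Filt.one_mem` of
`filt (gaugeO m p)`). Equation `DK (w s 0) = ∑_t A s t * w t 0` (sum over `t = (i', b)`, only
`i' = i` contributes): if `a ≥ m i`: both sides `0` (`DK 0 = 0`). If `a + 1 < m i` (note `a + 1 < M`):
`DK (DK^[a] G) = DK^[a+1] G`. If `a + 1 = m i`: the equation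
`∑_{l ≤ m i} io (p i l) * DK^[l] (io (g i)) = 0` (from `hode` with `DK_io`:
`DK^[l] (io f) = io (dE^[l] f)`) solved for the highest derivative; the sum over `b : Fin M` with
`b < m i` is the sum over `range (m i)` (`m i ≤ M`).
`lam i (i', a) _ = if i' = i ∧ (a : ℕ) = 0 then 1 else 0`, in `BB _ _ 1`. Then
`∑_s ∑_j lam i s j * w s j = w (i, 0) = io (g i)`: if `m i > 0` by definition, and if `m i = 0` both
sides are `0` (`p i 0 * g i = 0`). `form (fun α => cK (x α)) (fun i => io (g i)) = 0` as in `ratio`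
(file Rat: `map_form`, `form_eval`). `filt`, `algF` for `gaugeO`.
-/

namespace Pool.Agent.H16.RM

open Pool.Agent.H13.Kob Pool.Agent.H13.Nev Real Pool.Agent.H13.CEV

private lemma RatO_it (f : EN) (n : ℕ) : DK^[n] (io f) = io (dE^[n] f) := by
  induction n with
  | zero => rfl
  | succ n ih => rw [Function.iterate_succ_apply', Function.iterate_succ_apply', ih, DK_io]

private lemma RatO_zero : DK (0 : KN) = 0 := by
  have h := DK_mul (0 : KN) 0
  simpa using h

/-- the vector -/
private noncomputable def RatOW {N M : ℕ} (m : Fin N → ℕ) (g : Fin N → EN) (x : Fin N × Fin M) : KN :=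
  if (x.2 : ℕ) < m x.1 then DK^[(x.2 : ℕ)] (io (g x.1)) else 0

/-- the matrix -/
private noncomputable def RatOA {N M : ℕ} (m : Fin N → ℕ) (p : Fin N → ℕ → EN) (x y : Fin N × Fin M) : KN :=
  if x.1 = y.1 ∧ (x.2 : ℕ) < m x.1 then
    (if (x.2 : ℕ) + 1 < m x.1 then (if (y.2 : ℕ) = x.2 + 1 then 1 else 0)
      else (if (y.2 : ℕ) < m x.1 then -(io (p x.1 y.2) / io (p x.1 (m x.1))) else 0)) else 0

private lemma RatO_mem {N M : ℕ} (m : Fin N → ℕ) (p : Fin N → ℕ → EN) (x y : Fin N × Fin M) :
    RatOA m p x y ∈ BB (MMO m p) (SSO m p) 1 := by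
  have hf := filt (gaugeO m p)
  rw [RatOA]
  split_ifs with h1 h2 h3 h4
  · exact hf.one_mem _
  · exact hf.zero_mem _
  · exact coef_memO m p x.1 y.2 h4
  · exact hf.zero_mem _
  · exact hf.zero_mem _

private lemma RatO_sum (F : ℕ → KN) {m M : ℕ} (h : m ≤ M) :
    ∑ b : Fin M, (if (b : ℕ) < m then F b else 0) = ∑ b ∈ Finset.range m, F b := by
  rw [Fin.sum_univ_eq_sum_range (fun b => if b < m then F b else 0) M, ← Finset.sum_filter]
  apply Finset.sum_congr _ (fun _ _ => rfl)
  ext b
  rw [Finset.mem_filter, Finset.mem_range, Finset.mem_range]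
  constructor
  · exact fun h => h.2
  · intro hb
    exact ⟨by omega, hb⟩

private lemma RatO_eq {N M : ℕ} {m : Fin N → ℕ} {p : Fin N → ℕ → EN} {g : Fin N → EN} (hm : ∀ i, m i ≤ M)
    (hp : ∀ i, p i (m i) ≠ 0) (ho : ∀ i, ∑ l ∈ Finset.range (m i + 1), p i l * dE^[l] (g i) = 0)
    (x : Fin N × Fin M) : DK (RatOW m g x) = ∑ y : Fin N × Fin M, RatOA m p x y * RatOW m g y := by
  obtain ⟨i, a⟩ := x
  have h1 : ∑ y : Fin N × Fin M, RatOA m p (i, a) y * RatOW m g y =
      ∑ b : Fin M, RatOA m p (i, a) (i, b) * RatOW m g (i, b) := by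
    rw [Fintype.sum_prod_type]
    apply Finset.sum_eq_single i
    · intro j _ hj
      apply Finset.sum_eq_zero
      intro b _
      rw [RatOA, if_neg (fun h => hj h.1.symm), zero_mul]
    · intro h
      exact absurd (Finset.mem_univ _) h
  rw [h1]
  by_cases ha : (a : ℕ) < m i
  · have hW : RatOW m g (i, a) = DK^[(a : ℕ)] (io (g i)) := if_pos ha
    rw [hW, ← Function.iterate_succ_apply' DK]
    by_cases ha2 : (a : ℕ) + 1 < m i
    · have hlt : (a : ℕ) + 1 < M := lt_of_lt_of_le ha2 (hm i)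
      rw [Finset.sum_eq_single (⟨(a : ℕ) + 1, hlt⟩ : Fin M)]
      · have hA : RatOA m p (i, a) (i, (⟨(a : ℕ) + 1, hlt⟩ : Fin M)) = 1 := by
          rw [RatOA, if_pos ⟨rfl, ha⟩, if_pos ha2, if_pos rfl]
        have hW2 : RatOW m g (i, (⟨(a : ℕ) + 1, hlt⟩ : Fin M)) = DK^[(a : ℕ) + 1] (io (g i)) := if_pos ha2
        rw [hA, hW2, one_mul]
      · intro b _ hb
        rw [RatOA, if_pos ⟨rfl, ha⟩, if_pos ha2, if_neg (fun hh => hb (Fin.ext hh)), zero_mul]
      · intro hh
        exact absurd (Finset.mem_univ _) hh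
    · have hma : m i = (a : ℕ) + 1 := by omega
      have h2 : ∀ b : Fin M, RatOA m p (i, a) (i, b) * RatOW m g (i, b) =
          if (b : ℕ) < m i then -(io (p i b) / io (p i (m i))) * DK^[(b : ℕ)] (io (g i)) else 0 := by
        intro b
        rw [RatOA, if_pos ⟨rfl, ha⟩, if_neg ha2, RatOW]
        by_cases hb : (b : ℕ) < m i
        · simp only [hb, if_true]
        · simp only [hb, if_false, mul_zero]
      rw [Finset.sum_congr rfl fun b _ => h2 b,
        RatO_sum (fun b => -(io (p i b) / io (p i (m i))) * DK^[b] (io (g i))) (hm i)]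
      have h3 : io (∑ l ∈ Finset.range (m i + 1), p i l * dE^[l] (g i)) = 0 := by
        rw [ho i, map_zero]
      rw [map_sum, Finset.sum_range_succ, map_mul, ← RatO_it] at h3
      have hne : io (p i (m i)) ≠ 0 := io_ne (hp i)
      have h4 : ∑ b ∈ Finset.range (m i), -(io (p i b) / io (p i (m i))) * DK^[b] (io (g i)) =
          -(∑ b ∈ Finset.range (m i), io (p i b * dE^[b] (g i))) / io (p i (m i)) := by
        rw [← Finset.sum_neg_distrib, Finset.sum_div]
        apply Finset.sum_congr rfl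
        intro b _
        rw [map_mul, ← RatO_it]
        ring
      rw [h4, eq_div_iff hne, Nat.succ_eq_add_one, ← hma, mul_comm]
      linear_combination h3
  · have hW : RatOW m g (i, a) = 0 := if_neg ha
    rw [hW, RatO_zero]
    symm
    apply Finset.sum_eq_zero
    intro b _
    rw [RatOA, if_neg (fun h => ha h.2), zero_mul]

theorem ratioO (N M d : ℕ) : ∃ c : ℕ, ∀ (e : ℕ) (x : mons N d → ℂ), Good e x →
    (∀ k ≤ (N * M) * (N * M), ∀ a : Fin k → ℕ, ∃ b : Fin k → ℕ, SameType d a b ∧ ∀ j, b j ≤ e) →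
    (N * M) * (N * M) ≤ e →
    ∀ (m : Fin N → ℕ) (p : Fin N → ℕ → EN) (g : Fin N → EN), (∀ i, m i ≤ M) →
    (∀ i, p i (m i) ≠ 0) →
    (∀ i, ∑ l ∈ Finset.range (m i + 1), p i l * dE^[l] (g i) = 0) →
    (∀ z, MvPolynomial.eval (vec g z) (Fm x) = 0) →
    ∀ i i', g i' ≠ 0 → io (g i) / io (g i') ∈ BB (MMO m p) (SSO m p) c := by
  rcases Nat.eq_zero_or_pos M with hM0 | hM0
  · refine ⟨0, ?_⟩
    intro e x hx hst hMe m p g hm hp ho hF i i' hi'
    exfalso
    have h0 : m i' = 0 := by
      have := hm i'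
      omega
    have h1 := ho i'
    have h2 := hp i'
    rw [h0] at h1 h2
    rw [zero_add, Finset.sum_range_one, Function.iterate_zero_apply] at h1
    rcases mul_eq_zero.1 h1 with h3 | h3
    · exact h2 h3
    · exact hi' h3
  rcases Nat.eq_zero_or_pos N with hN0 | hN0
  · refine ⟨0, ?_⟩
    intro e x hx hst hMe m p g hm hp ho hF i
    subst hN0
    exact i.elim0
  obtain ⟨c, hc⟩ := uniformG N (N * M) 1 d 1 (Nat.mul_pos hN0 hM0)
  refine ⟨c, ?_⟩
  intro e x hx hst hMe m p g hm hp ho hF i i' hi'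
  have hfilt := filt (gaugeO m p)
  let E : Fin N × Fin M ≃ Fin (N * M) := finProdFinEquiv
  let w : Fin (N * M) → Fin 1 → KN := fun s _ => RatOW m g (E.symm s)
  let A : Fin (N * M) → Fin (N * M) → KN := fun s t => RatOA m p (E.symm s) (E.symm t)
  let lam : Fin N → Fin (N * M) → Fin 1 → KN := fun i s _ =>
    if (E.symm s).1 = i ∧ ((E.symm s).2 : ℕ) = 0 then 1 else 0
  have hAmem : ∀ s t, A s t ∈ BB (MMO m p) (SSO m p) 1 := fun s t => RatO_mem m p _ _
  have hD : ∀ s j, DK (w s j) = ∑ l, A s l * w l j - 0 * w s j := by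
    intro s j
    rw [zero_mul, sub_zero]
    show DK (RatOW m g (E.symm s)) = ∑ l, RatOA m p (E.symm s) (E.symm l) * RatOW m g (E.symm l)
    rw [RatO_eq hm hp ho (E.symm s)]
    exact (Equiv.sum_comp E.symm fun y => RatOA m p (E.symm s) y * RatOW m g y).symm
  have hlam : ∀ i s j, lam i s j ∈ BB (MMO m p) (SSO m p) 1 := by
    intro i s j
    show (if (E.symm s).1 = i ∧ ((E.symm s).2 : ℕ) = 0 then (1 : KN) else 0) ∈ _
    split_ifs
    · exact hfilt.one_mem _
    · exact hfilt.zero_mem _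
  have hsum : ∀ i, ∑ a, ∑ j, lam i a j * w a j = io (g i) := by
    intro i
    have h1 : ∀ s, ∑ j, lam i s j * w s j =
        (fun y : Fin N × Fin M => (if y.1 = i ∧ (y.2 : ℕ) = 0 then (1 : KN) else 0) * RatOW m g y)
          (E.symm s) := fun s => Fin.sum_univ_one _
    rw [Finset.sum_congr rfl fun s _ => h1 s,
      Equiv.sum_comp E.symm fun y : Fin N × Fin M =>
        (if y.1 = i ∧ (y.2 : ℕ) = 0 then (1 : KN) else 0) * RatOW m g y,
      Finset.sum_eq_single ((i, ⟨0, hM0⟩) : Fin N × Fin M)]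
    · rw [if_pos ⟨rfl, rfl⟩, one_mul, RatOW]
      show (if 0 < m i then io (g i) else 0) = io (g i)
      split_ifs with h
      · rfl
      · have h0 : m i = 0 := by omega
        have h2 := ho i
        have h3 := hp i
        rw [h0] at h2 h3
        rw [zero_add, Finset.sum_range_one, Function.iterate_zero_apply] at h2
        rcases mul_eq_zero.1 h2 with h4 | h4
        · exact absurd h4 h3
        · rw [h4, map_zero]
    · intro y _ hy
      rw [if_neg, zero_mul]
      rintro ⟨h2, h3⟩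
      exact hy (Prod.ext h2 (Fin.ext h3))
    · intro hh
      exact absurd (Finset.mem_univ _) hh
  have hform : form (fun α => cK (x α)) (fun i => ∑ a, ∑ j, lam i a j * w a j) = 0 := by
    simp only [hsum]
    have h1 : form (fun α => cK (x α)) (fun i => io (g i))
        = io (form (fun α => algebraMap ℂ EN (x α)) g) := by
      rw [map_form]; rfl
    rw [h1]
    have h2 : form (fun α => algebraMap ℂ EN (x α)) g = 0 := by
      apply EN.ext'
      intro z
      have h3 : ev z (form (fun α => algebraMap ℂ EN (x α)) g) = form x (vec g z) := by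
        rw [map_form]; rfl
      rw [← ev_apply, h3, ← form_eval, hF z]; rfl
    rw [h2, map_zero]
  have := hc e x hx hst hMe (BB (MMO m p) (SSO m p)) hfilt (algF (gaugeO m p)) w A hAmem 0
    hD lam hlam hform i i' (by rw [hsum]; exact io_ne hi')
  rw [hsum, hsum] at this
  exact this

end Pool.Agent.H16.RM
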