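import Pool.Agent.H16.RM.Nf

/-!
# Reduction of order with weights

PROOF. Induction on `M`. `M = 0`: nothing to show (`Fin 0`). Step to `M + 1`: `f 0 ≠ 0` (otherwise
take `a = Pi.single 0 1` in `hind`; `D 1 = 0`, `D 0 = 0`). Put `h_j = D (f j.succ / f 0)`, `j : Fin M`;
`h_j ∈ C`.

`Ind D h`: let `D (a j) = 0` and `∑ a_j D (f_{j+1} / f_0) = 0`. Then `k = ∑ a_j * (f_{j+1} / f_0)` has
`D k = 0` (`D (a_j u) = a_j D u`), and `∑ a_j f_{j+1} - k f_0 = 0`, so `hind` for
`Fin.cons (-k) a` gives `a_j = 0`.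

Induction hypothesis: `c' : Fin M → K`, `c' l ∈ W (M - l)`, `D^M h_j = ∑_{l < M} c'_l D^l h_j`
(`IsA D 0 h c'`, `nab_zero`). So for all `j : Fin (M+1)`, with `u_j = f_j / f_0`:
`D^(M+1) u_j = ∑_{l < M} c'_l D^(l+1) u_j` (`Function.iterate_succ_apply`; for `j = 0`: `u_0 = 1`,
`D 1 = 0`, all terms vanish, `D^[k] 0 = 0`).

Put `g = -(D (f 0) / f 0) ∈ W 1` (`hld`, `Wt.neg`). Then `(nab D g)^[k] (f_0 * u) = f_0 * D^[k] u`
(induction: `nab D g (f_0 v) = f_0 D v + D f_0 v - D f_0 v`). With `f_0 u_j = f_j`: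
`(nab D g)^[M+1] (f_j) = ∑_{l < M} c'_l (nab D g)^[l+1] (f_j)`, which is `IsA D g f a₀` with
`a₀ = Fin.cons 0 c'` (`Fin.sum_univ_succ`), and `a₀ l ∈ W (M + 1 - l)` for all `l : Fin (M+1)`
(`Wt.zero`; `M + 1 - (l + 1) = M - l`). `change h g (-g) _` gives `c` with `IsA D (g + -g) f c`,
`c l ∈ W (M + 1 - l)`.
-/

namespace Pool.Agent.H16.RM

variable {K : Type*} [Field K] {D : K → K} {W : ℕ → Set K}

/-- the derivation as a homomorphism -/
private def Red_hom (h : Wt K D W) : K →+ K := AddMonoidHom.mk' D h.dadd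

private theorem Red_zero (h : Wt K D W) : D 0 = 0 := map_zero (Red_hom h)

private theorem Red_one (h : Wt K D W) : D 1 = 0 := by
  have h1 := h.dmul 1 1
  rw [mul_one, one_mul, mul_one] at h1
  exact left_eq_add.1 h1

private theorem Red_it (h : Wt K D W) (k : ℕ) : D^[k] 0 = 0 := by
  induction k with
  | zero => rfl
  | succ k ih => rw [Function.iterate_succ_apply, Red_zero h, ih]

private theorem Red_conj (h : Wt K D W) {f₀ : K} (hf : f₀ ≠ 0) (k : ℕ) (x : K) :
    (nab D (-(D f₀ / f₀)))^[k] (f₀ * x) = f₀ * D^[k] x := by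
  induction k with
  | zero => rfl
  | succ k ih =>
    rw [Function.iterate_succ_apply', Function.iterate_succ_apply', ih, nab, h.dmul]
    field_simp
    ring

theorem red (h : Wt K D W) (C : Set K) (hld : ∀ x ∈ C, x ≠ 0 → D x / x ∈ W 1)
    (hdiv : ∀ x ∈ C, ∀ y ∈ C, x / y ∈ C) (hder : ∀ x ∈ C, D x ∈ C) (M : ℕ) (f : Fin M → K)
    (hf : ∀ j, f j ∈ C) (hind : Ind D f) :
    ∃ c : Fin M → K, (∀ l : Fin M, c l ∈ W (M - l)) ∧ IsA D 0 f c := by
  have hn : nab D 0 = D := by
    funext x
    rw [nab, zero_mul, add_zero]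
  induction M with
  | zero => exact ⟨fun _ => 0, fun l => l.elim0, fun j => j.elim0⟩
  | succ M ih =>
    have hf0 : f 0 ≠ 0 := by
      intro h0
      have h1 := hind (Pi.single 0 1) (fun j => by
        by_cases hj : j = 0
        · subst hj; rw [Pi.single_eq_same, Red_one h]
        · rw [Pi.single_eq_of_ne hj, Red_zero h]) (by
        rw [Finset.sum_eq_single 0]
        · rw [h0, mul_zero]
        · intro j _ hj
          rw [Pi.single_eq_of_ne hj, zero_mul]
        · intro h2
          exact absurd (Finset.mem_univ _) h2) 0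
      rw [Pi.single_eq_same] at h1
      exact one_ne_zero h1
    have hfC : ∀ j : Fin M, D (f j.succ / f 0) ∈ C := fun j => hder _ (hdiv _ (hf _) _ (hf _))
    have hind' : Ind D (fun j : Fin M => D (f j.succ / f 0)) := by
      intro a ha hs
      have hk : D (∑ j, a j * (f (Fin.succ j) / f 0)) = 0 := by
        have h1 : D (∑ j, a j * (f (Fin.succ j) / f 0)) =
            ∑ j, D (a j * (f (Fin.succ j) / f 0)) := map_sum (Red_hom h) _ _
        rw [h1, ← hs]
        refine Finset.sum_congr rfl fun j _ => ?_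
        rw [h.dmul, ha j, zero_mul, add_zero]
      have h2 := hind (Fin.cons (-∑ j, a j * (f (Fin.succ j) / f 0)) a) (by
        intro j
        refine Fin.cases ?_ (fun i => ?_) j
        · rw [Fin.cons_zero]
          have h3 : D (-∑ j, a j * (f (Fin.succ j) / f 0)) =
              -D (∑ j, a j * (f (Fin.succ j) / f 0)) := map_neg (Red_hom h) _
          rw [h3, hk, neg_zero]
        · rw [Fin.cons_succ]
          exact ha i) (by
        rw [Fin.sum_univ_succ, Fin.cons_zero, neg_mul, Finset.sum_mul]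
        have h4 : ∑ i : Fin M, a i * (f i.succ / f 0) * f 0 = ∑ i : Fin M, a i * f i.succ := by
          refine Finset.sum_congr rfl fun i _ => ?_
          field_simp
        rw [h4]
        simp only [Fin.cons_succ]
        exact neg_add_cancel _)
      intro j
      have h5 := h2 j.succ
      rwa [Fin.cons_succ] at h5
    obtain ⟨c', hc', hA'⟩ := ih _ hfC hind'
    have hu : ∀ j, f j = f 0 * (f j / f 0) := fun j => by field_simp
    have hA : ∀ j, D^[M + 1] (f j / f 0) = ∑ l : Fin M, c' l * D^[(l : ℕ) + 1] (f j / f 0) := by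
      intro j
      refine Fin.cases ?_ (fun i => ?_) j
      · rw [div_self hf0, Function.iterate_succ_apply, Red_one h, Red_it h]
        symm
        refine Finset.sum_eq_zero fun l _ => ?_
        rw [Function.iterate_succ_apply, Red_one h, Red_it h, mul_zero]
      · have h1 := hA' i
        rw [hn] at h1
        rw [Function.iterate_succ_apply, h1]
        refine Finset.sum_congr rfl fun l _ => ?_
        rw [Function.iterate_succ_apply]
    have hA0 : IsA D (-(D (f 0) / f 0)) f (Fin.cons 0 c') := by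
      intro j
      rw [hu j, Red_conj h hf0, hA j, Fin.sum_univ_succ, Fin.cons_zero, zero_mul, zero_add,
        Finset.mul_sum]
      refine Finset.sum_congr rfl fun l _ => ?_
      rw [Fin.cons_succ, Fin.val_succ, Red_conj h hf0]
      ring
    have hw0 : ∀ l : Fin (M + 1), (Fin.cons 0 c' : Fin (M + 1) → K) l ∈ W (M + 1 - l) := by
      intro l
      refine Fin.cases ?_ (fun i => ?_) l
      · rw [Fin.cons_zero]; exact h.zero _
      · rw [Fin.cons_succ, Fin.val_succ, Nat.add_sub_add_right]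
        exact hc' i
    have hg : D (f 0) / f 0 ∈ W 1 := hld _ (hf 0) hf0
    obtain ⟨a, ha, haA, -⟩ := change h (-(D (f 0) / f 0)) (D (f 0) / f 0) hg f _ hw0 hA0
    refine ⟨a, ha, ?_⟩
    rwa [neg_add_cancel] at haA

end Pool.Agent.H16.RM
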