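import Pool.Agent.H16.RM.RatO

/-!
# Growth of entire curves which satisfy linear differential equations

PROOF. The proof of `smt` in `H13/Nev/Smt.lean` after `choose c hc0 hc` (copy it): some `g i₀ ≠ 0`;
`ratioO` gives constants `c i` with `T (io (g i) / io (g i₀)) r ≤ C₁ MMO + c i SSO` eventually in `ff`;
`TC_le g hg0 i₀ hi₀`: `TC g r ≤ ∑_i T (io (g i) / io (g i₀)) r + C'`. The only difference: the error
term `SSO = 1 + log r + log⁺ MMO` contains no characteristic of functions, so after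
`mul_posLog_le` (`(∑ c i + C') log⁺ MMO ≤ MMO + C''`) one gets
`TC g r ≤ (N * C₁ + 1) MMO + K (1 + log r)`.
-/

namespace Pool.Agent.H16.RM

open Pool.Agent.H13.Kob Pool.Agent.H13.Nev Real Pool.Agent.H13.CEV

theorem smtO (N M d : ℕ) : ∃ C : ℝ, 0 ≤ C ∧ ∀ (e : ℕ) (x : mons N d → ℂ), Good e x →
    (∀ k ≤ (N * M) * (N * M), ∀ a : Fin k → ℕ, ∃ b : Fin k → ℕ, SameType d a b ∧ ∀ j, b j ≤ e) →
    (N * M) * (N * M) ≤ e →
    ∀ (m : Fin N → ℕ) (p : Fin N → ℕ → EN) (g : Fin N → EN), (∀ i, m i ≤ M) →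
    (∀ i, p i (m i) ≠ 0) →
    (∀ i, ∑ l ∈ Finset.range (m i + 1), p i l * dE^[l] (g i) = 0) → (∀ z, vec g z ≠ 0) →
    (∀ z, MvPolynomial.eval (vec g z) (Fm x) = 0) →
    ∃ K : ℝ, 0 ≤ K ∧ ∀ᶠ r in ff, TC g r ≤ C * MMO m p r + K * (1 + log r) := by
  classical
  obtain ⟨C₁, hC₁⟩ := ratioO N M d
  refine ⟨N * C₁ + 1, by positivity, fun e x hx he hMe m p g hm hpm hode hg0 hgF => ?_⟩
  have hG := gaugeO m p
  obtain ⟨i₀, hi₀⟩ : ∃ i₀, g i₀ ≠ 0 := by
    by_contra hcon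
    push Not at hcon
    exact hg0 0 (funext fun i => by rw [vec, hcon i]; rfl)
  have hmem := fun i => hC₁ e x hx he hMe m p g hm hpm hode hgF i i₀ hi₀
  choose c hc0 hc using hmem
  obtain ⟨C', hC', hTC⟩ := TC_le g hg0 i₀ hi₀
  obtain ⟨C'', hC''⟩ := mul_posLog_le (∑ i, c i + C') (by
    have := Finset.sum_nonneg (s := Finset.univ) fun i _ => hc0 i
    linarith)
  have hsumc : 0 ≤ ∑ i, c i := Finset.sum_nonneg (s := Finset.univ) fun i _ => hc0 i
  refine ⟨(∑ i, c i + C') + |C''|, by positivity, ?_⟩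
  have hall : ∀ᶠ r in ff, ∀ i, T (io (g i) / io (g i₀)) r ≤ C₁ * MMO m p r + c i * SSO m p r :=
    Filter.eventually_all.mpr hc
  filter_upwards [hall, eventually_one_le_ff, hG.hS] with r h1 hr hS
  have h2 := hTC r hr
  have h3 : ∑ i, T (io (g i) / io (g i₀)) r ≤ ∑ i : Fin N, (C₁ * MMO m p r + c i * SSO m p r) :=
    Finset.sum_le_sum fun i _ => h1 i
  have hsm : ∑ i, c i * SSO m p r = (∑ i, c i) * SSO m p r := (Finset.sum_mul _ _ _).symm
  rw [Finset.sum_add_distrib, hsm, Finset.sum_const, Finset.card_univ,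
    Fintype.card_fin, nsmul_eq_mul] at h3
  have hM := MMO_nonneg m p hr
  have h4 := hC'' (MMO m p r) hM
  have h5 : (∑ i, c i + C') * SSO m p r = (∑ i, c i + C') * (1 + log r)
      + (∑ i, c i + C') * log⁺ (MMO m p r) := by rw [SSO]; ring
  have h6 : C' ≤ C' * SSO m p r := by nlinarith
  have h7 : 0 ≤ log r := Real.log_nonneg hr
  have h9 : C'' ≤ |C''| * (1 + log r) := by
    have := le_abs_self C''
    have := abs_nonneg C''
    nlinarith
  nlinarith

end Pool.Agent.H16.RM
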