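import Pool.Agent.H16.RM.Rat

/-!
# The ramification theorem

PROOF of `smtW`. If `M = 0` then `g i = 0` for all `i` and `vec g 0 = 0`, excluded. For `M + 1` the rest is
the proof of `smt` in `H13/Nev/Smt.lean` after `choose c hc0 hc` (copy it, with `MMW`, `SSW`,
`MMW_nonneg`, `gaugeW` for `MM`, `SS`, `MM_nonneg`, `gauge`): `TC_le`, `mul_posLog_le`; the
constant is `N * c + 1`.
-/

namespace Pool.Agent.H16.RM

open Pool.Agent.H13.Kob Pool.Agent.H13.Nev Real Pool.Agent.H13.CEV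

theorem smtW (N M d : ℕ) : ∃ C : ℝ, 0 ≤ C ∧ ∀ (e : ℕ) (x : mons N d → ℂ), Good e x →
    (∀ k ≤ M, ∀ a : Fin k → ℕ, ∃ b : Fin k → ℕ, SameType d a b ∧ ∀ j, b j ≤ e) → M ≤ e →
    ∀ (y : Fin M → EN) (q : Fin M → Fin N → EN) (g : Fin N → EN), Wr y ≠ 0 →
    (∀ i, g i = ∑ j, y j * q j i) → (∀ z, vec g z ≠ 0) →
    (∀ z, MvPolynomial.eval (vec g z) (Fm x) = 0) →
    ∃ K : ℝ, 0 ≤ K ∧ ∀ᶠ r in ff,
      TC g r ≤ C * MMW y q r + K * (1 + log r + log⁺ (TC y r)) := by
  classical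
  cases M with
  | zero =>
    refine ⟨0, le_rfl, fun e x _ _ _ y q g _ hg hg0 _ => ?_⟩
    exact absurd (funext fun i => by rw [vec, hg i, Finset.univ_eq_empty, Finset.sum_empty]; rfl)
      (hg0 0)
  | succ M =>
    obtain ⟨C₁, hC₁⟩ := ratio N M d
    refine ⟨N * C₁ + 1, by positivity, fun e x hx he hMe y q g hW hg hg0 hgF => ?_⟩
    have hG := gaugeW y q
    obtain ⟨i₀, hi₀⟩ : ∃ i₀, g i₀ ≠ 0 := by
      by_contra hcon
      push Not at hcon
      exact hg0 0 (funext fun i => by rw [vec, hcon i]; rfl)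
    have hmem : ∀ i, ∃ C : ℝ, 0 ≤ C ∧ ∀ᶠ r in ff,
        T (io (g i) / io (g i₀)) r ≤ C₁ * MMW y q r + C * SSW y q r := fun i =>
      hC₁ e x hx he hMe y q g hW hg hgF i i₀ hi₀
    choose c hc0 hc using hmem
    obtain ⟨C', hC', hTC⟩ := TC_le g hg0 i₀ hi₀
    obtain ⟨C'', hC''⟩ := mul_posLog_le (∑ i, c i + C') (by
      have := Finset.sum_nonneg (s := Finset.univ) fun i _ => hc0 i
      linarith)
    have hsumc : 0 ≤ ∑ i, c i := Finset.sum_nonneg (s := Finset.univ) fun i _ => hc0 i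
    refine ⟨(∑ i, c i + C') + |C''|, by positivity, ?_⟩
    have hall : ∀ᶠ r in ff, ∀ i,
        T (io (g i) / io (g i₀)) r ≤ C₁ * MMW y q r + c i * SSW y q r :=
      Filter.eventually_all.mpr hc
    filter_upwards [hall, eventually_one_le_ff, hG.hS] with r h1 hr hS
    have h2 := hTC r hr
    have h3 : ∑ i, T (io (g i) / io (g i₀)) r ≤
        ∑ i : Fin N, (C₁ * MMW y q r + c i * SSW y q r) :=
      Finset.sum_le_sum fun i _ => h1 i
    have hsm : ∑ i, c i * SSW y q r = (∑ i, c i) * SSW y q r := (Finset.sum_mul _ _ _).symm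
    rw [Finset.sum_add_distrib, hsm, Finset.sum_const, Finset.card_univ,
      Fintype.card_fin, nsmul_eq_mul] at h3
    have hM := MMW_nonneg y q hr
    have h4 := hC'' (MMW y q r) hM
    have h5 : (∑ i, c i + C') * SSW y q r = (∑ i, c i + C') * (1 + log r + log⁺ (TC y r))
        + (∑ i, c i + C') * log⁺ (MMW y q r) := by rw [SSW]; ring
    have h6 : C' ≤ C' * SSW y q r := by nlinarith
    have h7 : 0 ≤ log r := Real.log_nonneg hr
    have h8 : 0 ≤ log⁺ (TC y r) := posLog_nonneg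
    have h9 : C'' ≤ |C''| * (1 + log r + log⁺ (TC y r)) := by
      have := le_abs_self C''
      have := abs_nonneg C''
      nlinarith
    nlinarith

end Pool.Agent.H16.RM
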