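import Pool.Agent.H16.RM.DefsG

/-!
# Properties of the expansion of quotients of entire functions

PROOFS. `tauZ_dE`: `shE z (dE f) = deriv (shE z f)` (`deriv_comp_const_add`), `tay_deriv`.
`tauZ_coeff`: the constant coefficient of `tay g` is `iteratedDeriv 0 g 0 = g 0`.
`sigZ_DK`: write `x = io a / io b` with `a = nu x`, `b = de x` (`eq_frac`, `de_ne`), so
`DK x = io (dE a * b - a * dE b) / io (b * b)` (definition of `DK`); apply `sigZ z` (a ring
homomorphism of fields, `map_div₀`, `sigZ_io`, `tauZ_dE`, `DL_jo`), and the quotient rule for `DL`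
(from `DL_mul` applied to `σ x * σ b = σ a`, `σ b ≠ 0` since `σ` is injective).
`sigZ_const`: `sigZ_io`, `tay_const` (definition of `cK`, of `shE`; `C` is the constant series).
`sigZ_int`: `x = io a / io b`, `σ x = jo (τ a) / jo (τ b)`, and `τ b` is a unit of `ℂ⟦X⟧`
(`PowerSeries.isUnit_iff_constantCoeff`, `tauZ_coeff`), so `σ x = jo (τ a * (τ b)⁻¹)` (with the unit).
-/

namespace Pool.Agent.H16.RM

open Pool.Agent.H13.Nev PowerSeries

theorem tauZ_dE (z : ℂ) (f : EN) : tauZ z (dE f) = d⁄dX ℂ (tauZ z f) := by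
  show Pool.Agent.H13.Hol.tay (shE z (dE f)) = d⁄dX ℂ (Pool.Agent.H13.Hol.tay (shE z f))
  rw [← Pool.Agent.H13.Hol.tay_deriv]
  congr 1
  funext u
  show deriv f.1 (z + u) = deriv (fun u => f.1 (z + u)) u
  rw [deriv_comp_const_add]

theorem tauZ_coeff (z : ℂ) (f : EN) : constantCoeff (tauZ z f) = f.1 z := by
  show constantCoeff (Pool.Agent.H13.Hol.tay (shE z f)) = f.1 z
  rw [← coeff_zero_eq_constantCoeff_apply, Pool.Agent.H13.Hol.tay, coeff_mk,
    iteratedDeriv_zero, shE, add_zero]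
  simp

private theorem TayZ_ne (z : ℂ) (x : KN) : jo (tauZ z (de x)) ≠ 0 := by
  intro h
  have h1 : tauZ z (de x) = 0 := jo_inj (by rw [h, map_zero])
  exact de_ne x (tauZ_inj z (by rw [h1, map_zero]))

private theorem TayZ_frac (z : ℂ) (x : KN) :
    sigZ z x = jo (tauZ z (nu x)) / jo (tauZ z (de x)) := by
  conv_lhs => rw [eq_frac x]
  rw [map_div₀, sigZ_io, sigZ_io]

theorem sigZ_DK (z : ℂ) (x : KN) : sigZ z (DK x) = DL (sigZ z x) := by
  have hb := TayZ_ne z x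
  have h1 : sigZ z x * jo (tauZ z (de x)) = jo (tauZ z (nu x)) := by
    rw [TayZ_frac, div_mul_cancel₀ _ hb]
  have h2 : DL (jo (tauZ z (nu x))) =
      sigZ z x * DL (jo (tauZ z (de x))) + DL (sigZ z x) * jo (tauZ z (de x)) := by
    rw [← h1, DL_mul]
  rw [DL_jo, DL_jo] at h2
  have h3 : DL (sigZ z x) = (jo (d⁄dX ℂ (tauZ z (nu x))) -
      sigZ z x * jo (d⁄dX ℂ (tauZ z (de x)))) / jo (tauZ z (de x)) := by
    rw [eq_div_iff hb, h2]
    ring
  rw [h3, TayZ_frac z x, DK, map_div₀, sigZ_io, sigZ_io]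
  simp only [map_sub, map_mul, tauZ_dE]
  field_simp

theorem sigZ_const (z t : ℂ) : sigZ z (cK t) = jo (C t) := by
  rw [cK, sigZ_io]
  congr 1
  show Pool.Agent.H13.Hol.tay (shE z (algebraMap ℂ EN t)) = C t
  rw [← Pool.Agent.H13.Hol.tay_const]
  rfl

theorem sigZ_int (z : ℂ) (x : KN) (hx : (de x).1 z ≠ 0) : ∃ f : ℂ⟦X⟧, sigZ z x = jo f := by
  have h1 : IsUnit (tauZ z (de x)) := by
    rw [PowerSeries.isUnit_iff_constantCoeff, tauZ_coeff]
    exact isUnit_iff_ne_zero.2 hx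
  obtain ⟨u, hu⟩ := h1
  refine ⟨tauZ z (nu x) * ((u⁻¹ : (ℂ⟦X⟧)ˣ) : ℂ⟦X⟧), ?_⟩
  have hb := TayZ_ne z x
  rw [TayZ_frac, div_eq_iff hb, ← map_mul, mul_assoc, ← hu, Units.inv_mul, mul_one]

end Pool.Agent.H16.RM
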