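import Pool.Agent.H16.RM.Fin

/-!
# The ramification theorem on general hypersurfaces of degree `d ≥ 2n+1`
-/

open Real ValueDistribution

namespace Pool.Agent.H16.RM

theorem top :
    ∀ n : ℕ, 1 ≤ n → ∀ d : ℕ, 2 * n + 1 ≤ d → ∃ (C : ℝ) (m : ℕ), ∀ M : ℕ,
      ∃ (C' : ℝ) (P : MvPolynomial ((Fin (n + 2)) →₀ ℕ) ℂ),
        (∃ F₀ : MvPolynomial (Fin (n + 2)) ℂ, F₀.IsHomogeneous d ∧
            MvPolynomial.eval (fun α => F₀.coeff α) P ≠ 0) ∧
        ∀ F : MvPolynomial (Fin (n + 2)) ℂ, F.IsHomogeneous d →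
          MvPolynomial.eval (fun α => F.coeff α) P ≠ 0 →
          (∀ (y : Fin M → ℂ → ℂ) (q : Fin M → ℂ → Fin (n + 2) → ℂ) (g : ℂ → Fin (n + 2) → ℂ),
            (∀ j, Differentiable ℂ (y j)) → LinearIndependent ℂ y →
            (∀ j, Differentiable ℂ (q j)) →
            (∀ z, g z = ∑ j, y j z • q j z) → (∀ z, g z ≠ 0) →
            (∀ z, MvPolynomial.eval (g z) F = 0) →
            ∃ K : ℝ, MeasureTheory.volume {r : ℝ | 1 ≤ r ∧
              ¬ circleAverage (fun z => log ‖g z‖) 0 r
                ≤ C' * (logCounting (logDeriv fun z =>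
                      (Matrix.of fun i j : Fin M => iteratedDeriv i (y j) z).det) ⊤ r
                    + ∑ j, characteristic (q j) ⊤ r)
                  + K * (1 + log r
                      + log⁺ (circleAverage (fun z => log ‖fun j => y j z‖) 0 r))} < ⊤) ∧
          (∀ g : ℂ → Fin (n + 2) → ℂ, Differentiable ℂ g → (∀ z, g z ≠ 0) →
            (∀ z, MvPolynomial.eval (g z) F = 0) →
            ∀ (k : ℕ) (y : Fin k → ℂ → ℂ), LinearIndependent ℂ y →
            Submodule.span ℂ (Set.range y)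
              = Submodule.span ℂ (Set.range fun (i : Fin (n + 2)) z => g z i) →
            (∃ K : ℝ, MeasureTheory.volume {r : ℝ | 1 ≤ r ∧
              ¬ circleAverage (fun z => log ‖g z‖) 0 r
                ≤ C * logCounting (logDeriv fun z =>
                      (Matrix.of fun i j : Fin k => iteratedDeriv i (y j) z).det) ⊤ r
                  + K * (1 + log r + log⁺ (circleAverage (fun z => log ‖g z‖) 0 r))} < ⊤) ∧
            ((∀ z, (Matrix.of fun i j : Fin k => iteratedDeriv i (y j) z).det = 0 →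
                (m : ℕ∞) ≤ analyticOrderAt
                  (fun z => (Matrix.of fun i j : Fin k => iteratedDeriv i (y j) z).det) z) →
              ∀ z, ∃ c : ℂ, g z = c • g 0)) := by
  intro n hn d hd
  obtain ⟨C, m, hCm⟩ := resB (n + 2) d
  refine ⟨C, m, fun M => ?_⟩
  obtain ⟨C', hC'⟩ := resA (n + 2) M d
  choose e he using fun k => Pool.Agent.H13.Kob.exists_bounded_type k d
  set E : ℕ := ∑ k ∈ Finset.range (n + 2 + M + 1), e k + (n + 2 + M) with hE
  have hle : ∀ k, k ≤ n + 2 + M → e k ≤ E := by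
    intro k hk
    have h1 : e k ≤ ∑ k ∈ Finset.range (n + 2 + M + 1), e k :=
      Finset.single_le_sum (f := e) (fun _ _ => Nat.zero_le _)
        (Finset.mem_range.mpr (by omega))
    omega
  have hthin := Pool.Agent.H13.CEV.bounded_curves (N := n + 2) (d := d) (by omega) (by omega) E
  obtain ⟨P, hP0, hP⟩ := Pool.Agent.H13.Kob.exists_open hthin
  refine ⟨C', P, hP0, fun F hF hFP => ?_⟩
  have hgood : Pool.Agent.H13.Kob.Good E
      (fun m : Pool.Agent.H13.Kob.mons (n + 2) d => F.coeff m.1) := by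
    intro v hv i j a b
    by_contra hne
    exact hP F hF hFP ⟨v, hv, i, j, a, b, hne⟩
  have hFm := Pool.Agent.H13.Kob.eq_Fm hF
  have hb : ∀ k ≤ n + 2 + M, ∀ a : Fin k → ℕ, ∃ b : Fin k → ℕ,
      Pool.Agent.H13.Kob.SameType d a b ∧ ∀ j, b j ≤ E := by
    intro k hk a
    obtain ⟨b, hb1, hb2⟩ := he k a
    exact ⟨b, hb1, fun j => (hb2 j).trans (hle k hk)⟩
  refine ⟨?_, ?_⟩
  · intro y q g hy hli hq hg hg0 hgF
    exact hC' E _ hgood (fun k hk => hb k (by omega)) (by omega) y q g hy hli hq hg hg0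
      (fun z => by rw [← hFm]; exact hgF z)
  · intro g hg hg0 hgF k y hli hspan
    exact hCm E _ hgood (fun k hk => hb k (by omega)) (by omega) g hg hg0
      (fun z => by rw [← hFm]; exact hgF z) k y hli hspan

end Pool.Agent.H16.RM
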