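import Pool.Agent.H16.RM.Core
import Pool.Agent.H16.RM.GerA
import Pool.Agent.H16.RM.Pt

/-!
# The uniform theorem, by an ultraproduct

PROOF. (1) It suffices to find `c` for fixed `a : Fin M`, `i i' : Fin N` (prove this as a private
lemma with the same quantifiers); then the sum of these `c` over all `(a, i, i')` works (`Filt.mono`).

(2) Fix `a, i, i'` and suppose there is no such `c`. For every `c : ℕ` choose data `e c`, `x c`, `B c`,
`w c`, `A c`, `q c`, `lam c` satisfying all hypotheses, with the quotient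
`ρ c = (∑ j, lam c i j * w c a j) / (∑ j, lam c i' j * w c a j) ∉ B c c`. In `L = LL KN`
(`Ger`; `CharZero` by `instCharZeroLL`; `CharZero KN`: `KN` contains `ℂ`) put `D' = Germ.map DK`,
`w' i j = ↑(fun c => w c i j)`, `A'`, `q'`, `lam'` likewise, `x' α = ↑(fun c => cK (x c α))`. Let `K`
be the subfield `exists_KS` of `KB B`. Hypotheses of `core`: `hadd`, `hmul`: `map_DD_add`,
`map_DD_mul` (`DK_add`, `DK_mul`); `hK`: `KB_der`; `hker`: `KB_ker`; `halg`: `KB_alg`; `hw`: the
determinant of `w'` is the germ of `c ↦ det (w c)` (`RingHom.map_det` for `Germ.coeRingHom _` and for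
`Pi.evalRingHom`), which vanishes for no `c`; `hA`, `hlam`: `coe_mem_KB` with bound `b`; `hD`:
termwise; `hx`: `DK (cK t) = 0` (`DK_io`, derivative of a constant; or `DK_add`/...); `hF`: the germ of
`c ↦ form (cK ∘ x c) (...) = 0` (`map_form`); `hi'`: no term vanishes.

`hyp`: let `B' : Fin M → Fin M → L` with `D' (B' l j) = 0` and `aeval p' (FF k) = 0` for all `k`,
`p' = pt x' lam' (w' a) B'`. Choose representatives `β l j : ℕ → KN` with `B' l j = ↑(β l j)`
(`Germ.inductionOn` / `Quotient.exists_rep`, `choose`). With `J` from `exists_J N M d`: for almost all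
`c`, for all `l j`: `DK (β l j c) = 0`, and for all `k < J`
`aeval (pt (cK ∘ x c) (lam c) (w c a) (fun l j => β l j c)) (FF k) = 0`, because for `P : UU N M d`
`aeval p' P` is the germ of `c ↦ aeval (pt (cK ∘ x c) (lam c) (w c a) (β · · c)) P` (`map_aeval_int`
for `Germ.coeRingHom _` and for the evaluations `Pi.evalRingHom _ c`, and `map_pt`); finitely many
conditions. So `hyp_KN` applies to almost all `c` and the same identification for `P = minor i i'`
gives `aeval p' (minor i i') = 0`.

(3) `core` gives `↑ρ ∈ K` (the quotient in `L` is the germ of `ρ`), so by `coe_mem_KB` there is `m` with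
`ρ c ∈ B c m` for almost all `c`. Almost all `c` are `≥ m` (`hyperfilter_le_cofinite`,
`Nat.cofinite_eq_atTop`), so for some `c`: `ρ c ∈ B c m ⊆ B c c`: contradiction.
-/

namespace Pool.Agent.H16.RM

open Filter Pool.Agent.H13.Kob Pool.Agent.H13.Nev

lemma DK_cK (t : ℂ) : DK (cK t) = 0 := by
  rw [cK, DK_io]
  have h1 : dE (algebraMap ℂ EN t) = 0 := by
    apply EN.ext'
    intro z
    show deriv (fun _ : ℂ => t) z = 0
    rw [deriv_const]
  rw [h1, map_zero]

instance instCharZeroKN : CharZero KN :=
  charZero_of_injective_algebraMap (R := ℂ) (A := KN) (algebraMap ℂ KN).injective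

/-- the germ of a sequence -/
noncomputable abbrev gm : (ℕ → KN) →+* LL KN := Germ.coeRingHom (hyperfilter ℕ : Filter ℕ)

lemma gm_eq (u : ℕ → KN) : gm u = (u : LL KN) := rfl

lemma gm_eq_zero (u : ℕ → KN) : gm u = 0 ↔ ∀ᶠ c in (hyperfilter ℕ : Filter ℕ), u c = 0 := by
  have h : (0 : LL KN) = gm 0 := (map_zero gm).symm
  rw [h, gm_eq, gm_eq, Germ.coe_eq]
  rfl

lemma gm_DK (u : ℕ → KN) : Germ.map DK (gm u) = gm fun c => DK (u c) := rfl

/-- evaluation of universal polynomials at germs -/
lemma gm_aeval {τ : Type*} (p : τ → ℕ → KN) (P : MvPolynomial τ ℤ) :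
    MvPolynomial.aeval (fun s => gm (p s)) P
      = gm fun c => MvPolynomial.aeval (fun s => p s c) P := by
  rw [← map_aeval_int gm p P]
  congr 1
  funext c
  exact map_aeval_int (Pi.evalRingHom (fun _ : ℕ => KN) c) p P

lemma gm_form {N d : ℕ} (x : mons N d → ℕ → KN) (g : Fin N → ℕ → KN) :
    form (fun α => gm (x α)) (fun i => gm (g i))
      = gm fun c => form (fun α => x α c) fun i => g i c := by
  rw [← map_form gm x g]
  congr 1
  funext c
  exact map_form (Pi.evalRingHom (fun _ : ℕ => KN) c) x g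

lemma gm_sum_mul {ι : Type*} [Fintype ι] (u v : ι → ℕ → KN) :
    ∑ j, gm (u j) * gm (v j) = gm fun c => ∑ j, u j c * v j c := by
  simp only [← map_mul]
  rw [← map_sum]
  congr 1
  funext c
  rw [Finset.sum_apply]
  rfl

lemma gm_det {M : ℕ} (w : Fin M → Fin M → ℕ → KN) :
    (Matrix.of fun i j => gm (w i j)).det
      = gm fun c => (Matrix.of fun i j => w i j c).det := by
  have h1 : (Matrix.of fun i j => gm (w i j)) = gm.mapMatrix (Matrix.of w) := rfl
  rw [h1, ← RingHom.map_det]
  congr 1
  funext c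
  have h2 := RingHom.map_det (Pi.evalRingHom (fun _ : ℕ => KN) c) (Matrix.of w)
  exact h2

private lemma uniform_one (N M d b : ℕ) (hM : 0 < M) (a : Fin M) (i i' : Fin N) :
    ∃ c : ℕ, ∀ (e : ℕ) (x : mons N d → ℂ), Good e x →
    (∀ k ≤ M, ∀ a : Fin k → ℕ, ∃ b : Fin k → ℕ, SameType d a b ∧ ∀ j, b j ≤ e) → M ≤ e →
    ∀ B : ℕ → Set KN, Filt KN DK B → AlgF KN B →
    ∀ w : Fin M → Fin M → KN, (Matrix.of w).det ≠ 0 →
    ∀ A : Fin M → Fin M → KN, (∀ i j, A i j ∈ B b) →
    ∀ q : KN, (∀ i j, DK (w i j) = ∑ l, A i l * w l j - q * w i j) →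
    ∀ lam : Fin N → Fin M → KN, (∀ i j, lam i j ∈ B b) →
    form (fun α => cK (x α)) (fun i => ∑ j, lam i j * w a j) = 0 →
    ∑ j, lam i' j * w a j ≠ 0 →
      (∑ j, lam i j * w a j) / (∑ j, lam i' j * w a j) ∈ B c := by
  classical
  by_contra hcon
  push Not at hcon
  choose e x hx he hMe B hB hA w hw A hAb q hD lam hlam hF hi' hρ using hcon
  obtain ⟨K, hK⟩ := exists_KS hB
  obtain ⟨J, hJ⟩ := exists_J N M d
  -- the data in the ultrapower
  set w' : Fin M → Fin M → LL KN := fun r s => gm fun c => w c r s with hw'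
  set A' : Fin M → Fin M → LL KN := fun r s => gm fun c => A c r s with hA'
  set q' : LL KN := gm q with hq'
  set lam' : Fin N → Fin M → LL KN := fun r s => gm fun c => lam c r s with hlam'
  set x' : mons N d → LL KN := fun α => gm fun c => cK (x c α) with hx'
  have hsum : ∀ r : Fin N, ∑ j, lam' r j * w' a j = gm fun c => ∑ j, lam c r j * w c a j :=
    fun r => gm_sum_mul (fun j c => lam c r j) (fun j c => w c a j)
  have hcore := core (N := N) (M := M) (d := d) (L := LL KN) (Germ.map DK) (map_DD_add DK_add)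
    (map_DD_mul DK_mul) K (fun z hz => (hK _).mpr (KB_der hB ((hK _).mp hz)))
    (fun z hz => (hK _).mpr (KB_ker hB hz))
    (fun z hz => (hK _).mpr (KB_alg hB hA K hK z hz)) w' (by
      intro h0
      have h1 := gm_det fun r s c => w c r s
      rw [show (Matrix.of fun i j => gm ((fun r s c => w c r s) i j)) = Matrix.of w' from rfl,
        h0] at h1
      obtain ⟨c, hc⟩ := ((gm_eq_zero _).mp h1.symm).exists
      exact hw c hc) A' (fun r s => (hK _).mpr
        ((coe_mem_KB _).mpr ⟨b, Eventually.of_forall fun c => hAb c r s⟩)) q' (by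
      intro r s
      have h1 : Germ.map DK (w' r s) = gm fun c => DK (w c r s) := rfl
      have h2 := gm_sum_mul (fun l c => A c r l) (fun l c => w c l s)
      have h3 : ∑ l, A' r l * w' l s = gm fun c => ∑ l, A c r l * w c l s := h2
      rw [h1, h3, hq', hw']
      simp only
      rw [← map_mul, ← map_sub]
      congr 1
      funext c
      exact hD c r s) x' (by
      intro α
      have h1 : Germ.map DK (x' α) = gm fun c => DK (cK (x c α)) := rfl
      rw [h1]
      have h2 : (fun c => DK (cK (x c α))) = 0 := by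
        funext c
        exact DK_cK _
      rw [h2, map_zero]) lam' (fun r s => (hK _).mpr
        ((coe_mem_KB _).mpr ⟨b, Eventually.of_forall fun c => hlam c r s⟩)) a (by
      simp only [hsum]
      have h1 := gm_form (fun (α : mons N d) c => cK (x c α))
        (fun r c => ∑ j, lam c r j * w c a j)
      have h2 : (fun c => form (fun α => cK (x c α)) fun r => ∑ j, lam c r j * w c a j) = 0 := by
        funext c
        exact hF c
      rw [h2, map_zero] at h1
      exact h1) i i' (by
      intro B' hB' hFF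
      have hrep : ∀ l j, ∃ β : ℕ → KN, B' l j = gm β := fun l j =>
        Germ.inductionOn (B' l j) fun β => ⟨β, rfl⟩
      choose β hβ using hrep
      have hpt : ∀ P : UU N M d, MvPolynomial.aeval (pt x' lam' (w' a) B') P
          = gm fun c => MvPolynomial.aeval (pt (fun α => cK (x c α)) (lam c) (w c a)
            fun l j => β l j c) P := by
        intro P
        have h1 := gm_aeval (pt (fun (α : mons N d) c => cK (x c α)) (fun r s c => lam c r s)
          (fun s c => w c a s) β) P
        have h2 : (fun s => gm (pt (fun (α : mons N d) c => cK (x c α)) (fun r s c => lam c r s)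
          (fun s c => w c a s) β s)) = pt x' lam' (w' a) B' := by
          rw [map_pt (fun u : ℕ → KN => gm u)]
          congr 1
          funext l j
          exact (hβ l j).symm
        rw [h2] at h1
        rw [h1]
        congr 1
        funext c
        congr 1
        congr 1
        exact map_pt (fun u : ℕ → KN => u c) _ _ _ _
      have hev1 : ∀ᶠ c in (hyperfilter ℕ : Filter ℕ), ∀ l j, DK (β l j c) = 0 := by
        rw [eventually_all]
        intro l
        rw [eventually_all]
        intro j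
        have h1 := hB' l j
        rw [hβ l j, gm_DK, gm_eq_zero] at h1
        exact h1
      have hev2 : ∀ᶠ c in (hyperfilter ℕ : Filter ℕ), ∀ k : Fin J,
          MvPolynomial.aeval (pt (fun α => cK (x c α)) (lam c) (w c a) fun l j => β l j c)
            (FF k : UU N M d) = 0 := by
        rw [eventually_all]
        intro k
        have h1 := hFF k
        rw [hpt, gm_eq_zero] at h1
        exact h1
      rw [hpt, gm_eq_zero]
      filter_upwards [hev1, hev2] with c h1 h2
      exact hyp_KN hJ (hx c) hM (he c) (hMe c) (lam c) (w c a) (fun l j => β l j c) h1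
        (fun k hk => h2 ⟨k, hk⟩) i i') (by
      rw [hsum, ne_eq, gm_eq_zero]
      intro h0
      obtain ⟨c, hc⟩ := h0.exists
      exact hi' c hc)
  rw [hsum, hsum, hK] at hcore
  have hdiv : gm (fun c => ∑ j, lam c i j * w c a j) / gm (fun c => ∑ j, lam c i' j * w c a j)
      = ((fun c => (∑ j, lam c i j * w c a j) / (∑ j, lam c i' j * w c a j) : ℕ → KN) : LL KN) :=
    rfl
  rw [hdiv, coe_mem_KB] at hcore
  obtain ⟨m, hm⟩ := hcore
  have hge : ∀ᶠ c in (hyperfilter ℕ : Filter ℕ), m ≤ c := by
    have h1 : ∀ᶠ c in (atTop : Filter ℕ), m ≤ c := eventually_ge_atTop m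
    rw [← Nat.cofinite_eq_atTop] at h1
    exact h1.filter_mono (hyperfilter_le_cofinite)
  obtain ⟨c, hc1, hc2⟩ := (hm.and hge).exists
  exact hρ c ((hB c).mono hc2 hc1)

theorem uniform (N M d b : ℕ) (hM : 0 < M) : ∃ c : ℕ, ∀ (e : ℕ) (x : mons N d → ℂ), Good e x →
    (∀ k ≤ M, ∀ a : Fin k → ℕ, ∃ b : Fin k → ℕ, SameType d a b ∧ ∀ j, b j ≤ e) → M ≤ e →
    ∀ B : ℕ → Set KN, Filt KN DK B → AlgF KN B →
    ∀ w : Fin M → Fin M → KN, (Matrix.of w).det ≠ 0 →
    ∀ A : Fin M → Fin M → KN, (∀ i j, A i j ∈ B b) →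
    ∀ q : KN, (∀ i j, DK (w i j) = ∑ l, A i l * w l j - q * w i j) →
    ∀ lam : Fin N → Fin M → KN, (∀ i j, lam i j ∈ B b) →
    ∀ a : Fin M, form (fun α => cK (x α)) (fun i => ∑ j, lam i j * w a j) = 0 →
    ∀ i i' : Fin N, ∑ j, lam i' j * w a j ≠ 0 →
      (∑ j, lam i j * w a j) / (∑ j, lam i' j * w a j) ∈ B c := by
  classical
  choose c hc using fun (p : Fin M × Fin N × Fin N) => uniform_one N M d b hM p.1 p.2.1 p.2.2
  refine ⟨∑ p, c p, fun e x hx he hMe B hB hA w hw A hAb q hD lam hlam a hF i i' hi' => ?_⟩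
  refine hB.mono (Finset.single_le_sum (f := c) (fun _ _ => Nat.zero_le _)
    (Finset.mem_univ (a, i, i'))) ?_
  exact hc (a, i, i') e x hx he hMe B hB hA w hw A hAb q hD lam hlam hF hi'

end Pool.Agent.H16.RM
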