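import Pool.Agent.H16.RM.CoreG
import Pool.Agent.H16.RM.GerA
import Pool.Agent.H16.RM.GerM
import Pool.Agent.H16.RM.Null
import Pool.Agent.H16.RM.Fnd
import Pool.Agent.H16.RM.Uni

/-!
# The uniform theorem for arbitrary solutions of linear systems

The model is the file Uni (proved; its lemmas `gm_*`, `DK_cK` can be reused or copied for `KL`).

PROOF. As in Uni it suffices to find `c` for fixed `i i'` (then sum over `(i, i')`). Suppose there is no
such `c`; choose for every `c : ℕ` data `e c`, `x c`, `B c`, `w c`, `A c`, `q c`, `lam c` with quotient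
`ρ c ∉ B c c`. By `exists_fund` choose `z c`, `Φ c`, `C0 c`; `σ c = sigZ (z c) : KN →+* KL`. Let `G` be the
map of `exists_GerM σ`, `K` the subfield `exists_KS` of `KB B` in `LL KN`, `K' = K.map G`, `L = LL KL`,
`D' = Germ.map DL` (`map_DD_add`, `map_DD_mul`, `DL_mul`; `CharZero KL` as for `KN` in Uni).
Apply `coreG` (with `N`, `M`, `d`, `L`) to:
* `hK`: `D' (G ↑u) = G ↑(DK ∘ u)` termwise (`sigZ_DK`), `KB_der`. `hker`: if `D' ↑u = 0` then
  `DL (u c) = 0` for almost all `c`, so `u c = jo (C (t c)) = σ c (cK (t c))` (`DL_const`,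
  `sigZ_const`) for almost all `c`, and `↑(fun c => cK (t c)) ∈ K` (`KB_ker`, `DK_cK`).
* `w' i j = ↑(fun c => Φ c i j)` (determinant: never zero), `A' i j = G ↑(A · i j)`, `q' = G ↑q`, the
  equation termwise from `exists_fund`.
* `x' α = ↑(fun c => jo (C (x c α))) = G ↑(fun c => cK (x c α))`, killed by `D'` (`DL_jo`).
* `lam' i t = ↑(fun c => ∑ j, σ c (lam c i t.1 j) * jo (C (C0 c t.2 j)))`, where `t.1`, `t.2` are the
  components of `finProdFinEquiv.symm t`; it is
  `G ↑(fun c => ∑ j, lam c i t.1 j * cK (C0 c t.2 j))`, a germ bounded by `s * b` (`Filt.sum`,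
  `Filt.mul`, `Filt.const`), so in `K'`.
* `∑ t, lam' i t * flat w' t` is the germ of `∑_a ∑_k ∑_j σ (lam i a j) C0_kj Φ a k
  = ∑_a ∑_j σ (lam i a j) σ (w a j)` (exists_fund), i.e. `G ↑(g_i)` with
  `g_i c = ∑ a, ∑ j, lam c i a j * w c a j` (reindex the sum over `Fin (M * M)` by
  `finProdFinEquiv`). So `hF` and `hi'` follow from the hypotheses (`map_form`; `G` is injective).
* `hyp`: representatives `β s t : ℕ → KL` of `B' s t`; for almost all `c`, `DL (β s t c) = 0` for all
  `s t`, so `β s t c = jo (C (b s t c))`, and `aeval (...) (FF k) = 0` at `c` for all `k < J`, `J` from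
  `exists_J N (M * M) d`. `hyp_alg` with `E = KL` (`algebraMap ℂ KL u = jo (C u)` by `rfl` or
  `IsScalarTower.algebraMap_apply`), `M * M` in the place of `M`, gives that the minor vanishes at `c`
  (as in Uni: `gm_aeval`-type identification of `aeval` at germs, `map_aeval_int`, `map_pt`).
The conclusion is `IsAlgebraic K' (G ↑ρ)`, so `IsAlgebraic K ↑ρ` (`alg_descend`), so `↑ρ ∈ KB B`
(`KB_alg`), and the contradiction is as in Uni (`coe_mem_KB`, some `c ≥ m`).
-/

namespace Pool.Agent.H16.RM

open Filter Pool.Agent.H13.Kob Pool.Agent.H13.Nev PowerSeries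

private noncomputable abbrev ugm (F : Type) [Field F] : (ℕ → F) →+* LL F :=
  Germ.coeRingHom (hyperfilter ℕ : Filter ℕ)

private lemma UniG_eq_zero {F : Type} [Field F] (u : ℕ → F) :
    ugm F u = 0 ↔ ∀ᶠ c in (hyperfilter ℕ : Filter ℕ), u c = 0 := by
  have h : (0 : LL F) = ugm F 0 := (map_zero (ugm F)).symm
  rw [h, show ugm F u = (u : LL F) from rfl, show ugm F 0 = ((0 : ℕ → F) : LL F) from rfl,
    Germ.coe_eq]
  rfl

private noncomputable def UniG_ev {F : Type} [Field F] {τ : Type*} (p : τ → F)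
    (P : MvPolynomial τ ℤ) : F := MvPolynomial.aeval p P

private lemma UniG_aeval {F : Type} [Field F] {τ : Type*} (p : τ → ℕ → F)
    (P : MvPolynomial τ ℤ) :
    MvPolynomial.aeval (fun s => ugm F (p s)) P
      = ugm F fun c => UniG_ev (fun s => p s c) P := by
  rw [← map_aeval_int (ugm F) p P]
  congr 1
  funext c
  exact map_aeval_int (Pi.evalRingHom (fun _ : ℕ => F) c) p P

private lemma UniG_form {F : Type} [Field F] {N d : ℕ} (x : mons N d → ℕ → F)
    (g : Fin N → ℕ → F) :
    form (fun α => ugm F (x α)) (fun i => ugm F (g i))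
      = ugm F fun c => form (fun α => x α c) fun i => g i c := by
  rw [← map_form (ugm F) x g]
  congr 1
  funext c
  exact map_form (Pi.evalRingHom (fun _ : ℕ => F) c) x g

private lemma UniG_sum_mul {F : Type} [Field F] {ι : Type*} [Fintype ι] (u v : ι → ℕ → F) :
    ∑ j, ugm F (u j) * ugm F (v j) = ugm F fun c => ∑ j, u j c * v j c := by
  simp only [← map_mul]
  rw [← map_sum]
  congr 1
  funext c
  rw [Finset.sum_apply]
  rfl

private lemma UniG_det {F : Type} [Field F] {M : ℕ} (w : Fin M → Fin M → ℕ → F) :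
    (Matrix.of fun i j => ugm F (w i j)).det
      = ugm F fun c => (Matrix.of fun i j => w i j c).det := by
  have h1 : (Matrix.of fun i j => ugm F (w i j)) = (ugm F).mapMatrix (Matrix.of w) := rfl
  rw [h1, ← RingHom.map_det]
  congr 1
  funext c
  have h2 := RingHom.map_det (Pi.evalRingHom (fun _ : ℕ => F) c) (Matrix.of w)
  exact h2

private lemma UniG_alg (u : ℂ) : algebraMap ℂ KL u = jo (C u) := rfl

private lemma UniG_charZeroKL : CharZero KL :=
  charZero_of_injective_algebraMap (R := ℂ) (A := KL) (algebraMap ℂ KL).injective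

private lemma UniG_DLC (t : ℂ) : DL (jo (C t)) = 0 := by
  rw [DL_jo]
  have h1 : d⁄dX ℂ (C t) = 0 := by
    have h2 : (C t : ℂ⟦X⟧) = algebraMap ℂ ℂ⟦X⟧ t := rfl
    rw [h2, Derivation.map_algebraMap]
  rw [h1, map_zero]

/-- the coordinates as combinations of the entries of the fundamental matrix -/
private lemma UniG_coord {M s : ℕ} (Φ : Fin M → Fin M → KL) (C0 : Fin M → Fin s → ℂ)
    (l v : Fin M → Fin s → KL) (hv : ∀ i j, v i j = ∑ k, Φ i k * jo (C (C0 k j))) :
    ∑ t : Fin (M * M), (∑ j, l (finProdFinEquiv.symm t).1 j *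
      jo (C (C0 (finProdFinEquiv.symm t).2 j))) * flat Φ t = ∑ a, ∑ j, l a j * v a j := by
  have h1 : ∑ t : Fin (M * M), (∑ j, l (finProdFinEquiv.symm t).1 j *
      jo (C (C0 (finProdFinEquiv.symm t).2 j))) * flat Φ t
      = ∑ p : Fin M × Fin M, (∑ j, l p.1 j * jo (C (C0 p.2 j))) * Φ p.1 p.2 :=
    finProdFinEquiv.symm.sum_comp (fun p : Fin M × Fin M =>
      (∑ j, l p.1 j * jo (C (C0 p.2 j))) * Φ p.1 p.2)
  rw [h1, Fintype.sum_prod_type]
  refine Finset.sum_congr rfl fun a _ => ?_
  simp only [hv, Finset.mul_sum, Finset.sum_mul]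
  rw [Finset.sum_comm]
  refine Finset.sum_congr rfl fun j _ => Finset.sum_congr rfl fun k _ => ?_
  ring

private lemma UniG_one (N M s d b : ℕ) (hM : 0 < M) (i i' : Fin N) : ∃ c : ℕ,
    ∀ (e : ℕ) (x : mons N d → ℂ),
    Good e x →
    (∀ k ≤ M * M, ∀ a : Fin k → ℕ, ∃ b : Fin k → ℕ, SameType d a b ∧ ∀ j, b j ≤ e) →
    M * M ≤ e →
    ∀ B : ℕ → Set KN, Filt KN DK B → AlgF KN B →
    ∀ (w : Fin M → Fin s → KN) (A : Fin M → Fin M → KN), (∀ i j, A i j ∈ B b) →
    ∀ q : KN, (∀ i j, DK (w i j) = ∑ l, A i l * w l j - q * w i j) →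
    ∀ lam : Fin N → Fin M → Fin s → KN, (∀ i a j, lam i a j ∈ B b) →
    form (fun α => cK (x α)) (fun i => ∑ a, ∑ j, lam i a j * w a j) = 0 →
    ∑ a, ∑ j, lam i' a j * w a j ≠ 0 →
      (∑ a, ∑ j, lam i a j * w a j) / (∑ a, ∑ j, lam i' a j * w a j) ∈ B c := by
  classical
  have := UniG_charZeroKL
  by_contra hcon
  push Not at hcon
  choose e x hx he hMe B hB hA w A hAb q hD lam hlam hF hi' hρ using hcon
  obtain ⟨K, hK⟩ := exists_KS hB
  obtain ⟨J, hJ⟩ := exists_J N (M * M) d
  choose z Φ C0 hdet hΦ hW using fun c => exists_fund (A c) (q c) (w c) (hD c)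
  obtain ⟨G, hG'⟩ := exists_GerM fun c => sigZ (z c)
  have hG : ∀ u : ℕ → KN, G (ugm KN u) = ugm KL fun c => sigZ (z c) (u c) := hG'
  have hrepN : ∀ y : LL KN, ∃ u : ℕ → KN, y = ugm KN u := fun y =>
    Germ.inductionOn y fun u => ⟨u, rfl⟩
  have hrepL : ∀ y : LL KL, ∃ u : ℕ → KL, y = ugm KL u := fun y =>
    Germ.inductionOn y fun u => ⟨u, rfl⟩
  have hDL : ∀ u : ℕ → KL, Germ.map DL (ugm KL u) = ugm KL fun c => DL (u c) := fun u => rfl
  have hDN : ∀ u : ℕ → KN, Germ.map DK (ugm KN u) = ugm KN fun c => DK (u c) := fun u => rfl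
  have hGD : ∀ y : LL KN, Germ.map DL (G y) = G (Germ.map DK y) := by
    intro y
    obtain ⟨u, rfl⟩ := hrepN y
    rw [hG, hDL, hDN, hG]
    congr 1
    funext c
    exact (sigZ_DK (z c) (u c)).symm
  have hmemG : ∀ y : LL KN, y ∈ KB B → G y ∈ K.map G := fun y hy =>
    Subfield.mem_map.mpr ⟨y, (hK y).mpr hy, rfl⟩
  -- the data in the ultrapower
  set w' : Fin M → Fin M → LL KL := fun r t => ugm KL fun c => Φ c r t with hw'
  set A' : Fin M → Fin M → LL KL := fun r t => G (ugm KN fun c => A c r t) with hA'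
  set q' : LL KL := G (ugm KN q) with hq'
  set x' : mons N d → LL KL := fun α => ugm KL fun c => jo (C (x c α)) with hx'
  set lm : ℕ → Fin N → Fin (M * M) → KL := fun c r t =>
    ∑ j, sigZ (z c) (lam c r (finProdFinEquiv.symm t).1 j) *
      jo (C (C0 c (finProdFinEquiv.symm t).2 j)) with hlm
  set lam' : Fin N → Fin (M * M) → LL KL := fun r t => ugm KL fun c => lm c r t with hlam'
  have hflat : ∀ t, flat w' t = ugm KL fun c => flat (Φ c) t := fun t => rfl
  have hgc : ∀ c r, ∑ t, lm c r t * flat (Φ c) t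
      = sigZ (z c) (∑ a, ∑ j, lam c r a j * w c a j) := by
    intro c r
    have h1 := UniG_coord (Φ c) (C0 c) (fun a j => sigZ (z c) (lam c r a j))
      (fun a j => sigZ (z c) (w c a j)) (hW c)
    refine h1.trans ?_
    simp only [map_sum, map_mul]
  have hsum : ∀ r : Fin N, ∑ t, lam' r t * flat w' t
      = ugm KL fun c => sigZ (z c) (∑ a, ∑ j, lam c r a j * w c a j) := by
    intro r
    have h1 := UniG_sum_mul (F := KL) (fun (t : Fin (M * M)) c => lm c r t)
      (fun t c => flat (Φ c) t)
    refine h1.trans ?_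
    congr 1
    funext c
    exact hgc c r
  have hcore := coreG (N := N) (M := M) (d := d) (L := LL KL) (Germ.map DL)
    (map_DD_add fun a b => map_add DL a b) (map_DD_mul DL_mul) (K.map G) (by
      intro y hy
      obtain ⟨y0, hy0, rfl⟩ := Subfield.mem_map.mp hy
      rw [hGD]
      exact hmemG _ (KB_der hB ((hK _).mp hy0))) (by
      intro y hy
      obtain ⟨u, rfl⟩ := hrepL y
      rw [hDL, UniG_eq_zero] at hy
      have h1 : ∀ c, ∃ t : ℂ, DL (u c) = 0 → u c = jo (C t) := by
        intro c
        by_cases h : DL (u c) = 0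
        · obtain ⟨t, ht⟩ := DL_const h
          exact ⟨t, fun _ => ht⟩
        · exact ⟨0, fun h' => absurd h' h⟩
      choose t ht using h1
      have h2 : ugm KL u = G (ugm KN fun c => cK (t c)) := by
        rw [hG]
        refine Germ.coe_eq.2 ?_
        filter_upwards [hy] with c hc
        rw [sigZ_const]
        exact ht c hc
      rw [h2]
      refine hmemG _ (KB_ker hB ?_)
      rw [hDN]
      have h3 : (fun c => DK (cK (t c))) = 0 := by
        funext c
        exact DK_cK _
      rw [h3, map_zero]) w' (by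
      intro h0
      have h1 := UniG_det (F := KL) fun r t c => Φ c r t
      rw [show (Matrix.of fun i j => ugm KL ((fun r t c => Φ c r t) i j)) = Matrix.of w' from rfl,
        h0] at h1
      obtain ⟨c, hc⟩ := ((UniG_eq_zero _).mp h1.symm).exists
      exact hdet c hc) A' (fun r t => hmemG _
        ((coe_mem_KB _).mpr ⟨b, Eventually.of_forall fun c => hAb c r t⟩)) q' (by
      intro r t
      have h1 : Germ.map DL (w' r t) = ugm KL fun c => DL (Φ c r t) := rfl
      have h2 := UniG_sum_mul (F := KL) (fun l c => sigZ (z c) (A c r l)) (fun l c => Φ c l t)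
      have h3 : ∑ l, A' r l * w' l t = ugm KL fun c => ∑ l, sigZ (z c) (A c r l) * Φ c l t := by
        rw [← h2]
        refine Finset.sum_congr rfl fun l _ => ?_
        rw [hA', hw']
        simp only
        rw [hG]
      rw [h1, h3, hq', hw']
      simp only
      rw [hG, ← map_mul, ← map_sub]
      congr 1
      funext c
      exact hΦ c r t) x' (by
      intro α
      have h1 : Germ.map DL (x' α) = ugm KL fun c => DL (jo (C (x c α))) := rfl
      rw [h1]
      have h2 : (fun c => DL (jo (C (x c α)))) = 0 := by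
        funext c
        exact UniG_DLC _
      rw [h2, map_zero]) lam' (by
      intro r t
      have h1 : lam' r t = G (ugm KN fun c => ∑ j, lam c r (finProdFinEquiv.symm t).1 j *
          cK (C0 c (finProdFinEquiv.symm t).2 j)) := by
        rw [hG, hlam', hlm]
        simp only
        congr 1
        funext c
        rw [map_sum]
        refine Finset.sum_congr rfl fun j _ => ?_
        rw [map_mul, sigZ_const]
      rw [h1]
      refine hmemG _ ((coe_mem_KB _).mpr ⟨(Finset.univ : Finset (Fin s)).card * (b + 0),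
        Eventually.of_forall fun c => ?_⟩)
      exact (hB c).sum _ _ fun j _ => (hB c).mul (hlam c r _ j) ((hB c).const (DK_cK _))) (by
      simp only [hsum]
      have h1 := UniG_form (F := KL) (fun (α : mons N d) c => jo (C (x c α)))
        (fun r c => sigZ (z c) (∑ a, ∑ j, lam c r a j * w c a j))
      have h2 : (fun c => form (fun α => jo (C (x c α)))
          fun r => sigZ (z c) (∑ a, ∑ j, lam c r a j * w c a j)) = 0 := by
        funext c
        have h3 := map_form (sigZ (z c)) (fun α => cK (x c α))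
          (fun r => ∑ a, ∑ j, lam c r a j * w c a j)
        rw [hF c, map_zero] at h3
        simp only [sigZ_const] at h3
        exact h3.symm
      rw [h2, map_zero] at h1
      exact h1) i i' (by
      intro B' hB' hFF
      choose β hβ using fun l j => hrepL (B' l j)
      have hpt : ∀ P : UU N (M * M) d, MvPolynomial.aeval (pt x' lam' (flat w') B') P
          = ugm KL fun c => UniG_ev (pt (fun α => jo (C (x c α))) (lm c) (flat (Φ c))
            fun l j => β l j c) P := by
        intro P
        have h1 := UniG_aeval (F := KL) (pt (fun (α : mons N d) c => jo (C (x c α)))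
          (fun r t c => lm c r t) (fun t c => flat (Φ c) t) β) P
        have h2 : (fun s => ugm KL (pt (fun (α : mons N d) c => jo (C (x c α)))
          (fun r t c => lm c r t) (fun t c => flat (Φ c) t) β s)) = pt x' lam' (flat w') B' := by
          rw [map_pt (fun u : ℕ → KL => ugm KL u)]
          congr 1
          funext l j
          exact (hβ l j).symm
        rw [h2] at h1
        rw [h1]
        congr 1
        funext c
        congr 1
        exact map_pt (fun u : ℕ → KL => u c) _ _ _ _
      have hev1 : ∀ᶠ c in (hyperfilter ℕ : Filter ℕ), ∀ l j, DL (β l j c) = 0 := by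
        rw [eventually_all]
        intro l
        rw [eventually_all]
        intro j
        have h1 := hB' l j
        rw [hβ l j, hDL, UniG_eq_zero] at h1
        exact h1
      have hev2 : ∀ᶠ c in (hyperfilter ℕ : Filter ℕ), ∀ k : Fin J,
          UniG_ev (pt (fun α => jo (C (x c α))) (lm c) (flat (Φ c))
            fun l j => β l j c) (FF k : UU N (M * M) d) = 0 := by
        rw [eventually_all]
        intro k
        have h1 := hFF k
        rw [hpt, UniG_eq_zero] at h1
        exact h1
      rw [hpt, UniG_eq_zero]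
      filter_upwards [hev1, hev2] with c h1 h2
      choose bb hbb using fun l j => DL_const (h1 l j)
      have h3 := hyp_alg hJ (hx c) (Nat.mul_pos hM hM) (he c) (hMe c) (E := KL) (lm c)
        (flat (Φ c)) bb (by
          intro k hk
          have h4 := h2 ⟨k, hk⟩
          simp only [hbb] at h4
          exact h4) i i'
      simp only [hbb]
      exact h3) (by
      rw [hsum, ne_eq, UniG_eq_zero]
      intro h0
      obtain ⟨c, hc⟩ := h0.exists
      exact hi' c ((_root_.map_eq_zero _).mp hc))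
  have hdiv : (∑ t, lam' i t * flat w' t) / (∑ t, lam' i' t * flat w' t)
      = G (ugm KN fun c => (∑ a, ∑ j, lam c i a j * w c a j) /
        (∑ a, ∑ j, lam c i' a j * w c a j)) := by
    rw [hsum, hsum, ← hG, ← hG, ← map_div₀]
    rfl
  rw [hdiv] at hcore
  have hmem := KB_alg hB hA K hK _ (alg_descend G K _ hcore)
  obtain ⟨m, hm⟩ := (coe_mem_KB _).mp hmem
  have hge : ∀ᶠ c in (hyperfilter ℕ : Filter ℕ), m ≤ c := by
    have h1 : ∀ᶠ c in (atTop : Filter ℕ), m ≤ c := eventually_ge_atTop m
    rw [← Nat.cofinite_eq_atTop] at h1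
    exact h1.filter_mono (hyperfilter_le_cofinite)
  obtain ⟨c, hc1, hc2⟩ := (hm.and hge).exists
  exact hρ c ((hB c).mono hc2 hc1)

theorem uniformG (N M s d b : ℕ) (hM : 0 < M) : ∃ c : ℕ, ∀ (e : ℕ) (x : mons N d → ℂ),
    Good e x →
    (∀ k ≤ M * M, ∀ a : Fin k → ℕ, ∃ b : Fin k → ℕ, SameType d a b ∧ ∀ j, b j ≤ e) →
    M * M ≤ e →
    ∀ B : ℕ → Set KN, Filt KN DK B → AlgF KN B →
    ∀ (w : Fin M → Fin s → KN) (A : Fin M → Fin M → KN), (∀ i j, A i j ∈ B b) →
    ∀ q : KN, (∀ i j, DK (w i j) = ∑ l, A i l * w l j - q * w i j) →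
    ∀ lam : Fin N → Fin M → Fin s → KN, (∀ i a j, lam i a j ∈ B b) →
    form (fun α => cK (x α)) (fun i => ∑ a, ∑ j, lam i a j * w a j) = 0 →
    ∀ i i' : Fin N, ∑ a, ∑ j, lam i' a j * w a j ≠ 0 →
      (∑ a, ∑ j, lam i a j * w a j) / (∑ a, ∑ j, lam i' a j * w a j) ∈ B c := by
  classical
  choose c hc using fun (p : Fin N × Fin N) => UniG_one N M s d b hM p.1 p.2
  refine ⟨∑ p, c p, fun e x hx he hMe B hB hA w A hAb q hD lam hlam hF i i' hi' => ?_⟩
  refine hB.mono (Finset.single_le_sum (f := c) (fun _ _ => Nat.zero_le _)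
    (Finset.mem_univ (i, i'))) ?_
  exact hc (i, i') e x hx he hMe B hB hA w A hAb q hD lam hlam hF hi'

end Pool.Agent.H16.RM
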