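import Pool.Agent.H16.RM.Nu
import Pool.Agent.H16.RM.WNe
import Pool.Agent.H16.RM.Lam

/-!
# The Wronskian is a product of the functions and of a small determinant

PROOF. Let `Y j = io (y j)`. All `y j ≠ 0` (`Wr y ≠ 0`, `ind_of_det` with `a = Pi.single j 1`, or a
zero column). Put `s = (Y 0)⁻¹`, `f j = s * Y j`, `MT r = max 0 (TC y r)`; `f j ≠ 0` and
`f j ∈ BB MT S 1` (`T_quot_le`: `T ≤ TC y r + C ≤ 1 * MT r + C * S r`). (1)
`DK^[i] (f j) / f j ∈ Lam MT S` for all `i`: for `i = 0` it is `1` (`wt_Lam.one`), and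
`DK^[i+1] f / f = DK (DK^[i] f / f) + (DK^[i] f / f) * (DK f / f)`, with `wt_Lam` (`der`, `add`, `mul`)
and `ld_Lam`. (2) Put `Δ = det (of fun i j => DK^[i] (f j) / f j)`. `Δ ∈ Lam MT S`:
`Matrix.det_apply` is a sum of signed products (finite sums and products stay in `Lam`: induction with
`wt_Lam`; the sign is `neg` or nothing). (3) `io (Wr y) = (∏ j, Y j) * Δ`: by `det_scale`
`det (Wm DK 0 f) = s^(M+1) det (Wm DK 0 Y) = s^(M+1) io (Wr y)` (`io_Wr`, `nab_zero`), and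
`det (Wm DK 0 f) = (∏ f j) * Δ` (`Matrix.det_mul_row`: column `j` is multiplied by `f j`),
`∏ f j = s^(M+1) ∏ Y j`.
-/

namespace Pool.Agent.H16.RM

open Pool.Agent.H13.Nev

private lemma WDel_D0 : DK (0 : KN) = 0 := by
  have h := DK_add 0 0
  rw [add_zero] at h
  exact left_eq_add.1 h

private lemma WDel_iter0 (i : ℕ) : DK^[i] (0 : KN) = 0 := Function.iterate_fixed WDel_D0 i

private lemma WDel_ne {M : ℕ} (y : Fin (M + 1) → EN) (hW : Wr y ≠ 0) (j : Fin (M + 1)) :
    y j ≠ 0 := by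
  intro hj
  apply io_ne hW
  rw [io_Wr]
  apply Matrix.det_eq_zero_of_column_eq_zero j
  intro i
  show (nab DK 0)^[(i : ℕ)] (io (y j)) = 0
  rw [nab_zero, hj, map_zero, WDel_iter0]

private lemma WDel_quot {MT S : ℝ → ℝ} (hG : Gauge MT S) {f : KN} (hf : f ∈ BB MT S 1)
    (hf0 : f ≠ 0) (i : ℕ) : DK^[i] f / f ∈ Lam MT S := by
  have wt := wt_Lam hG
  induction i with
  | zero =>
    rw [Function.iterate_zero, id, div_self hf0]
    exact wt.one
  | succ i ih =>
    have h1 : DK^[i] f = DK^[i] f / f * f := (div_mul_cancel₀ _ hf0).symm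
    have h2 : DK^[i + 1] f / f = DK^[i] f / f * (DK f / f) + DK (DK^[i] f / f) := by
      rw [Function.iterate_succ_apply']
      nth_rewrite 1 [h1]
      rw [DK_mul, add_div, mul_div_assoc, mul_div_cancel_right₀ _ hf0]
    rw [h2]
    exact wt.add (j := 0) (wt.mul (i := 0) (j := 0) ih (ld_Lam hG hf hf0)) (wt.der (j := 0) ih)

private lemma WDel_det {MT S : ℝ → ℝ} (hG : Gauge MT S) {n : ℕ} (A : Matrix (Fin n) (Fin n) KN)
    (hA : ∀ i j, A i j ∈ Lam MT S) : A.det ∈ Lam MT S := by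
  have wt := wt_Lam hG
  rw [Matrix.det_apply]
  refine Finset.sum_induction _ (· ∈ Lam MT S) (fun a b ha hb => wt.add (j := 0) ha hb)
    (wt.zero 0) fun σ _ => ?_
  have hp : ∏ i, A (σ i) i ∈ Lam MT S :=
    Finset.prod_induction _ (· ∈ Lam MT S) (fun a b ha hb => wt.mul (i := 0) (j := 0) ha hb)
      wt.one fun i _ => hA _ _
  rcases Int.units_eq_one_or (Equiv.Perm.sign σ) with h | h
  · rw [h, one_smul]
    exact hp
  · rw [h, Units.neg_smul, one_smul]
    exact wt.neg (j := 0) hp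

theorem exists_Del {M : ℕ} (y : Fin (M + 1) → EN) (hW : Wr y ≠ 0) {S : ℝ → ℝ}
    (hG : Gauge (fun r => max 0 (TC y r)) S) :
    ∃ Δ ∈ Lam (fun r => max 0 (TC y r)) S, io (Wr y) = (∏ j, io (y j)) * Δ := by
  have hy : ∀ j, io (y j) ≠ 0 := fun j => io_ne (WDel_ne y hW j)
  set s : KN := (io (y 0))⁻¹ with hs
  have hs0 : s ≠ 0 := inv_ne_zero (hy 0)
  have hf0 : ∀ j, s * io (y j) ≠ 0 := fun j => mul_ne_zero hs0 (hy j)
  have hf : ∀ j, s * io (y j) ∈ BB (fun r => max 0 (TC y r)) S 1 := by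
    intro j
    obtain ⟨C, hC, h⟩ := T_quot_le y j 0 (WDel_ne y hW 0)
    refine ⟨C, hC, ?_⟩
    filter_upwards [hG.hS, eventually_one_le_ff] with r h1 hr
    have h2 : s * io (y j) = io (y j) / io (y 0) := by rw [hs, inv_mul_eq_div]
    rw [h2]
    have h3 := h r hr
    have h4 : TC y r ≤ max 0 (TC y r) := le_max_right _ _
    push_cast
    nlinarith
  refine ⟨(Matrix.of fun i j : Fin (M + 1) => DK^[(i : ℕ)] (s * io (y j)) / (s * io (y j))).det,
    WDel_det hG _ fun i j => WDel_quot hG (hf j) (hf0 j) i, ?_⟩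
  have h1 : (Wm DK 0 fun j => s * io (y j)).det = s ^ (M + 1) * io (Wr y) := by
    rw [det_scale DK_add DK_mul hs0, io_Wr]
  have h2 : (Wm DK 0 fun j => s * io (y j)) = Matrix.of fun i j => (s * io (y j)) *
      (Matrix.of fun i j : Fin (M + 1) => DK^[(i : ℕ)] (s * io (y j)) / (s * io (y j))) i j := by
    ext i j
    show (nab DK 0)^[(i : ℕ)] (s * io (y j)) =
      s * io (y j) * (DK^[(i : ℕ)] (s * io (y j)) / (s * io (y j)))
    rw [nab_zero, mul_div_cancel₀ _ (hf0 j)]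
  have h3 : (Wm DK 0 fun j => s * io (y j)).det = (∏ j, (s * io (y j))) *
      (Matrix.of fun i j : Fin (M + 1) => DK^[(i : ℕ)] (s * io (y j)) / (s * io (y j))).det := by
    conv_lhs => rw [h2]
    exact Matrix.det_mul_row (fun j => s * io (y j)) _
  rw [Finset.prod_mul_distrib, Finset.prod_const, Finset.card_univ, Fintype.card_fin, mul_assoc,
    h1] at h3
  exact mul_left_cancel₀ (pow_ne_zero _ hs0) h3

end Pool.Agent.H16.RM
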